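import Mathlib

set_option autoImplicit false

namespace Pool.Agent.H698Z.Four

open Finset
open scoped ComplexConjugate

variable {G : Type} [AddCommGroup G] [Fintype G] [DecidableEq G]

/-- normalised Fourier coefficient of a real function -/
noncomputable def ft (f : G → ℝ) (ψ : AddChar G ℂ) : ℂ :=
  (∑ x, (f x : ℂ) * ψ x) / (Fintype.card G : ℂ)

theorem cardC_ne : (Fintype.card G : ℂ) ≠ 0 := by
  exact_mod_cast Fintype.card_ne_zero

theorem cardR_pos : (0 : ℝ) < (Fintype.card G : ℝ) := by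
  exact_mod_cast Fintype.card_pos

theorem conj_char (ψ : AddChar G ℂ) (x : G) : conj (ψ x) = ψ (-x) := by
  rw [AddChar.map_neg_eq_conj]

theorem orth (x y : G) :
    ∑ ψ : AddChar G ℂ, ψ x * conj (ψ y) = if x = y then (Fintype.card G : ℂ) else 0 := by
  have : ∀ ψ : AddChar G ℂ, ψ x * conj (ψ y) = ψ (x - y) := by
    intro ψ
    rw [conj_char, sub_eq_add_neg, AddChar.map_add_eq_mul]
  simp_rw [this]
  rw [AddChar.sum_apply_eq_ite]
  simp [sub_eq_zero]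

theorem gen_planch {ι : Type} (C : Finset ι) (τ : ι → G) (hτ : Set.InjOn τ C) (c e : ι → ℂ) :
    ∑ ψ : AddChar G ℂ, (∑ a ∈ C, c a * ψ (τ a)) * conj (∑ a ∈ C, e a * ψ (τ a)) =
      (Fintype.card G : ℂ) * ∑ a ∈ C, c a * conj (e a) := by
  classical
  have h1 : ∀ ψ : AddChar G ℂ, (∑ a ∈ C, c a * ψ (τ a)) * conj (∑ a ∈ C, e a * ψ (τ a)) =
      ∑ a ∈ C, ∑ b ∈ C, (c a * conj (e b)) * (ψ (τ a) * conj (ψ (τ b))) := by
    intro ψ
    rw [map_sum, Finset.sum_mul_sum]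
    refine Finset.sum_congr rfl fun a _ => Finset.sum_congr rfl fun b _ => ?_
    rw [map_mul]; ring
  simp_rw [h1]
  rw [Finset.sum_comm, Finset.mul_sum]
  refine Finset.sum_congr rfl fun a ha => ?_
  rw [Finset.sum_comm]
  simp_rw [← Finset.mul_sum, orth]
  rw [Finset.sum_eq_single a]
  · simp [mul_comm]
  · intro b hb hba
    rw [if_neg, mul_zero]
    intro h
    exact hba (hτ ha hb h).symm
  · intro h; exact absurd ha h

theorem gen_parseval {ι : Type} (C : Finset ι) (τ : ι → G) (hτ : Set.InjOn τ C) (c : ι → ℂ) :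
    ∑ ψ : AddChar G ℂ, ‖∑ a ∈ C, c a * ψ (τ a)‖ ^ 2 =
      (Fintype.card G : ℝ) * ∑ a ∈ C, ‖c a‖ ^ 2 := by
  have h := gen_planch C τ hτ c c
  simp_rw [Complex.mul_conj, Complex.normSq_eq_norm_sq] at h
  exact_mod_cast h

theorem planch (f g : G → ℝ) :
    ∑ ψ : AddChar G ℂ, ft f ψ * conj (ft g ψ) =
      (((∑ x, f x * g x) / (Fintype.card G : ℝ) : ℝ) : ℂ) := by
  have h := gen_planch (G := G) Finset.univ id (fun _ _ _ _ h => h) (fun x => (f x : ℂ))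
    (fun x => (g x : ℂ))
  simp only [id, Complex.conj_ofReal] at h
  have hn : (Fintype.card G : ℂ) ≠ 0 := cardC_ne
  have h2 : ∀ ψ : AddChar G ℂ, ft f ψ * conj (ft g ψ) =
      ((∑ x, (f x : ℂ) * ψ x) * conj (∑ x, (g x : ℂ) * ψ x)) / (Fintype.card G : ℂ) ^ 2 := by
    intro ψ
    unfold ft
    rw [map_div₀, Complex.conj_natCast]
    field_simp
  simp_rw [h2]
  rw [← Finset.sum_div, h]
  push_cast
  field_simp

theorem parseval (f : G → ℝ) :
    ∑ ψ : AddChar G ℂ, ‖ft f ψ‖ ^ 2 = (∑ x, f x ^ 2) / (Fintype.card G : ℝ) := by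
  have h := planch f f
  simp_rw [Complex.mul_conj, Complex.normSq_eq_norm_sq] at h
  have h' : ∑ ψ : AddChar G ℂ, ‖ft f ψ‖ ^ 2 = (∑ x, f x * f x) / (Fintype.card G : ℝ) := by
    exact_mod_cast h
  simpa [sq] using h'

theorem inversion (f : G → ℝ) (z : G) :
    (f z : ℂ) = ∑ χ : AddChar G ℂ, ft f χ * χ (-z) := by
  have hn : (Fintype.card G : ℂ) ≠ 0 := cardC_ne
  have h1 : ∀ χ : AddChar G ℂ, ft f χ * χ (-z) =
      (∑ x, (f x : ℂ) * (χ x * conj (χ z))) / (Fintype.card G : ℂ) := by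
    intro χ
    unfold ft
    rw [← conj_char, div_mul_eq_mul_div, Finset.sum_mul]
    simp_rw [mul_assoc]
  simp_rw [h1]
  rw [← Finset.sum_div, Finset.sum_comm]
  simp_rw [← Finset.mul_sum, orth]
  simp [hn]

theorem parseval_le (f : G → ℝ) (h0 : ∀ x, 0 ≤ f x) (h1 : ∀ x, f x ≤ 1) :
    ∑ ψ : AddChar G ℂ, ‖ft f ψ‖ ^ 2 ≤ 1 := by
  rw [parseval, div_le_one cardR_pos]
  calc ∑ x, f x ^ 2 ≤ ∑ _x : G, (1 : ℝ) := Finset.sum_le_sum fun x _ => by
        have := h0 x; have := h1 x; nlinarith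
    _ = _ := by simp

theorem ft_shift (f : G → ℝ) (d : G) (ψ : AddChar G ℂ) :
    ft (fun x => f (x + d)) ψ = ft f ψ * ψ (-d) := by
  unfold ft
  rw [div_mul_eq_mul_div, Finset.sum_mul]
  congr 1
  refine Fintype.sum_equiv (Equiv.addRight d) _ _ fun x => ?_
  simp only [Equiv.coe_addRight]
  rw [mul_assoc, ← AddChar.map_add_eq_mul]
  simp

theorem ft_sub (f g : G → ℝ) (ψ : AddChar G ℂ) :
    ft (fun x => f x - g x) ψ = ft f ψ - ft g ψ := by
  unfold ft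
  rw [← sub_div, ← Finset.sum_sub_distrib]
  congr 1
  refine Finset.sum_congr rfl fun x _ => ?_
  push_cast; ring

theorem ft_sum_div {ι : Type} (C : Finset ι) (F : ι → G → ℝ) (r : ℝ) (ψ : AddChar G ℂ) :
    ft (fun x => (∑ a ∈ C, F a x) / r) ψ = (∑ a ∈ C, ft (F a) ψ) / (r : ℂ) := by
  unfold ft
  rw [← Finset.sum_div, div_right_comm]
  congr 1
  rw [Finset.sum_comm, Finset.sum_div]
  refine Finset.sum_congr rfl fun x _ => ?_
  push_cast
  rw [← Finset.sum_mul]; ring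

theorem norm_char (ψ : AddChar G ℂ) (x : G) : ‖ψ x‖ = 1 := by
  simp

theorem norm_neg_sub (ψ : AddChar G ℂ) (d : G) : ‖ψ (-d) - 1‖ = ‖ψ d - 1‖ := by
  rw [← conj_char, ← Complex.norm_conj (ψ d - 1)]
  simp

theorem norm_char_sub_le (ψ : AddChar G ℂ) (d : G) : ‖ψ d - 1‖ ≤ 2 := by
  calc ‖ψ d - 1‖ ≤ ‖ψ d‖ + ‖(1 : ℂ)‖ := norm_sub_le _ _
    _ = 2 := by rw [norm_char]; norm_num

theorem norm_add_sub_le (ψ : AddChar G ℂ) (d e : G) :
    ‖ψ (d + e) - 1‖ ≤ ‖ψ d - 1‖ + ‖ψ e - 1‖ := by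
  have : ψ (d + e) - 1 = (ψ d - 1) * ψ e + (ψ e - 1) := by
    rw [AddChar.map_add_eq_mul]; ring
  rw [this]
  refine (norm_add_le _ _).trans ?_
  rw [norm_mul, norm_char, mul_one]

end Pool.Agent.H698Z.Four
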