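import Mathlib

set_option autoImplicit false

namespace Pool.Agent.H698Z.Pop

open Matrix

/-- The grid `[N]^2 = {1, ..., N}^2` inside `ℤ^2`. -/
noncomputable def grid (N : ℕ) : Finset (Fin 2 → ℤ) := Fintype.piFinset fun _ => Finset.Icc (1 : ℤ) (N : ℤ)

/-- `R_A(n)`: the number of `x ∈ A` with `x + M₁ n ∈ A` and `x + M₂ n ∈ A`. -/
def patCount (M₁ M₂ : Matrix (Fin 2) (Fin 2) ℤ) (A : Finset (Fin 2 → ℤ)) (n : Fin 2 → ℤ) : ℕ :=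
  (A.filter fun x => x + M₁ *ᵥ n ∈ A ∧ x + M₂ *ᵥ n ∈ A).card

/-- The pair `(M₁, M₂)` has `α^3` popular differences. -/
def HasCubePopular (M₁ M₂ : Matrix (Fin 2) (Fin 2) ℤ) : Prop :=
  ∀ α : ℝ, 0 < α → ∀ ε : ℝ, 0 < ε → ∃ N₀ : ℕ, ∀ N : ℕ, N₀ ≤ N →
    ∀ A : Finset (Fin 2 → ℤ), A ⊆ grid N → α * (N : ℝ) ^ 2 ≤ (A.card : ℝ) →
      ∃ n : Fin 2 → ℤ, M₁ *ᵥ n ≠ 0 ∧ M₂ *ᵥ n ≠ 0 ∧
        (α ^ 3 - ε) * (N : ℝ) ^ 2 < (patCount M₁ M₂ A n : ℝ)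

/-- The rank over `ℚ` of an integer matrix. -/
noncomputable def rankQ (M : Matrix (Fin 2) (Fin 2) ℤ) : ℕ :=
  (M.map (Int.cast : ℤ → ℚ)).rank

end Pool.Agent.H698Z.Pop
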