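import Mathlib
import Pool.Agent.H698Z.Four

set_option autoImplicit false
set_option linter.unusedSectionVars false

namespace Pool.Agent.H698Z.Four

open Finset
open scoped ComplexConjugate

variable {G : Type} [AddCommGroup G] [Fintype G] [DecidableEq G]

/-- smoothed function -/
noncomputable def sm (f : G → ℝ) (C : Finset G) (a0 : G) (x : G) : ℝ :=
  (∑ a ∈ C, f (x + (a - a0))) / (C.card : ℝ)

/-- its multiplier -/
noncomputable def mul (C : Finset G) (a0 : G) (ψ : AddChar G ℂ) : ℂ :=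
  (∑ a ∈ C, ψ (-(a - a0))) / (C.card : ℂ)

theorem ft_sm (f : G → ℝ) (C : Finset G) (a0 : G) (ψ : AddChar G ℂ) :
    ft (sm f C a0) ψ = ft f ψ * mul C a0 ψ := by
  have h := ft_sum_div C (fun a x => f (x + (a - a0))) (C.card : ℝ) ψ
  unfold sm mul
  rw [h]
  simp_rw [ft_shift]
  rw [← Finset.mul_sum]
  push_cast
  ring

theorem sm_nonneg (f : G → ℝ) (h0 : ∀ x, 0 ≤ f x) (C : Finset G) (a0 x : G) :
    0 ≤ sm f C a0 x :=
  div_nonneg (Finset.sum_nonneg fun _ _ => h0 _) (Nat.cast_nonneg _)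

theorem avg_le_one {ι : Type} (C : Finset ι) (F : ι → ℝ) (h1 : ∀ a, F a ≤ 1) :
    (∑ a ∈ C, F a) / (C.card : ℝ) ≤ 1 := by
  apply div_le_one_of_le₀ _ (Nat.cast_nonneg _)
  calc ∑ a ∈ C, F a ≤ ∑ _a ∈ C, (1 : ℝ) := Finset.sum_le_sum fun a _ => h1 a
    _ = _ := by simp

theorem sm_le_one (f : G → ℝ) (h1 : ∀ x, f x ≤ 1) (C : Finset G) (a0 x : G) :
    sm f C a0 x ≤ 1 := avg_le_one C _ fun _ => h1 _

theorem norm_mul_le (C : Finset G) (a0 : G) (ψ : AddChar G ℂ) : ‖mul C a0 ψ‖ ≤ 1 := by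
  unfold mul
  rw [norm_div, Complex.norm_natCast]
  apply div_le_one_of_le₀ _ (Nat.cast_nonneg _)
  calc ‖∑ a ∈ C, ψ (-(a - a0))‖ ≤ ∑ a ∈ C, ‖ψ (-(a - a0))‖ := norm_sum_le _ _
    _ = _ := by simp

theorem mul_parseval (C : Finset G) (hC : C.Nonempty) (a0 : G) :
    ∑ ψ : AddChar G ℂ, ‖mul C a0 ψ‖ ^ 2 = (Fintype.card G : ℝ) / (C.card : ℝ) := by
  have hc : (0 : ℝ) < C.card := by exact_mod_cast hC.card_pos
  have h := gen_parseval C (fun a => -(a - a0)) (fun a _ b _ h => by simpa using h) (fun _ => 1)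
  simp only [one_mul, norm_one, one_pow, sum_const, nsmul_eq_mul, mul_one] at h
  unfold mul
  simp_rw [norm_div, div_pow, Complex.norm_natCast]
  rw [← Finset.sum_div, h]
  field_simp

theorem mul_close (C : Finset G) (hC : C.Nonempty) (a0 : G) (ψ : AddChar G ℂ) (ε : ℝ)
    (h : ∀ a ∈ C, ‖ψ (a - a0) - 1‖ ≤ ε) : ‖mul C a0 ψ - 1‖ ≤ ε := by
  have hc : (0 : ℝ) < C.card := by exact_mod_cast hC.card_pos
  have hc' : (C.card : ℂ) ≠ 0 := by exact_mod_cast hC.card_pos.ne'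
  have : mul C a0 ψ - 1 = (∑ a ∈ C, (ψ (-(a - a0)) - 1)) / (C.card : ℂ) := by
    unfold mul
    rw [Finset.sum_sub_distrib]
    simp only [sum_const, nsmul_eq_mul, mul_one]
    field_simp
  rw [this, norm_div, Complex.norm_natCast, div_le_iff₀ hc]
  calc ‖∑ a ∈ C, (ψ (-(a - a0)) - 1)‖ ≤ ∑ a ∈ C, ‖ψ (-(a - a0)) - 1‖ := norm_sum_le _ _
    _ ≤ ∑ _a ∈ C, ε := Finset.sum_le_sum fun a ha => by rw [norm_neg_sub]; exact h a ha
    _ = _ := by simp [mul_comm]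

/-- the data of a regular scale -/
structure Scale (f : G → ℝ) (S S' : Finset (AddChar G ℂ)) (ε η : ℝ) (C : Finset G) : Prop where
  h0 : ∀ x, 0 ≤ f x
  h1 : ∀ x, f x ≤ 1
  hε : 0 < ε
  hη : 0 ≤ η
  hC : C.Nonempty
  hS' : ∀ ψ, ψ ∉ S' → ‖ft f ψ‖ ≤ η
  hSS' : ∑ ψ ∈ S' \ S, ‖ft f ψ‖ ^ 2 ≤ ε ^ 2
  hη' : η * (Fintype.card G : ℝ) ≤ ε * (C.card : ℝ)

theorem split3 (S S' : Finset (AddChar G ℂ)) (u v w t : AddChar G ℂ → ℝ)
    (hv : ∀ ψ, 0 ≤ v ψ) (hw : ∀ ψ, 0 ≤ w ψ) (ht : ∀ ψ, 0 ≤ t ψ)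
    (h1 : ∀ ψ ∈ S, u ψ ≤ v ψ) (h2 : ∀ ψ ∈ S' \ S, u ψ ≤ w ψ) (h3 : ∀ ψ, ψ ∉ S' → u ψ ≤ t ψ) :
    ∑ ψ, u ψ ≤ ∑ ψ, v ψ + ∑ ψ ∈ S' \ S, w ψ + ∑ ψ, t ψ := by
  classical
  have : ∑ ψ ∈ S' \ S, w ψ = ∑ ψ, if ψ ∈ S' \ S then w ψ else 0 := by
    rw [← Finset.sum_filter]; congr 1; ext; simp
  rw [this, ← Finset.sum_add_distrib, ← Finset.sum_add_distrib]
  refine Finset.sum_le_sum fun ψ _ => ?_
  have := hv ψ; have := hw ψ; have := ht ψ
  by_cases a : ψ ∈ S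
  · have := h1 ψ a
    split_ifs <;> linarith
  · by_cases b : ψ ∈ S'
    · have c : ψ ∈ S' \ S := Finset.mem_sdiff.2 ⟨b, a⟩
      have := h2 ψ c
      rw [if_pos c]; linarith
    · have := h3 ψ b
      split_ifs <;> linarith

theorem shift_sq {f : G → ℝ} {S S' : Finset (AddChar G ℂ)} {ε η : ℝ} {C : Finset G}
    (H : Scale f S S' ε η C) (a0 d : G) (hd : ∀ ψ ∈ S, ‖ψ d - 1‖ ≤ 2 * ε) :
    (∑ x, (sm f C a0 (x + d) - sm f C a0 x) ^ 2) / (Fintype.card G : ℝ) ≤ 16 * ε ^ 2 := by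
  have hc : (0 : ℝ) < C.card := by exact_mod_cast H.hC.card_pos
  have hn : (0 : ℝ) < Fintype.card G := cardR_pos
  have hcn : (C.card : ℝ) ≤ Fintype.card G := by exact_mod_cast C.card_le_univ
  have hε := H.hε
  have hη := H.hη
  have hηε : η ≤ ε := by
    have := H.hη'
    nlinarith
  rw [← parseval (fun x => sm f C a0 (x + d) - sm f C a0 x)]
  have hft : ∀ ψ : AddChar G ℂ, ‖ft (fun x => sm f C a0 (x + d) - sm f C a0 x) ψ‖ =
      ‖ft f ψ‖ * ‖mul C a0 ψ‖ * ‖ψ d - 1‖ := by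
    intro ψ
    rw [ft_sub (fun x => sm f C a0 (x + d)) (sm f C a0), ft_shift, ft_sm, ← norm_neg_sub ψ d,
      ← norm_mul, ← norm_mul]
    congr 1; ring
  simp_rw [hft]
  have hP := parseval_le f H.h0 H.h1
  have hM := mul_parseval C H.hC a0
  have key := split3 S S' (fun ψ => (‖ft f ψ‖ * ‖mul C a0 ψ‖ * ‖ψ d - 1‖) ^ 2)
    (fun ψ => 4 * ε ^ 2 * ‖ft f ψ‖ ^ 2) (fun ψ => 4 * ‖ft f ψ‖ ^ 2)
    (fun ψ => 4 * η ^ 2 * ‖mul C a0 ψ‖ ^ 2) (fun _ => by positivity) (fun _ => by positivity)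
    (fun _ => by positivity) ?_ ?_ ?_
  · rw [← Finset.mul_sum, ← Finset.mul_sum, ← Finset.mul_sum, hM] at key
    have h3 : η ^ 2 * ((Fintype.card G : ℝ) / (C.card : ℝ)) ≤ ε ^ 2 := by
      have h4 : η * ((Fintype.card G : ℝ) / (C.card : ℝ)) ≤ ε := by
        rw [← mul_div_assoc, div_le_iff₀ hc]; exact H.hη'
      calc η ^ 2 * ((Fintype.card G : ℝ) / (C.card : ℝ))
          = η * (η * ((Fintype.card G : ℝ) / (C.card : ℝ))) := by ring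
        _ ≤ ε * ε := mul_le_mul hηε h4 (by positivity) hε.le
        _ = ε ^ 2 := by ring
    have := H.hSS'
    have h5 : 4 * ε ^ 2 * ∑ ψ, ‖ft f ψ‖ ^ 2 ≤ 4 * ε ^ 2 := by
      have : 0 ≤ 4 * ε ^ 2 := by positivity
      nlinarith
    nlinarith
  · intro ψ hψ
    have a1 := norm_mul_le C a0 ψ
    have a2 := hd ψ hψ
    have a3 : ‖ft f ψ‖ * ‖mul C a0 ψ‖ * ‖ψ d - 1‖ ≤ ‖ft f ψ‖ * 1 * (2 * ε) := by gcongr
    calc _ ≤ (‖ft f ψ‖ * 1 * (2 * ε)) ^ 2 := by gcongr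
      _ = _ := by ring
  · intro ψ _
    have a1 := norm_mul_le C a0 ψ
    have a2 := norm_char_sub_le ψ d
    have a3 : ‖ft f ψ‖ * ‖mul C a0 ψ‖ * ‖ψ d - 1‖ ≤ ‖ft f ψ‖ * 1 * 2 := by gcongr
    calc _ ≤ (‖ft f ψ‖ * 1 * 2) ^ 2 := by gcongr
      _ = _ := by ring
  · intro ψ hψ
    have a1 := H.hS' ψ hψ
    have a2 := norm_char_sub_le ψ d
    have a3 : ‖ft f ψ‖ * ‖mul C a0 ψ‖ * ‖ψ d - 1‖ ≤ η * ‖mul C a0 ψ‖ * 2 := by gcongr
    calc _ ≤ (η * ‖mul C a0 ψ‖ * 2) ^ 2 := by gcongr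
      _ = _ := by ring

theorem shift_abs {f : G → ℝ} {S S' : Finset (AddChar G ℂ)} {ε η : ℝ} {C : Finset G}
    (H : Scale f S S' ε η C) (a0 d : G) (hd : ∀ ψ ∈ S, ‖ψ d - 1‖ ≤ 2 * ε) :
    ∑ x, |sm f C a0 (x + d) - sm f C a0 x| ≤ 4 * ε * (Fintype.card G : ℝ) := by
  have h := shift_sq H a0 d hd
  have hn : (0 : ℝ) < Fintype.card G := cardR_pos
  have hε := H.hε
  rw [div_le_iff₀ hn] at h
  have h2 : ∀ u : ℝ, |u| ≤ u ^ 2 / (8 * ε) + 2 * ε := by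
    intro u
    rw [← sq_abs u]
    have : |u| ^ 2 / (8 * ε) + 2 * ε - |u| = (|u| - 4 * ε) ^ 2 / (8 * ε) := by
      field_simp; ring
    have h3 : 0 ≤ (|u| - 4 * ε) ^ 2 / (8 * ε) := by positivity
    linarith
  calc ∑ x, |sm f C a0 (x + d) - sm f C a0 x|
      ≤ ∑ x, ((sm f C a0 (x + d) - sm f C a0 x) ^ 2 / (8 * ε) + 2 * ε) :=
        Finset.sum_le_sum fun x _ => h2 _
    _ = (∑ x, (sm f C a0 (x + d) - sm f C a0 x) ^ 2) / (8 * ε) +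
          2 * ε * (Fintype.card G : ℝ) := by
        rw [Finset.sum_add_distrib, Finset.sum_div]; simp [mul_comm]
    _ ≤ (16 * ε ^ 2 * (Fintype.card G : ℝ)) / (8 * ε) + 2 * ε * (Fintype.card G : ℝ) := by
        gcongr
    _ = _ := by field_simp; ring

/-- the weight function of the third point -/
noncomputable def wt (f : G → ℝ) (T1 T2 : G →+ G) (C : Finset G) (y : G) : ℝ :=
  (∑ p ∈ C ×ˢ C, f (y - T1 (p.1 - p.2)) * f (y - T1 (p.1 - p.2) + T2 (p.1 - p.2))) /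
    ((C ×ˢ C).card : ℝ)

theorem ft_wt (f : G → ℝ) (T1 T2 : G →+ G) (C : Finset G) (ψ : AddChar G ℂ) :
    ft (wt f T1 T2 C) ψ = (∑ χ : AddChar G ℂ, ft f χ * ft f (ψ - χ) *
      ((‖∑ a ∈ C, χ (-(T2 a)) * ψ (T1 a)‖ ^ 2 : ℝ) : ℂ)) / (((C ×ˢ C).card : ℝ) : ℂ) := by
  have h := ft_sum_div (C ×ˢ C)
    (fun p y => f (y - T1 (p.1 - p.2)) * f (y - T1 (p.1 - p.2) + T2 (p.1 - p.2)))
    ((C ×ˢ C).card : ℝ) ψ
  unfold wt
  rw [h]
  congr 1
  have h1 : ∀ d : G, ft (fun y => f (y - T1 d) * f (y - T1 d + T2 d)) ψ =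
      ∑ χ : AddChar G ℂ, ft f χ * ft f (ψ - χ) * (χ (-(T2 d)) * ψ (T1 d)) := by
    intro d
    have e1 := ft_shift (fun x => f x * f (x + T2 d)) (-(T1 d)) ψ
    simp only [← sub_eq_add_neg, neg_neg] at e1
    rw [e1]
    have e2 : ft (fun x => f x * f (x + T2 d)) ψ =
        ∑ χ : AddChar G ℂ, ft f χ * ft f (ψ - χ) * χ (-(T2 d)) := by
      have e3 : ∀ x, ((f x * f (x + T2 d) : ℝ) : ℂ) * ψ x =
          ∑ χ : AddChar G ℂ, (ft f χ * χ (-(T2 d))) * ((f x : ℂ) * (ψ - χ) x) := by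
        intro x
        push_cast
        rw [inversion f (x + T2 d), Finset.mul_sum, Finset.sum_mul]
        refine Finset.sum_congr rfl fun χ _ => ?_
        rw [AddChar.sub_apply, neg_add, AddChar.map_add_eq_mul]
        ring
      conv_lhs => unfold ft
      simp_rw [e3]
      rw [Finset.sum_comm, Finset.sum_div]
      refine Finset.sum_congr rfl fun χ _ => ?_
      rw [← Finset.mul_sum]
      conv_rhs => rw [show ft f (ψ - χ) = (∑ x, (f x : ℂ) * (ψ - χ) x) / (Fintype.card G : ℂ)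
        from rfl]
      ring
    rw [e2, Finset.sum_mul]
    refine Finset.sum_congr rfl fun χ _ => by ring
  simp_rw [h1]
  rw [Finset.sum_comm]
  refine Finset.sum_congr rfl fun χ _ => ?_
  rw [← Finset.mul_sum]
  congr 1
  rw [← Complex.normSq_eq_norm_sq, ← Complex.mul_conj, map_sum, Finset.sum_mul_sum,
    Finset.sum_product]
  refine Finset.sum_congr rfl fun a _ => Finset.sum_congr rfl fun b _ => ?_
  simp only [map_mul, conj_char, map_sub, neg_sub, neg_neg]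
  rw [sub_eq_add_neg (T2 b), sub_eq_add_neg (T1 a), AddChar.map_add_eq_mul,
    AddChar.map_add_eq_mul]
  ring

theorem wt_l1 (f : G → ℝ) (h0 : ∀ x, 0 ≤ f x) (h1 : ∀ x, f x ≤ 1) (T1 T2 : G →+ G)
    (hT1 : Function.Injective T1) (hT12 : Function.Injective (T1 - T2)) (C : Finset G)
    (hC : C.Nonempty) :
    ∑ ψ : AddChar G ℂ, ‖ft (wt f T1 T2 C) ψ‖ ≤ (Fintype.card G : ℝ) / (C.card : ℝ) := by
  have hc : (0 : ℝ) < C.card := by exact_mod_cast hC.card_pos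
  have hn : (0 : ℝ) < Fintype.card G := cardR_pos
  have hP := parseval_le f h0 h1
  set r : AddChar G ℂ → AddChar G ℂ → ℝ := fun χ ψ => ‖∑ a ∈ C, χ (-(T2 a)) * ψ (T1 a)‖ ^ 2
    with hr
  have r0 : ∀ χ ψ, 0 ≤ r χ ψ := fun _ _ => by positivity
  have r1 : ∀ χ, ∑ ψ, r χ ψ = (Fintype.card G : ℝ) * C.card := by
    intro χ
    have := gen_parseval C T1 (hT1.injOn) (fun a => χ (-(T2 a)))
    simpa using this
  have r2 : ∀ θ, ∑ χ, r χ (θ + χ) = (Fintype.card G : ℝ) * C.card := by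
    intro θ
    have := gen_parseval C (T1 - T2) (hT12.injOn) (fun a => θ (T1 a))
    simp only [norm_char, one_pow, sum_const, nsmul_eq_mul, mul_one] at this
    rw [← this]
    refine Finset.sum_congr rfl fun χ _ => ?_
    simp only [hr]
    congr 2
    refine Finset.sum_congr rfl fun a _ => ?_
    rw [AddChar.add_apply, AddMonoidHom.sub_apply, sub_eq_add_neg, AddChar.map_add_eq_mul]
    ring
  have b1 : ∀ ψ, ‖ft (wt f T1 T2 C) ψ‖ ≤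
      (∑ χ, (‖ft f χ‖ ^ 2 * r χ ψ / 2 + ‖ft f (ψ - χ)‖ ^ 2 * r χ ψ / 2)) / ((C.card : ℝ) ^ 2) := by
    intro ψ
    rw [ft_wt, norm_div, Complex.norm_real, Finset.card_product, Real.norm_of_nonneg (by positivity)]
    push_cast
    rw [← sq]
    gcongr
    refine (norm_sum_le _ _).trans (Finset.sum_le_sum fun χ _ => ?_)
    rw [norm_mul, norm_mul]
    have e : ‖((‖∑ a ∈ C, χ (-(T2 a)) * ψ (T1 a)‖ : ℂ)) ^ 2‖ = r χ ψ := by
      simp [hr]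
    rw [e]
    have := r0 χ ψ
    nlinarith [mul_nonneg this (sq_nonneg (‖ft f χ‖ - ‖ft f (ψ - χ)‖))]
  refine (Finset.sum_le_sum fun ψ _ => b1 ψ).trans ?_
  rw [← Finset.sum_div, div_le_div_iff₀ (by positivity) hc]
  simp_rw [Finset.sum_add_distrib]
  have s1 : ∑ ψ, ∑ χ, ‖ft f χ‖ ^ 2 * r χ ψ / 2 =
      (∑ χ, ‖ft f χ‖ ^ 2) * ((Fintype.card G : ℝ) * C.card) / 2 := by
    rw [Finset.sum_comm, Finset.sum_mul, Finset.sum_div]
    refine Finset.sum_congr rfl fun χ _ => ?_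
    rw [← Finset.sum_div, ← Finset.mul_sum, r1]
  have s2 : ∑ ψ, ∑ χ, ‖ft f (ψ - χ)‖ ^ 2 * r χ ψ / 2 =
      (∑ χ, ‖ft f χ‖ ^ 2) * ((Fintype.card G : ℝ) * C.card) / 2 := by
    rw [Finset.sum_comm]
    have : ∀ χ : AddChar G ℂ, ∑ ψ, ‖ft f (ψ - χ)‖ ^ 2 * r χ ψ / 2 =
        ∑ θ, ‖ft f θ‖ ^ 2 * r χ (θ + χ) / 2 := by
      intro χ
      symm
      refine Fintype.sum_equiv (Equiv.addRight χ) _ _ fun θ => ?_
      simp
    simp_rw [this]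
    rw [Finset.sum_comm, Finset.sum_mul, Finset.sum_div]
    refine Finset.sum_congr rfl fun θ _ => ?_
    rw [← Finset.sum_div, ← Finset.mul_sum, r2]
  rw [s1, s2]
  have : (∑ χ, ‖ft f χ‖ ^ 2) * ((Fintype.card G : ℝ) * C.card) ≤
      1 * ((Fintype.card G : ℝ) * C.card) := by gcongr
  nlinarith

end Pool.Agent.H698Z.Four
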