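import Mathlib
import Pool.Agent.H698Z.Key

set_option autoImplicit false
set_option linter.unusedSectionVars false

namespace Pool.Agent.H698Z.Four

open Finset
open scoped ComplexConjugate

variable {G : Type} [AddCommGroup G] [Fintype G] [DecidableEq G]

theorem wt_nonneg (f : G → ℝ) (h0 : ∀ x, 0 ≤ f x) (T1 T2 : G →+ G) (C : Finset G) (y : G) :
    0 ≤ wt f T1 T2 C y :=
  div_nonneg (Finset.sum_nonneg fun _ _ => mul_nonneg (h0 _) (h0 _)) (Nat.cast_nonneg _)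

theorem wt_le_one (f : G → ℝ) (h0 : ∀ x, 0 ≤ f x) (h1 : ∀ x, f x ≤ 1) (T1 T2 : G →+ G)
    (C : Finset G) (y : G) : wt f T1 T2 C y ≤ 1 :=
  avg_le_one _ _ fun _ => mul_le_one₀ (h1 _) (h0 _) (h1 _)

theorem stepA {f : G → ℝ} {S S' : Finset (AddChar G ℂ)} {ε η : ℝ} {C : Finset G}
    (H : Scale f S S' ε η C) (a0 : G) (hm : ∀ ψ ∈ S, ∀ a ∈ C, ‖ψ (a - a0) - 1‖ ≤ ε)
    (T1 T2 : G →+ G) (hT1 : Function.Injective T1) (hT12 : Function.Injective (T1 - T2)) :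
    |(∑ y, (f y - sm f C a0 y) * wt f T1 T2 C y) / (Fintype.card G : ℝ)| ≤ 6 * ε := by
  have hc : (0 : ℝ) < C.card := by exact_mod_cast H.hC.card_pos
  have hn : (0 : ℝ) < Fintype.card G := cardR_pos
  have hε := H.hε
  have hη := H.hη
  have hpl := planch (fun y => f y - sm f C a0 y) (wt f T1 T2 C)
  rw [← Real.norm_eq_abs, ← Complex.norm_real, ← hpl]
  refine (norm_sum_le _ _).trans ?_
  have hft : ∀ ψ : AddChar G ℂ, ‖ft (fun y => f y - sm f C a0 y) ψ * conj (ft (wt f T1 T2 C) ψ)‖ =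
      ‖ft f ψ‖ * ‖mul C a0 ψ - 1‖ * ‖ft (wt f T1 T2 C) ψ‖ := by
    intro ψ
    rw [norm_mul, Complex.norm_conj, ft_sub f (sm f C a0), ft_sm, norm_sub_rev (mul C a0 ψ),
      ← norm_mul (ft f ψ)]
    congr 2; ring
  simp_rw [hft]
  have hP := parseval_le f H.h0 H.h1
  have hW := parseval_le (wt f T1 T2 C) (wt_nonneg f H.h0 T1 T2 C) (wt_le_one f H.h0 H.h1 T1 T2 C)
  have hL := wt_l1 f H.h0 H.h1 T1 T2 hT1 hT12 C H.hC
  have m2 : ∀ ψ, ‖mul C a0 ψ - 1‖ ≤ 2 := by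
    intro ψ
    calc ‖mul C a0 ψ - 1‖ ≤ ‖mul C a0 ψ‖ + ‖(1 : ℂ)‖ := norm_sub_le _ _
      _ ≤ 2 := by have := norm_mul_le C a0 ψ; rw [norm_one]; linarith
  have key := split3 S S'
    (fun ψ => ‖ft f ψ‖ * ‖mul C a0 ψ - 1‖ * ‖ft (wt f T1 T2 C) ψ‖ - ε * ‖ft (wt f T1 T2 C) ψ‖ ^ 2)
    (fun ψ => ε * ‖ft f ψ‖ ^ 2) (fun ψ => ‖ft f ψ‖ ^ 2 / ε)
    (fun ψ => 2 * η * ‖ft (wt f T1 T2 C) ψ‖) (fun _ => by positivity) (fun _ => by positivity)
    (fun _ => by positivity) ?_ ?_ ?_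
  · rw [Finset.sum_sub_distrib, ← Finset.mul_sum, ← Finset.mul_sum, ← Finset.mul_sum,
      ← Finset.sum_div] at key
    have h4 : η * ((Fintype.card G : ℝ) / (C.card : ℝ)) ≤ ε := by
      rw [← mul_div_assoc, div_le_iff₀ hc]; exact H.hη'
    have h5 : (∑ ψ ∈ S' \ S, ‖ft f ψ‖ ^ 2) / ε ≤ ε := by
      rw [div_le_iff₀ hε, ← sq]; exact H.hSS'
    have h6 : η * ∑ ψ, ‖ft (wt f T1 T2 C) ψ‖ ≤ ε :=
      (mul_le_mul_of_nonneg_left hL hη).trans h4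
    have h7 : ε * ∑ ψ, ‖ft f ψ‖ ^ 2 ≤ ε := by nlinarith
    have h8 : ε * ∑ ψ, ‖ft (wt f T1 T2 C) ψ‖ ^ 2 ≤ ε := by nlinarith
    nlinarith
  · intro ψ hψ
    have a1 := mul_close C H.hC a0 ψ ε (hm ψ hψ)
    have a2 : ‖ft f ψ‖ * ‖mul C a0 ψ - 1‖ * ‖ft (wt f T1 T2 C) ψ‖ ≤
        ‖ft f ψ‖ * ε * ‖ft (wt f T1 T2 C) ψ‖ := by gcongr
    have a3 : 0 ≤ ‖ft f ψ‖ * ‖ft (wt f T1 T2 C) ψ‖ := by positivity
    nlinarith [mul_nonneg hε.le (sq_nonneg (‖ft f ψ‖ - ‖ft (wt f T1 T2 C) ψ‖)),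
      mul_nonneg hε.le a3]
  · intro ψ _
    have a1 := m2 ψ
    have a2 : ‖ft f ψ‖ * ‖mul C a0 ψ - 1‖ * ‖ft (wt f T1 T2 C) ψ‖ ≤
        ‖ft f ψ‖ * 2 * ‖ft (wt f T1 T2 C) ψ‖ := by gcongr
    have a3 : ‖ft f ψ‖ ^ 2 / ε + ε * ‖ft (wt f T1 T2 C) ψ‖ ^ 2 -
        ‖ft f ψ‖ * 2 * ‖ft (wt f T1 T2 C) ψ‖ =
        (‖ft f ψ‖ - ε * ‖ft (wt f T1 T2 C) ψ‖) ^ 2 / ε := by
      field_simp; ring
    have a4 : 0 ≤ (‖ft f ψ‖ - ε * ‖ft (wt f T1 T2 C) ψ‖) ^ 2 / ε := by positivity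
    linarith
  · intro ψ hψ
    have a1 := m2 ψ
    have a0' := H.hS' ψ hψ
    have a2 : ‖ft f ψ‖ * ‖mul C a0 ψ - 1‖ * ‖ft (wt f T1 T2 C) ψ‖ ≤
        η * 2 * ‖ft (wt f T1 T2 C) ψ‖ := by gcongr
    have a4 : 0 ≤ ε * ‖ft (wt f T1 T2 C) ψ‖ ^ 2 := by positivity
    linarith

theorem sum_wt (f h : G → ℝ) (T1 T2 : G →+ G) (C : Finset G) :
    ∑ y, h y * wt f T1 T2 C y =
      (∑ p ∈ C ×ˢ C, ∑ x, f x * f (x + T2 (p.1 - p.2)) * h (x + T1 (p.1 - p.2))) /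
        ((C ×ˢ C).card : ℝ) := by
  unfold wt
  simp_rw [← mul_div_assoc, Finset.mul_sum]
  rw [← Finset.sum_div, Finset.sum_comm]
  congr 1
  refine Finset.sum_congr rfl fun p _ => ?_
  symm
  refine Fintype.sum_equiv (Equiv.addRight (T1 (p.1 - p.2))) _ _ fun x => ?_
  simp only [Equiv.coe_addRight, add_sub_cancel_right]
  ring

theorem sq_shift {f : G → ℝ} {S S' : Finset (AddChar G ℂ)} {ε η : ℝ} {C : Finset G}
    (H : Scale f S S' ε η C) (a0 d : G) (hd : ∀ ψ ∈ S, ‖ψ d - 1‖ ≤ 2 * ε) :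
    |∑ u, sm f C a0 u ^ 2 * f (u + d) - ∑ u, sm f C a0 u ^ 2 * f u| ≤
      8 * ε * (Fintype.card G : ℝ) := by
  have h := shift_abs H a0 (-d) (fun ψ hψ => by rw [norm_neg_sub]; exact hd ψ hψ)
  have e : ∑ u, sm f C a0 u ^ 2 * f (u + d) = ∑ u, sm f C a0 (u + -d) ^ 2 * f u := by
    refine Fintype.sum_equiv (Equiv.addRight d) _ _ fun x => ?_
    simp
  rw [e, ← Finset.sum_sub_distrib]
  refine (Finset.abs_sum_le_sum_abs _ _).trans ?_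
  have : ∑ u, |sm f C a0 (u + -d) ^ 2 * f u - sm f C a0 u ^ 2 * f u| ≤
      ∑ u, 2 * |sm f C a0 (u + -d) - sm f C a0 u| := by
    refine Finset.sum_le_sum fun u _ => ?_
    have e2 : sm f C a0 (u + -d) ^ 2 * f u - sm f C a0 u ^ 2 * f u =
        ((sm f C a0 (u + -d) + sm f C a0 u) * f u) * (sm f C a0 (u + -d) - sm f C a0 u) := by ring
    rw [e2, abs_mul]
    gcongr
    have b1 := sm_nonneg f H.h0 C a0 (u + -d)
    have b2 := sm_nonneg f H.h0 C a0 u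
    have b3 := sm_le_one f H.h1 C a0 (u + -d)
    have b4 := sm_le_one f H.h1 C a0 u
    have b5 := H.h0 u
    have b6 := H.h1 u
    rw [abs_of_nonneg (by positivity)]
    nlinarith
  rw [← Finset.mul_sum] at this
  linarith

theorem avg_sq_shift {f : G → ℝ} {S S' : Finset (AddChar G ℂ)} {ε η : ℝ} {C : Finset G}
    (H : Scale f S S' ε η C) (a0 : G) (d : G → G)
    (hd : ∀ a ∈ C, ∀ ψ ∈ S, ‖ψ (d a) - 1‖ ≤ 2 * ε) :
    |∑ u, sm f C a0 u ^ 2 * ((∑ a ∈ C, f (u + d a)) / (C.card : ℝ)) -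
      ∑ u, sm f C a0 u ^ 2 * f u| ≤ 8 * ε * (Fintype.card G : ℝ) := by
  have hc : (0 : ℝ) < C.card := by exact_mod_cast H.hC.card_pos
  have e : ∑ u, sm f C a0 u ^ 2 * ((∑ a ∈ C, f (u + d a)) / (C.card : ℝ)) -
      ∑ u, sm f C a0 u ^ 2 * f u =
      (∑ a ∈ C, (∑ u, sm f C a0 u ^ 2 * f (u + d a) - ∑ u, sm f C a0 u ^ 2 * f u)) /
        (C.card : ℝ) := by
    rw [Finset.sum_sub_distrib, sub_div]
    congr 1
    · simp_rw [← mul_div_assoc, Finset.mul_sum]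
      rw [← Finset.sum_div, Finset.sum_comm]
    · simp only [sum_const, nsmul_eq_mul]
      field_simp
  rw [e, abs_div, abs_of_pos hc, div_le_iff₀ hc]
  refine (Finset.abs_sum_le_sum_abs _ _).trans ?_
  calc _ ≤ ∑ _a ∈ C, 8 * ε * (Fintype.card G : ℝ) :=
        Finset.sum_le_sum fun a ha => sq_shift H a0 (d a) (hd a ha)
    _ = _ := by simp [mul_comm]

theorem sum_sm (f : G → ℝ) (C : Finset G) (hC : C.Nonempty) (a0 : G) :
    ∑ u, sm f C a0 u = ∑ u, f u := by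
  have hc : (0 : ℝ) < C.card := by exact_mod_cast hC.card_pos
  unfold sm
  rw [← Finset.sum_div, Finset.sum_comm]
  have : ∀ a : G, ∑ u, f (u + (a - a0)) = ∑ u, f u := fun a =>
    Fintype.sum_equiv (Equiv.addRight (a - a0)) _ _ fun x => rfl
  simp_rw [this]
  simp only [sum_const, nsmul_eq_mul]
  field_simp

theorem stepB {f : G → ℝ} {S S' : Finset (AddChar G ℂ)} {ε η : ℝ} {C : Finset G}
    (H : Scale f S S' ε η C) (a0 : G) (ha0 : a0 ∈ C) (T1 T2 : G →+ G)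
    (hCS : ∀ ψ ∈ S, ∀ a ∈ C, ∀ b ∈ C, ‖ψ (a - b) - 1‖ ≤ ε ∧ ‖ψ (T1 (a - b)) - 1‖ ≤ ε ∧
      ‖ψ (T2 (a - b)) - 1‖ ≤ ε) :
    ((∑ x, f x) / (Fintype.card G : ℝ)) ^ 3 - 36 * ε ≤
      (∑ y, sm f C a0 y * wt f T1 T2 C y) / (Fintype.card G : ℝ) := by
  have hc : (0 : ℝ) < C.card := by exact_mod_cast H.hC.card_pos
  have hn : (0 : ℝ) < Fintype.card G := cardR_pos
  have hε := H.hε
  set g : G → ℝ := fun u => (∑ a ∈ C, f (u + T2 (a - a0))) / (C.card : ℝ) with hg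
  have b1 : ∀ p ∈ C ×ˢ C, ∑ u, sm f C a0 u * (f (u + T2 (p.1 - a0)) * f (u + T2 (p.2 - a0))) -
      4 * ε * (Fintype.card G : ℝ) ≤
      ∑ x, f x * f (x + T2 (p.1 - p.2)) * sm f C a0 (x + T1 (p.1 - p.2)) := by
    intro p hp
    obtain ⟨hp1, hp2⟩ := Finset.mem_product.1 hp
    have e : ∑ x, f x * f (x + T2 (p.1 - p.2)) * sm f C a0 (x + T1 (p.1 - p.2)) =
        ∑ u, (f (u + T2 (p.1 - a0)) * f (u + T2 (p.2 - a0))) *
          sm f C a0 (u + (T2 (p.2 - a0) + T1 (p.1 - p.2))) := by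
      symm
      refine Fintype.sum_equiv (Equiv.addRight (T2 (p.2 - a0))) _ _ fun x => ?_
      simp only [Equiv.coe_addRight]
      have : x + T2 (p.2 - a0) + T2 (p.1 - p.2) = x + T2 (p.1 - a0) := by
        rw [add_assoc, ← map_add]; congr 2; abel
      rw [this, add_assoc]; ring
    rw [e]
    have h := shift_abs H a0 (T2 (p.2 - a0) + T1 (p.1 - p.2)) (fun ψ hψ => by
      have := norm_add_sub_le ψ (T2 (p.2 - a0)) (T1 (p.1 - p.2))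
      have := (hCS ψ hψ p.2 hp2 a0 ha0).2.2
      have := (hCS ψ hψ p.1 hp1 p.2 hp2).2.1
      linarith)
    have h2 : ∑ u, sm f C a0 u * (f (u + T2 (p.1 - a0)) * f (u + T2 (p.2 - a0))) -
        ∑ u, (f (u + T2 (p.1 - a0)) * f (u + T2 (p.2 - a0))) *
          sm f C a0 (u + (T2 (p.2 - a0) + T1 (p.1 - p.2))) ≤
        ∑ u, |sm f C a0 (u + (T2 (p.2 - a0) + T1 (p.1 - p.2))) - sm f C a0 u| := by
      rw [← Finset.sum_sub_distrib]
      refine Finset.sum_le_sum fun u _ => ?_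
      have c0 : 0 ≤ f (u + T2 (p.1 - a0)) * f (u + T2 (p.2 - a0)) := mul_nonneg (H.h0 _) (H.h0 _)
      have c1 : f (u + T2 (p.1 - a0)) * f (u + T2 (p.2 - a0)) ≤ 1 :=
        mul_le_one₀ (H.h1 _) (H.h0 _) (H.h1 _)
      have c2 := neg_abs_le (sm f C a0 (u + (T2 (p.2 - a0) + T1 (p.1 - p.2))) - sm f C a0 u)
      have c3 := abs_nonneg (sm f C a0 (u + (T2 (p.2 - a0) + T1 (p.1 - p.2))) - sm f C a0 u)
      nlinarith
    linarith
  have b2 : ∑ u, sm f C a0 u * g u ^ 2 - 4 * ε * (Fintype.card G : ℝ) ≤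
      ∑ y, sm f C a0 y * wt f T1 T2 C y := by
    rw [sum_wt, Finset.card_product, le_div_iff₀ (by push_cast; positivity)]
    refine le_trans (le_of_eq ?_) (Finset.sum_le_sum b1)
    rw [Finset.sum_sub_distrib, Finset.sum_comm, sub_mul]
    congr 1
    · rw [Finset.sum_mul]
      refine Finset.sum_congr rfl fun u _ => ?_
      rw [← Finset.mul_sum, Finset.sum_product]
      simp only [hg]
      rw [← Finset.sum_mul_sum]
      push_cast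
      field_simp
    · simp [Finset.card_product, mul_comm]
  have b3 := avg_sq_shift H a0 (fun a => T2 (a - a0)) (fun a ha ψ hψ => by
    have := (hCS ψ hψ a ha a0 ha0).2.2
    linarith)
  have b4 := avg_sq_shift H a0 (fun a => a - a0) (fun a ha ψ hψ => by
    have := (hCS ψ hψ a ha a0 ha0).1
    linarith)
  have b3' : |∑ u, sm f C a0 u ^ 2 * g u - ∑ u, sm f C a0 u ^ 2 * f u| ≤
      8 * ε * (Fintype.card G : ℝ) := b3
  have b4' : |∑ u, sm f C a0 u ^ 2 * sm f C a0 u - ∑ u, sm f C a0 u ^ 2 * f u| ≤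
      8 * ε * (Fintype.card G : ℝ) := b4
  have b5 : 2 * ∑ u, sm f C a0 u ^ 2 * g u - ∑ u, sm f C a0 u ^ 2 * sm f C a0 u ≤
      ∑ u, sm f C a0 u * g u ^ 2 := by
    rw [Finset.mul_sum, ← Finset.sum_sub_distrib]
    refine Finset.sum_le_sum fun u _ => ?_
    have := sm_nonneg f H.h0 C a0 u
    nlinarith [mul_nonneg this (sq_nonneg (g u - sm f C a0 u))]
  set α : ℝ := (∑ x, f x) / (Fintype.card G : ℝ) with hα
  have hα0 : 0 ≤ α := div_nonneg (Finset.sum_nonneg fun x _ => H.h0 x) hn.le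
  have hαn : ∑ u, sm f C a0 u = α * (Fintype.card G : ℝ) := by
    rw [sum_sm f C H.hC a0, hα]; field_simp
  have b6 : α ^ 3 * (Fintype.card G : ℝ) ≤ ∑ u, sm f C a0 u ^ 2 * sm f C a0 u := by
    have : ∑ u, (3 * α ^ 2 * sm f C a0 u - 2 * α ^ 3) ≤ ∑ u, sm f C a0 u ^ 2 * sm f C a0 u := by
      refine Finset.sum_le_sum fun u _ => ?_
      have := sm_nonneg f H.h0 C a0 u
      nlinarith [mul_nonneg (add_nonneg this (mul_nonneg (by norm_num : (0:ℝ) ≤ 2) hα0))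
        (sq_nonneg (sm f C a0 u - α))]
    rw [Finset.sum_sub_distrib, ← Finset.mul_sum, hαn] at this
    simp only [sum_const, card_univ, nsmul_eq_mul] at this
    nlinarith
  rw [le_div_iff₀ hn]
  have := abs_le.1 b3'
  have := abs_le.1 b4'
  nlinarith

theorem key {f : G → ℝ} {S S' : Finset (AddChar G ℂ)} {ε η : ℝ} {C : Finset G}
    (H : Scale f S S' ε η C) (T1 T2 : G →+ G)
    (hT1 : Function.Injective T1) (hT12 : Function.Injective (T1 - T2))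
    (hCS : ∀ ψ ∈ S, ∀ a ∈ C, ∀ b ∈ C, ‖ψ (a - b) - 1‖ ≤ ε ∧ ‖ψ (T1 (a - b)) - 1‖ ≤ ε ∧
      ‖ψ (T2 (a - b)) - 1‖ ≤ ε) :
    (((∑ x, f x) / (Fintype.card G : ℝ)) ^ 3 - 42 * ε) * (Fintype.card G : ℝ) *
      ((C ×ˢ C).card : ℝ) ≤
      ∑ p ∈ C ×ˢ C, ∑ x, f x * f (x + T2 (p.1 - p.2)) * f (x + T1 (p.1 - p.2)) := by
  obtain ⟨a0, ha0⟩ := H.hC
  have hc : (0 : ℝ) < C.card := by exact_mod_cast H.hC.card_pos
  have hn : (0 : ℝ) < Fintype.card G := cardR_pos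
  have hA := stepA H a0 (fun ψ hψ a ha => (hCS ψ hψ a ha a0 ha0).1) T1 T2 hT1 hT12
  have hB := stepB H a0 ha0 T1 T2 hCS
  have hcc : (0 : ℝ) < ((C ×ˢ C).card : ℝ) := by
    rw [Finset.card_product]; push_cast; positivity
  rw [← le_div_iff₀ hcc, ← sum_wt, ← le_div_iff₀ hn]
  have e : (∑ y, f y * wt f T1 T2 C y) / (Fintype.card G : ℝ) =
      (∑ y, (f y - sm f C a0 y) * wt f T1 T2 C y) / (Fintype.card G : ℝ) +
      (∑ y, sm f C a0 y * wt f T1 T2 C y) / (Fintype.card G : ℝ) := by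
    rw [← add_div, ← Finset.sum_add_distrib]
    congr 1
    refine Finset.sum_congr rfl fun y _ => by ring
  rw [e]
  have := abs_le.1 hA
  linarith

end Pool.Agent.H698Z.Four
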