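import Mathlib
import Pool.Agent.H698Z.Main

set_option autoImplicit false
set_option linter.unusedSectionVars false

namespace Pool.Agent.H698Z.Four

open Finset
open scoped ComplexConjugate

theorem exists_cells (ε : ℝ) (hε : 0 < ε) : ∃ Q : ℕ, 0 < Q ∧ ∃ q : ℂ → Fin Q,
    ∀ z w : ℂ, ‖z‖ = 1 → ‖w‖ = 1 → q z = q w → ‖z - w‖ ≤ ε := by
  classical
  have h := (isCompact_closedBall (0 : ℂ) 1).totallyBounded
  obtain ⟨t, ht, hcov⟩ := Metric.totallyBounded_iff.1 h (ε / 2) (by positivity)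
  have hex : ∀ z : ℂ, ‖z‖ = 1 → ∃ y ∈ ht.toFinset, dist z y < ε / 2 := by
    intro z hz
    have : z ∈ Metric.closedBall (0 : ℂ) 1 := by simp [hz]
    have := hcov this
    simp only [Set.mem_iUnion, Metric.mem_ball] at this
    obtain ⟨y, hy, hzy⟩ := this
    exact ⟨y, by simpa using hy, hzy⟩
  obtain ⟨y0, hy0, -⟩ := hex 1 (by simp)
  have hex' : ∀ z : ℂ, ∃ y : ht.toFinset, ‖z‖ = 1 → dist z y < ε / 2 := by
    intro z
    by_cases hz : ‖z‖ = 1
    · obtain ⟨y, hy, h⟩ := hex z hz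
      exact ⟨⟨y, hy⟩, fun _ => h⟩
    · exact ⟨⟨y0, hy0⟩, fun h => absurd h hz⟩
  choose q hq using hex'
  refine ⟨ht.toFinset.card, Finset.card_pos.2 ⟨y0, hy0⟩, fun z => ht.toFinset.equivFin (q z), ?_⟩
  intro z w hz hw h
  have h' : q z = q w := ht.toFinset.equivFin.injective h
  have a := hq z hz
  have b := hq w hw
  rw [h'] at a
  rw [← dist_eq_norm]
  have := dist_triangle_right z w (q w)
  linarith

theorem big_fiber {G K : Type} [Fintype G] [Fintype K] [DecidableEq K] [Nonempty G] (κ : G → K) :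
    ∃ C : Finset G, C.Nonempty ∧ (Fintype.card G : ℝ) ≤ (Fintype.card K : ℝ) * C.card ∧
      ∀ a ∈ C, ∀ b ∈ C, κ a = κ b := by
  classical
  have : Nonempty K := ⟨κ (Classical.arbitrary G)⟩
  obtain ⟨k, -, hk⟩ := Finset.exists_max_image (Finset.univ : Finset K)
    (fun k => (Finset.univ.filter fun a => κ a = k).card) Finset.univ_nonempty
  have h1 : Fintype.card G ≤ Fintype.card K * (Finset.univ.filter fun a => κ a = k).card := by
    have := Finset.card_eq_sum_card_fiberwise (s := (Finset.univ : Finset G))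
      (t := (Finset.univ : Finset K)) (f := κ) (fun _ _ => Finset.mem_univ _)
    rw [Finset.card_univ] at this
    rw [this]
    calc _ ≤ ∑ _j : K, (Finset.univ.filter fun a => κ a = k).card :=
          Finset.sum_le_sum fun j _ => hk j (Finset.mem_univ _)
      _ = _ := by simp
  refine ⟨Finset.univ.filter fun a => κ a = k, ?_, by exact_mod_cast h1, ?_⟩
  · rw [← Finset.card_pos]
    have : 0 < Fintype.card G := Fintype.card_pos
    by_contra h
    have h0 : (Finset.univ.filter fun a => κ a = k).card = 0 := by omega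
    rw [h0] at h1; omega
  · intro a ha b hb
    rw [(Finset.mem_filter.1 ha).2, (Finset.mem_filter.1 hb).2]

theorem pigeon_step (E : ℕ → ℝ) (m : ℕ) (δ : ℝ) (h0 : 0 ≤ E 0) (h1 : E m ≤ 1)
    (hm : 1 < m * δ) : ∃ i < m, E (i + 1) - E i ≤ δ := by
  by_contra h
  push Not at h
  have : ∀ j ≤ m, j * δ ≤ E j - E 0 := by
    intro j
    induction j with
    | zero => intro _; simp
    | succ j ih =>
      intro hj
      have := ih (by omega)
      have := h j (by omega)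
      push_cast; linarith
  have := this m le_rfl
  linarith

theorem char_sub_close {G : Type} [AddCommGroup G] [Fintype G] [DecidableEq G]
    (ψ : AddChar G ℂ) (a b : G) : ‖ψ (a - b) - 1‖ = ‖ψ a - ψ b‖ := by
  have : ψ a - ψ b = (ψ (a - b) - 1) * ψ b := by
    rw [sub_mul, ← AddChar.map_add_eq_mul]; simp
  rw [this, norm_mul, norm_char, mul_one]

theorem reg (ε : ℝ) (hε : 0 < ε) (K : ℕ) (hK : 0 < K) : ∃ c : ℝ, 0 < c ∧
    ∀ (G : Type) [AddCommGroup G] [Fintype G] [DecidableEq G] (f : G → ℝ),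
      (∀ x, 0 ≤ f x) → (∀ x, f x ≤ 1) → ∀ (T1 T2 : G →+ G), Function.Injective T1 →
      Function.Injective (T1 - T2) → ∀ (J : Type) [Fintype J] (κ : G → J),
      Fintype.card J = K → ∃ C : Finset G, C.Nonempty ∧ c * (Fintype.card G : ℝ) ≤ C.card ∧
        (∀ a ∈ C, ∀ b ∈ C, κ a = κ b) ∧
        (((∑ x, f x) / (Fintype.card G : ℝ)) ^ 3 - 42 * ε) * (Fintype.card G : ℝ) *
          ((C ×ˢ C).card : ℝ) ≤
          ∑ p ∈ C ×ˢ C, ∑ x, f x * f (x + T2 (p.1 - p.2)) * f (x + T1 (p.1 - p.2)) := by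
  classical
  obtain ⟨Q, hQ, q, hq⟩ := exists_cells ε hε
  let cc : ℝ → ℝ := fun η => 1 / (((Q : ℝ) ^ 3) ^ ⌈1 / η ^ 2⌉₊ * K)
  have hcc : ∀ η, 0 < cc η := fun η => by
    have : (0 : ℝ) < Q := by exact_mod_cast hQ
    have : (0 : ℝ) < K := by exact_mod_cast hK
    positivity
  let η : ℕ → ℝ := fun i => Nat.rec 1 (fun _ e => min e (ε * cc e)) i
  have ηs : ∀ i, η (i + 1) = min (η i) (ε * cc (η i)) := fun _ => rfl
  have ηpos : ∀ i, 0 < η i := by
    intro i
    induction i with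
    | zero => exact one_pos
    | succ i ih => rw [ηs]; exact lt_min ih (mul_pos hε (hcc _))
  have ηanti : Antitone η := antitone_nat_of_succ_le fun i => by rw [ηs]; exact min_le_left _ _
  obtain ⟨m, hm⟩ := exists_nat_gt (1 / ε ^ 2)
  have hm' : 1 < m * ε ^ 2 := by rwa [div_lt_iff₀ (by positivity)] at hm
  refine ⟨η m / ε, div_pos (ηpos m) hε, ?_⟩
  intro G _ _ _ f h0 h1 T1 T2 hT1 hT12 J _ κ hJ
  have hn : (0 : ℝ) < Fintype.card G := cardR_pos
  have hP := parseval_le f h0 h1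
  let S : ℕ → Finset (AddChar G ℂ) := fun i =>
    @Finset.filter _ (fun ψ : AddChar G ℂ => η i ≤ ‖ft f ψ‖) (Classical.decPred _) Finset.univ
  have hSsub : ∀ i, S i ⊆ S (i + 1) := by
    intro i ψ hψ
    simp only [S, Finset.mem_filter, Finset.mem_univ, true_and] at hψ ⊢
    exact (ηanti (Nat.le_succ i)).trans hψ
  have hE : ∀ i, ∑ ψ ∈ S i, ‖ft f ψ‖ ^ 2 ≤ 1 := fun i =>
    (Finset.sum_le_sum_of_subset_of_nonneg (Finset.subset_univ _) fun _ _ _ => by positivity).trans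
      hP
  obtain ⟨i, him, hi⟩ := pigeon_step (fun i => ∑ ψ ∈ S i, ‖ft f ψ‖ ^ 2) m (ε ^ 2)
    (Finset.sum_nonneg fun _ _ => by positivity) (hE m) hm'
  have hi' : ∑ ψ ∈ S (i + 1) \ S i, ‖ft f ψ‖ ^ 2 ≤ ε ^ 2 := by
    rw [Finset.sum_sdiff_eq_sub (hSsub i)]; exact hi
  have hcard : (S i).card ≤ ⌈1 / η i ^ 2⌉₊ := by
    have h2 : ((S i).card : ℝ) * η i ^ 2 ≤ 1 := by
      calc ((S i).card : ℝ) * η i ^ 2 = ∑ _ψ ∈ S i, η i ^ 2 := by simp
        _ ≤ ∑ ψ ∈ S i, ‖ft f ψ‖ ^ 2 := Finset.sum_le_sum fun ψ hψ => by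
            have h3 := (Finset.mem_filter.1 hψ).2
            have h4 := ηpos i
            gcongr
        _ ≤ 1 := hE i
    have h3 : ((S i).card : ℝ) ≤ 1 / η i ^ 2 := by
      rw [le_div_iff₀ (by have := ηpos i; positivity)]; exact h2
    have h4 := Nat.le_ceil (1 / η i ^ 2)
    exact_mod_cast h3.trans h4
  obtain ⟨C, hC, hCc, hCκ⟩ := big_fiber (G := G)
    (K := (S i → Fin Q × Fin Q × Fin Q) × J)
    (fun a => (fun ψ => (q (ψ.1 a), q (ψ.1 (T1 a)), q (ψ.1 (T2 a))), κ a))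
  have hCc' : cc (η i) * (Fintype.card G : ℝ) ≤ C.card := by
    have e : (Fintype.card ((S i → Fin Q × Fin Q × Fin Q) × J) : ℝ) =
        ((Q : ℝ) ^ 3) ^ (S i).card * K := by
      simp only [Fintype.card_prod, Fintype.card_pi, Fintype.card_fin, hJ, Finset.prod_const,
        Finset.card_univ, Fintype.card_coe]
      push_cast; ring
    rw [e] at hCc
    have hQ1 : (1 : ℝ) ≤ (Q : ℝ) ^ 3 := one_le_pow₀ (by exact_mod_cast hQ)
    have h5 : ((Q : ℝ) ^ 3) ^ (S i).card ≤ ((Q : ℝ) ^ 3) ^ ⌈1 / η i ^ 2⌉₊ :=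
      pow_le_pow_right₀ hQ1 hcard
    have hKp : (0 : ℝ) < K := by exact_mod_cast hK
    simp only [cc]
    rw [one_div_mul_eq_div, div_le_iff₀ (by positivity)]
    calc _ ≤ ((Q : ℝ) ^ 3) ^ (S i).card * K * C.card := hCc
      _ ≤ ((Q : ℝ) ^ 3) ^ ⌈1 / η i ^ 2⌉₊ * K * C.card := by gcongr
      _ = _ := by ring
  have hη1 : η (i + 1) ≤ ε * cc (η i) := by rw [ηs]; exact min_le_right _ _
  have H : Scale f (S i) (S (i + 1)) ε (η (i + 1)) C :=
    { h0 := h0, h1 := h1, hε := hε, hη := (ηpos (i + 1)).le, hC := hC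
      hS' := fun ψ hψ => by
        simp only [S, Finset.mem_filter, Finset.mem_univ, true_and, not_le] at hψ
        exact hψ.le
      hSS' := hi'
      hη' := by
        calc η (i + 1) * (Fintype.card G : ℝ) ≤ ε * cc (η i) * (Fintype.card G : ℝ) := by gcongr
          _ = ε * (cc (η i) * (Fintype.card G : ℝ)) := by ring
          _ ≤ _ := by gcongr }
  refine ⟨C, hC, ?_, fun a ha b hb => (Prod.ext_iff.1 (hCκ a ha b hb)).2, ?_⟩
  · refine le_trans ?_ hCc'
    gcongr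
    rw [div_le_iff₀ hε]
    have := ηanti (show i + 1 ≤ m by omega)
    linarith
  · refine key H T1 T2 hT1 hT12 fun ψ hψ a ha b hb => ?_
    have h6 := congrFun (Prod.ext_iff.1 (hCκ a ha b hb)).1 ⟨ψ, hψ⟩
    simp only [Prod.mk.injEq] at h6
    rw [map_sub T1, map_sub T2, char_sub_close, char_sub_close, char_sub_close]
    exact ⟨hq _ _ (norm_char _ _) (norm_char _ _) h6.1,
      hq _ _ (norm_char _ _) (norm_char _ _) h6.2.1,
      hq _ _ (norm_char _ _) (norm_char _ _) h6.2.2⟩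

end Pool.Agent.H698Z.Four
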