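import Mathlib
import Pool.Agent.H698Z.Reg
import Pool.Agent.H698Z.PopDefs

set_option autoImplicit false
set_option linter.unusedSectionVars false

namespace Pool.Agent.H698Z.Pop

open Matrix Finset Pool.Agent.H698Z.Four

/-- reduction mod `m` -/
def red (m : ℕ) (x : Fin 2 → ℤ) : Fin 2 → ZMod m := fun i => (x i : ZMod m)

/-- canonical lift -/
def lf (m : ℕ) (a : Fin 2 → ZMod m) : Fin 2 → ℤ := fun i => ((a i).val : ℤ)

/-- the matrix acting mod `m` -/
def act (m : ℕ) (M : Matrix (Fin 2) (Fin 2) ℤ) : (Fin 2 → ZMod m) →+ (Fin 2 → ZMod m) :=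
  (Matrix.mulVecLin (M.map (Int.castRingHom (ZMod m)))).toAddMonoidHom

theorem act_apply (m : ℕ) (M : Matrix (Fin 2) (Fin 2) ℤ) (v : Fin 2 → ZMod m) :
    act m M v = (M.map (Int.castRingHom (ZMod m))) *ᵥ v := rfl

theorem red_lf (m : ℕ) [NeZero m] (a : Fin 2 → ZMod m) : red m (lf m a) = a := by
  funext i; simp [red, lf]

theorem red_add (m : ℕ) (x y : Fin 2 → ℤ) : red m (x + y) = red m x + red m y := by
  funext i; simp [red]

theorem red_sub (m : ℕ) (x y : Fin 2 → ℤ) : red m (x - y) = red m x - red m y := by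
  funext i; simp [red]

theorem act_red (m : ℕ) (M : Matrix (Fin 2) (Fin 2) ℤ) (n : Fin 2 → ℤ) :
    act m M (red m n) = red m (M *ᵥ n) := by
  funext i
  simp [act_apply, red, Matrix.mulVec, dotProduct]

theorem act_sub (m : ℕ) (M M' : Matrix (Fin 2) (Fin 2) ℤ) :
    act m M - act m M' = act m (M - M') := by
  refine AddMonoidHom.ext fun v => ?_
  funext i
  simp only [AddMonoidHom.sub_apply, act_apply, Pi.sub_apply, Matrix.mulVec, dotProduct,
    Fin.sum_univ_two, Matrix.map_apply, Matrix.sub_apply, map_sub]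
  ring

theorem act_inj (m : ℕ) (M : Matrix (Fin 2) (Fin 2) ℤ) (h : IsUnit ((M.det : ℤ) : ZMod m)) :
    Function.Injective (act m M) := by
  have h1 : IsUnit (M.map (Int.castRingHom (ZMod m))) := by
    rw [Matrix.isUnit_iff_isUnit_det]
    have := (Int.castRingHom (ZMod m)).map_det M
    rw [RingHom.mapMatrix_apply] at this
    rw [← this]; simpa using h
  exact Matrix.mulVec_injective_of_isUnit h1

theorem red_inj (m : ℕ) (x y : Fin 2 → ℤ) (hx : ∀ i, 1 ≤ x i ∧ x i ≤ m)
    (hy : ∀ i, 1 ≤ y i ∧ y i ≤ m) (h : red m x = red m y) : x = y := by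
  funext i
  have h1 : ((x i : ℤ) : ZMod m) = ((y i : ℤ) : ZMod m) := congrFun h i
  rw [ZMod.intCast_eq_intCast_iff_dvd_sub] at h1
  have := Int.eq_zero_of_abs_lt_dvd h1 (by
    have := hx i; have := hy i
    rw [abs_lt]; constructor <;> omega)
  omega

theorem mem_grid {N : ℕ} {x : Fin 2 → ℤ} : x ∈ grid N ↔ ∀ i, 1 ≤ x i ∧ x i ≤ N := by
  simp [grid, Fintype.mem_piFinset]

/-- boundary strip -/
noncomputable def strip (N m W : ℕ) : Finset (Fin 2 → ℤ) :=
  Fintype.piFinset ![Finset.Icc (1 : ℤ) W ∪ Finset.Ioc ((m : ℤ) - W) m, Finset.Icc (1 : ℤ) N] ∪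
  Fintype.piFinset ![Finset.Icc (1 : ℤ) N, Finset.Icc (1 : ℤ) W ∪ Finset.Ioc ((m : ℤ) - W) m]

theorem card_strip (N m W : ℕ) : (strip N m W).card ≤ 4 * W * N := by
  have hZ : (Finset.Icc (1 : ℤ) W ∪ Finset.Ioc ((m : ℤ) - W) m).card ≤ 2 * W := by
    refine (Finset.card_union_le _ _).trans ?_
    simp; omega
  refine (Finset.card_union_le _ _).trans ?_
  rw [Fintype.card_piFinset, Fintype.card_piFinset, Fin.prod_univ_two, Fin.prod_univ_two]
  simp only [Matrix.cons_val_zero, Matrix.cons_val_one, Int.card_Icc, add_sub_cancel_right,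
    Int.toNat_natCast]
  nlinarith

theorem not_strip {N m W : ℕ} (hNm : N ≤ m) {x : Fin 2 → ℤ} (hx : x ∈ grid N)
    (h : x ∉ strip N m W) : ∀ i, (W : ℤ) < x i ∧ x i ≤ (m : ℤ) - W := by
  rw [mem_grid] at hx
  have h0 := hx 0
  have h1 := hx 1
  simp only [strip, Finset.mem_union, Fintype.mem_piFinset, Fin.forall_fin_two,
    Matrix.cons_val_zero, Matrix.cons_val_one, Finset.mem_Icc, Finset.mem_Ioc] at h
  rw [Fin.forall_fin_two]
  omega

theorem count_le (M₁ M₂ : Matrix (Fin 2) (Fin 2) ℤ) (N m W : ℕ) [NeZero m] (hNm : N ≤ m)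
    (A : Finset (Fin 2 → ℤ)) (hA : A ⊆ grid N) (n : Fin 2 → ℤ)
    (h1 : ∀ i, |(M₁ *ᵥ n) i| ≤ W) (h2 : ∀ i, |(M₂ *ᵥ n) i| ≤ W) (f : (Fin 2 → ZMod m) → ℝ)
    (hf : ∀ x, f x = if x ∈ A.image (red m) then 1 else 0) :
    ∑ x, f x * f (x + act m M₂ (red m n)) * f (x + act m M₁ (red m n)) ≤
      (patCount M₁ M₂ A n : ℝ) + 4 * W * N := by
  classical
  have hgood : ∀ (M : Matrix (Fin 2) (Fin 2) ℤ), (∀ i, |(M *ᵥ n) i| ≤ W) → ∀ x ∈ A,
      x ∉ strip N m W → red m x + act m M (red m n) ∈ A.image (red m) → x + M *ᵥ n ∈ A := by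
    intro M hM x hx hs hm
    obtain ⟨y, hy, hxy⟩ := Finset.mem_image.1 hm
    rw [act_red, ← red_add] at hxy
    have hy' := mem_grid.1 (hA hy)
    have hx' := not_strip hNm (hA hx) hs
    have := red_inj m y (x + M *ᵥ n) (fun i => by have := hy' i; omega) (fun i => by
      have a := hx' i
      have b := abs_le.1 (hM i)
      simp only [Pi.add_apply]
      omega) hxy
    rw [← this]; exact hy
  let B : Finset (Fin 2 → ℤ) :=
    (A.filter fun x => x + M₁ *ᵥ n ∈ A ∧ x + M₂ *ᵥ n ∈ A) ∪ strip N m W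
  have hB : (B.card : ℝ) ≤ (patCount M₁ M₂ A n : ℝ) + 4 * W * N := by
    have := (Finset.card_union_le (A.filter fun x => x + M₁ *ᵥ n ∈ A ∧ x + M₂ *ᵥ n ∈ A)
      (strip N m W)).trans (Nat.add_le_add_left (card_strip N m W) _)
    exact_mod_cast this
  refine le_trans ?_ hB
  have hle : ∀ x, f x * f (x + act m M₂ (red m n)) * f (x + act m M₁ (red m n)) ≤
      if x ∈ B.image (red m) then 1 else 0 := by
    intro x
    rw [hf, hf, hf]
    by_cases a : x ∈ A.image (red m)
    · by_cases b : x + act m M₂ (red m n) ∈ A.image (red m)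
      · by_cases c : x + act m M₁ (red m n) ∈ A.image (red m)
        · obtain ⟨y, hy, rfl⟩ := Finset.mem_image.1 a
          have : red m y ∈ B.image (red m) := by
            refine Finset.mem_image_of_mem _ ?_
            by_cases hs : y ∈ strip N m W
            · exact Finset.mem_union_right _ hs
            · exact Finset.mem_union_left _ (Finset.mem_filter.2
                ⟨hy, hgood M₁ h1 y hy hs c, hgood M₂ h2 y hy hs b⟩)
          rw [if_pos a, if_pos b, if_pos c, if_pos this]; norm_num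
        · rw [if_neg c, mul_zero]; split_ifs <;> norm_num
      · rw [if_neg b, mul_zero, zero_mul]; split_ifs <;> norm_num
    · rw [if_neg a, zero_mul, zero_mul]; split_ifs <;> norm_num
  refine (Finset.sum_le_sum fun x _ => hle x).trans ?_
  rw [Finset.sum_ite_mem, Finset.univ_inter]
  simp only [sum_const, nsmul_eq_mul, mul_one]
  exact_mod_cast Finset.card_image_le

theorem nonadm_card (M₂ : Matrix (Fin 2) (Fin 2) ℤ) (hM : M₂ ≠ 0) (m : ℕ) [NeZero m]
    (C : Finset (Fin 2 → ZMod m)) :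
    ((C ×ˢ C).filter fun p => M₂ *ᵥ (lf m p.1 - lf m p.2) = 0).card ≤ m * C.card := by
  classical
  obtain ⟨i0, j0, h⟩ : ∃ i j, M₂ i j ≠ 0 := by
    by_contra h
    push Not at h
    exact hM (Matrix.ext h)
  have hc : ((Finset.univ : Finset (ZMod m)) ×ˢ C).card = m * C.card := by
    simp [ZMod.card]
  rw [← hc]
  refine Finset.card_le_card_of_injOn (fun p => (p.1 j0.rev, p.2)) ?_ ?_
  · intro p hp
    have := (Finset.mem_product.1 (Finset.mem_filter.1 hp).1).2
    simp [this]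
  · intro p hp p' hp' e
    have e1 : p.1 j0.rev = p'.1 j0.rev := (Prod.ext_iff.1 e).1
    have e2 : p.2 = p'.2 := (Prod.ext_iff.1 e).2
    have a := congrFun (Finset.mem_filter.1 hp).2 i0
    have b := congrFun (Finset.mem_filter.1 hp').2 i0
    have hs : ∀ v : Fin 2 → ℤ, (M₂ *ᵥ v) i0 = M₂ i0 j0 * v j0 + M₂ i0 j0.rev * v j0.rev := by
      intro v
      fin_cases j0 <;> simp [Matrix.mulVec, dotProduct, Fin.rev, add_comm]
    rw [hs] at a b
    simp only [Pi.sub_apply, Pi.zero_apply, lf] at a b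
    rw [e1, e2] at a
    have c : M₂ i0 j0 * (((p.1 j0).val : ℤ) - ((p'.1 j0).val : ℤ)) = 0 := by linarith
    have d : ((p.1 j0).val : ℤ) = ((p'.1 j0).val : ℤ) := by
      have := (mul_eq_zero.1 c).resolve_left h
      linarith
    have d' : p.1 j0 = p'.1 j0 := ZMod.val_injective m (by exact_mod_cast d)
    refine Prod.ext ?_ e2
    funext j
    have : j = j0 ∨ j = j0.rev := by
      fin_cases j <;> fin_cases j0 <;> simp [Fin.rev]
    rcases this with rfl | rfl
    · exact d'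
    · exact e1

end Pool.Agent.H698Z.Pop
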