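import Mathlib
import Pool.Agent.H698Z.Grid

set_option autoImplicit false
set_option linter.unusedSectionVars false

namespace Pool.Agent.H698Z.Pop

open Matrix Finset Pool.Agent.H698Z.Four

theorem mulVec_bound (M : Matrix (Fin 2) (Fin 2) ℤ) (H L : ℕ)
    (hH : ∀ i j, |M i j| ≤ H) (n : Fin 2 → ℤ) (hn : ∀ j, |n j| ≤ L) (i : Fin 2) :
    |(M *ᵥ n) i| ≤ ((2 * H * L : ℕ) : ℤ) := by
  have e : (M *ᵥ n) i = M i 0 * n 0 + M i 1 * n 1 := by
    simp [Matrix.mulVec, dotProduct]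
  rw [e]
  refine (abs_add_le _ _).trans ?_
  rw [abs_mul, abs_mul]
  have a := mul_le_mul (hH i 0) (hn 0) (abs_nonneg _) (by positivity)
  have b := mul_le_mul (hH i 1) (hn 1) (abs_nonneg _) (by positivity)
  push_cast
  linarith

theorem exists_bound (M₁ M₂ : Matrix (Fin 2) (Fin 2) ℤ) :
    ∃ H : ℕ, (∀ i j, |M₁ i j| ≤ H) ∧ (∀ i j, |M₂ i j| ≤ H) := by
  refine ⟨∑ i, ∑ j, ((M₁ i j).natAbs + (M₂ i j).natAbs), ?_, ?_⟩ <;>
  · intro i j
    simp only [Fin.sum_univ_two]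
    push_cast
    have := abs_nonneg (M₁ 0 0); have := abs_nonneg (M₁ 0 1)
    have := abs_nonneg (M₁ 1 0); have := abs_nonneg (M₁ 1 1)
    have := abs_nonneg (M₂ 0 0); have := abs_nonneg (M₂ 0 1)
    have := abs_nonneg (M₂ 1 0); have := abs_nonneg (M₂ 1 1)
    fin_cases i <;> fin_cases j <;> simp <;> linarith

theorem same_cell (m K x y : ℕ) (hm : 0 < m) (hK : 0 < K) (h : x * K / m = y * K / m) :
    |(x : ℤ) - y| ≤ ((m / K : ℕ) : ℤ) := by
  have aux : ∀ u v : ℕ, u * K / m = v * K / m → u ≤ v + m / K := by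
    intro u v huv
    have h1 := Nat.lt_mul_div_succ (u * K) hm
    have h2 := Nat.mul_div_le (v * K) m
    rw [huv] at h1
    have h3 : u * K < v * K + m := by nlinarith
    by_contra hc
    have h4 : v + m / K + 1 ≤ u := by omega
    have h5 := Nat.lt_mul_div_succ m hK
    nlinarith
  have a := aux x y h
  have b := aux y x h.symm
  rw [abs_le]; constructor <;> omega

theorem pow6 (θ : ℝ) (h0 : 0 ≤ θ) : 1 - 6 * (1 - θ) ≤ θ ^ 6 := by
  have := one_add_mul_le_pow (a := θ - 1) (by linarith) 6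
  simp only [add_sub_cancel] at this
  push_cast at this
  linarith

theorem main_small (M₁ M₂ : Matrix (Fin 2) (Fin 2) ℤ) (h1 : M₁.det ≠ 0) (h12 : (M₁ - M₂).det ≠ 0)
    (h2 : M₂ ≠ 0) (α : ℝ) (hα : 0 < α) (ε : ℝ) (hε : 0 < ε) (hεα : ε ≤ α ^ 3) :
    ∃ N₀ : ℕ, ∀ N : ℕ, N₀ ≤ N →
    ∀ A : Finset (Fin 2 → ℤ), A ⊆ grid N → α * (N : ℝ) ^ 2 ≤ (A.card : ℝ) →
      ∃ n : Fin 2 → ℤ, M₁ *ᵥ n ≠ 0 ∧ M₂ *ᵥ n ≠ 0 ∧
        (α ^ 3 - ε) * (N : ℝ) ^ 2 < (patCount M₁ M₂ A n : ℝ) := by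
  classical
  obtain ⟨H, hH1, hH2⟩ := exists_bound M₁ M₂
  obtain ⟨K, hK⟩ := exists_nat_gt (32 * H / ε)
  have hKpos : (0 : ℝ) < K := lt_of_le_of_lt (by positivity) hK
  have hK0 : 0 < K := by exact_mod_cast hKpos
  obtain ⟨c, hc, hreg⟩ := reg (ε / 168) (by positivity) (K ^ 2) (by positivity)
  set D : ℕ := (M₁.det * (M₁ - M₂).det).natAbs with hD
  have hD0 : 0 < D := Int.natAbs_pos.2 (mul_ne_zero h1 h12)
  obtain ⟨N₀, hN₀⟩ := exists_nat_gt ((1 / c + 6 * α ^ 3 * (D + 1)) * 4 / ε)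
  refine ⟨N₀, fun N hN A hA hAc => ?_⟩
  have hNN : (N₀ : ℝ) ≤ N := by exact_mod_cast hN
  have hNpos : (0 : ℝ) < N := lt_of_lt_of_le (lt_of_le_of_lt (by positivity) hN₀) hNN
  obtain ⟨m, hm⟩ : ∃ m : ℕ, m = D * (N / D + 1) + 1 := ⟨_, rfl⟩
  have hNm : N ≤ m := by
    have := Nat.lt_mul_div_succ N hD0
    omega
  have hmN : m ≤ N + D + 1 := by
    have := Nat.mul_div_le N D
    rw [hm, mul_add]; omega
  have hm0 : 0 < m := by omega
  have : NeZero m := ⟨hm0.ne'⟩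
  have hunit : IsUnit (((M₁.det * (M₁ - M₂).det : ℤ)) : ZMod m) := by
    have hDu : IsUnit ((D : ℕ) : ZMod m) := by
      have e : ((m : ℕ) : ZMod m) = 0 := ZMod.natCast_self m
      have e2 : ((D * (N / D + 1) + 1 : ℕ) : ZMod m) = 0 := by rw [← hm]; exact e
      refine IsUnit.of_mul_eq_one (-(((N / D + 1 : ℕ)) : ZMod m)) ?_
      rw [Nat.cast_add, Nat.cast_mul] at e2
      linear_combination (-1 : ZMod m) * e2
    rcases Int.natAbs_eq (M₁.det * (M₁ - M₂).det) with h | h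
    · rw [h, ← hD]; simpa using hDu
    · rw [h, ← hD]; simpa using hDu.neg
  rw [Int.cast_mul] at hunit
  have hT1 := act_inj m M₁ (isUnit_of_mul_isUnit_left hunit)
  have hT12 : Function.Injective (act m M₁ - act m M₂) := by
    rw [act_sub]; exact act_inj m _ (isUnit_of_mul_isUnit_right hunit)
  let f : (Fin 2 → ZMod m) → ℝ := fun x => if x ∈ A.image (red m) then 1 else 0
  let κ : (Fin 2 → ZMod m) → (Fin 2 → Fin K) := fun a i =>
    ⟨(a i).val * K / m, by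
      rw [Nat.div_lt_iff_lt_mul hm0, mul_comm K m]
      exact Nat.mul_lt_mul_of_pos_right (ZMod.val_lt _) hK0⟩
  obtain ⟨C, hC, hCc, hCκ, hmain⟩ := hreg (Fin 2 → ZMod m) f
    (fun x => by simp only [f]; split_ifs <;> norm_num)
    (fun x => by simp only [f]; split_ifs <;> norm_num) (act m M₁) (act m M₂) hT1 hT12
    (Fin 2 → Fin K) κ (by simp)
  have hcardG : (Fintype.card (Fin 2 → ZMod m) : ℝ) = (m : ℝ) ^ 2 := by
    simp [ZMod.card]
  have hsumf : ∑ x, f x = A.card := by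
    simp only [f]
    rw [Finset.sum_ite_mem, Finset.univ_inter]
    simp only [sum_const, nsmul_eq_mul, mul_one]
    rw [Finset.card_image_of_injOn]
    intro x hx y hy hxy
    have hx' := mem_grid.1 (hA hx)
    have hy' := mem_grid.1 (hA hy)
    exact red_inj m x y (fun i => by have := hx' i; omega) (fun i => by have := hy' i; omega) hxy
  rw [hcardG, hsumf] at hmain
  rw [hcardG] at hCc
  by_contra hcon
  push Not at hcon
  set W : ℕ := 2 * H * (m / K) with hW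
  set X : ℝ := (α ^ 3 - ε) * (N : ℝ) ^ 2 with hX
  have hX0 : 0 ≤ X := mul_nonneg (by linarith) (by positivity)
  have hb : ∀ p ∈ C ×ˢ C, ∑ x, f x * f (x + act m M₂ (p.1 - p.2)) * f (x + act m M₁ (p.1 - p.2)) ≤
      (X + 4 * W * N) + if M₂ *ᵥ (lf m p.1 - lf m p.2) = 0 then (m : ℝ) ^ 2 else 0 := by
    intro p hp
    obtain ⟨hp1, hp2⟩ := Finset.mem_product.1 hp
    by_cases hadm : M₂ *ᵥ (lf m p.1 - lf m p.2) = 0
    · rw [if_pos hadm]
      have : ∑ x, f x * f (x + act m M₂ (p.1 - p.2)) * f (x + act m M₁ (p.1 - p.2)) ≤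
          ∑ _x : Fin 2 → ZMod m, (1 : ℝ) := Finset.sum_le_sum fun x _ => by
        simp only [f]; split_ifs <;> norm_num
      simp only [sum_const, card_univ, nsmul_eq_mul, mul_one] at this
      rw [hcardG] at this
      have : (0 : ℝ) ≤ 4 * W * N := by positivity
      linarith
    · rw [if_neg hadm, add_zero]
      have hn : ∀ j, |(lf m p.1 - lf m p.2) j| ≤ ((m / K : ℕ) : ℤ) := by
        intro j
        have := congrArg Fin.val (congrFun (hCκ p.1 hp1 p.2 hp2) j)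
        exact same_cell m K _ _ hm0 hK0 this
      have hcl := count_le M₁ M₂ N m W hNm A hA (lf m p.1 - lf m p.2)
        (mulVec_bound M₁ H _ hH1 _ hn) (mulVec_bound M₂ H _ hH2 _ hn) f (fun _ => rfl)
      rw [red_sub, red_lf, red_lf] at hcl
      have hM1 : M₁ *ᵥ (lf m p.1 - lf m p.2) ≠ 0 := by
        intro h
        have := Matrix.eq_zero_of_mulVec_eq_zero h1 h
        apply hadm
        rw [this, Matrix.mulVec_zero]
      have := hcon _ hM1 hadm
      linarith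
  have hsum := (hmain.trans (Finset.sum_le_sum hb))
  rw [Finset.sum_add_distrib, ← Finset.sum_filter] at hsum
  simp only [sum_const, nsmul_eq_mul] at hsum
  have hna : (((C ×ˢ C).filter fun p => M₂ *ᵥ (lf m p.1 - lf m p.2) = 0).card : ℝ) ≤
      m * C.card := by exact_mod_cast nonadm_card M₂ h2 m C
  rw [Finset.card_product] at hsum
  push_cast at hsum
  have hcpos : (0 : ℝ) < C.card := by exact_mod_cast hC.card_pos
  have hmR : (N : ℝ) ≤ m := by exact_mod_cast hNm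
  have hmR' : (m : ℝ) ≤ N + D + 1 := by exact_mod_cast hmN
  have hmpos : (0 : ℝ) < m := lt_of_lt_of_le hNpos hmR
  -- divide
  have s1 : ((A.card : ℝ) / (m : ℝ) ^ 2) ^ 3 - 42 * (ε / 168) ≤
      (X + 4 * W * N) / (m : ℝ) ^ 2 + m / C.card := by
    have e : (X + 4 * W * N) / (m : ℝ) ^ 2 + m / C.card =
        ((C.card * C.card) * (X + 4 * W * N) + (m * C.card) * (m : ℝ) ^ 2) /
          ((m : ℝ) ^ 2 * (C.card * C.card)) := by
      field_simp
    rw [e, le_div_iff₀ (by positivity), ← mul_assoc]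
    refine hsum.trans ?_
    gcongr
  have s2 : X / (m : ℝ) ^ 2 ≤ α ^ 3 - ε := by
    rw [div_le_iff₀ (by positivity), hX]
    have : 0 ≤ α ^ 3 - ε := by linarith
    gcongr
  have s3 : (4 * W * N : ℝ) / (m : ℝ) ^ 2 ≤ ε / 4 := by
    have hWle : (W : ℝ) ≤ 2 * H * (m / K) := by
      rw [hW]; push_cast
      gcongr
      exact Nat.cast_div_le
    have hHK : 8 * (H : ℝ) / K ≤ ε / 4 := by
      rw [div_lt_iff₀ hε] at hK
      rw [div_le_iff₀ hKpos]; linarith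
    rw [div_le_iff₀ (by positivity)]
    calc (4 * W * N : ℝ) ≤ 4 * (2 * H * (m / K)) * m := by gcongr
      _ = 8 * (H : ℝ) / K * (m : ℝ) ^ 2 := by ring
      _ ≤ _ := by gcongr
  have s4 : (m : ℝ) / C.card ≤ 1 / c / N := by
    rw [div_div, div_le_div_iff₀ hcpos (by positivity)]
    calc (m : ℝ) * (c * N) ≤ m * (c * m) := by gcongr
      _ = c * (m : ℝ) ^ 2 := by ring
      _ ≤ _ := by rw [one_mul]; exact hCc
  have s5 : α ^ 3 - 6 * α ^ 3 * (D + 1) / N ≤ ((A.card : ℝ) / (m : ℝ) ^ 2) ^ 3 := by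
    have a1 : α * ((N : ℝ) / m) ^ 2 ≤ (A.card : ℝ) / (m : ℝ) ^ 2 := by
      rw [div_pow, ← mul_div_assoc]; gcongr
    have a2 : (α * ((N : ℝ) / m) ^ 2) ^ 3 ≤ ((A.card : ℝ) / (m : ℝ) ^ 2) ^ 3 := by gcongr
    refine le_trans ?_ a2
    have a3 := pow6 ((N : ℝ) / m) (by positivity)
    have a4 : 1 - (N : ℝ) / m ≤ (D + 1) / N := by
      have : 1 - (N : ℝ) / m = (m - N) / m := by field_simp
      rw [this]
      gcongr
      linarith
    have a5 : (α * ((N : ℝ) / m) ^ 2) ^ 3 = α ^ 3 * ((N : ℝ) / m) ^ 6 := by ring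
    have a6 : α ^ 3 - 6 * α ^ 3 * (D + 1) / N = α ^ 3 * (1 - 6 * ((D + 1) / N)) := by ring
    rw [a5, a6]
    gcongr
    linarith
  have s6 : 1 / c / N + 6 * α ^ 3 * (D + 1) / N < ε / 4 := by
    rw [← add_div, div_lt_iff₀ hNpos]
    rw [div_lt_iff₀ hε] at hN₀
    nlinarith
  rw [add_div] at s1
  linarith

theorem main (M₁ M₂ : Matrix (Fin 2) (Fin 2) ℤ) (h1 : M₁.det ≠ 0) (h12 : (M₁ - M₂).det ≠ 0)
    (h2 : M₂ ≠ 0) : HasCubePopular M₁ M₂ := by
  intro α hα ε hε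
  obtain ⟨N₀, h⟩ := main_small M₁ M₂ h1 h12 h2 α hα (min ε (α ^ 3)) (lt_min hε (by positivity))
    (min_le_right _ _)
  refine ⟨N₀, fun N hN A hA hAc => ?_⟩
  obtain ⟨n, a, b, c⟩ := h N hN A hA hAc
  refine ⟨n, a, b, lt_of_le_of_lt ?_ c⟩
  have := min_le_left ε (α ^ 3)
  gcongr

theorem det_ne_of_rank (M : Matrix (Fin 2) (Fin 2) ℤ) (h : rankQ M = 2) : M.det ≠ 0 := by
  intro hd
  have hd' : (M.map (Int.cast : ℤ → ℚ)).det = 0 := by
    have := (Int.castRingHom ℚ).map_det M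
    rw [RingHom.mapMatrix_apply, hd] at this
    simpa using this.symm
  obtain ⟨v, hv, hMv⟩ := Matrix.exists_mulVec_eq_zero_iff.2 hd'
  have hrn := LinearMap.finrank_range_add_finrank_ker (M.map (Int.cast : ℤ → ℚ)).mulVecLin
  have hr : Module.finrank ℚ (LinearMap.range (M.map (Int.cast : ℤ → ℚ)).mulVecLin) = 2 := h
  rw [hr] at hrn
  simp only [Module.finrank_fintype_fun_eq_card, Fintype.card_fin] at hrn
  have hk : Module.finrank ℚ (LinearMap.ker (M.map (Int.cast : ℤ → ℚ)).mulVecLin) = 0 := by omega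
  rw [Submodule.finrank_eq_zero] at hk
  have : v ∈ LinearMap.ker (M.map (Int.cast : ℤ → ℚ)).mulVecLin := hMv
  rw [hk] at this
  exact hv this

theorem final (M₁ M₂ : Matrix (Fin 2) (Fin 2) ℤ) (h1 : rankQ M₁ = 2) (h2 : rankQ M₂ = 1)
    (h12 : rankQ (M₂ - M₁) = 2) : HasCubePopular M₁ M₂ := by
  refine main M₁ M₂ (det_ne_of_rank _ h1) ?_ ?_
  · have := det_ne_of_rank _ h12
    rw [← neg_sub, Matrix.det_neg]
    simpa using this
  · rintro rfl
    simp [rankQ] at h2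

end Pool.Agent.H698Z.Pop
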