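import Mathlib

set_option autoImplicit false
set_option linter.unusedSectionVars false

namespace Pool.Agent.H698Z.Wild

open Set Filter Topology
open scoped Pointwise

abbrev V := Fin 4 → ℝ

def dot (a x : V) : ℝ := a 0 * x 0 + a 1 * x 1 + a 2 * x 2 + a 3 * x 3

def qf (x : V) : ℝ := x 0 ^ 2 + x 1 ^ 2 + x 2 ^ 2 + x 3 ^ 2

/-- the order five symmetry -/
noncomputable def g (x : V) : V :=
  ![-x 1 / 2 - x 2 / 2, x 2 - x 3, x 0 + x 1 / 2 - x 3 / 2, x 1 - x 3]

@[simp] theorem g0 (x : V) : g x 0 = -x 1 / 2 - x 2 / 2 := rfl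
@[simp] theorem g1 (x : V) : g x 1 = x 2 - x 3 := rfl
@[simp] theorem g2 (x : V) : g x 2 = x 0 + x 1 / 2 - x 3 / 2 := rfl
@[simp] theorem g3 (x : V) : g x 3 = x 1 - x 3 := rfl

theorem ext4 {x y : V} (h0 : x 0 = y 0) (h1 : x 1 = y 1) (h2 : x 2 = y 2) (h3 : x 3 = y 3) :
    x = y := by
  funext i; fin_cases i <;> assumption

theorem g_add (x y : V) : g (x + y) = g x + g y := by
  apply ext4 <;> simp <;> ring

theorem g_smul (a : ℝ) (x : V) : g (a • x) = a • g x := by
  apply ext4 <;> simp <;> ring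

theorem g_neg (x : V) : g (-x) = -g x := by
  apply ext4 <;> simp <;> ring

theorem g_sub (x y : V) : g (x - y) = g x - g y := by
  apply ext4 <;> simp <;> ring

theorem g_zero : g 0 = 0 := by
  apply ext4 <;> simp

theorem g_five (x : V) : g (g (g (g (g x)))) = x := by
  apply ext4 <;> simp <;> ring

theorem g_sum (x : V) : x + g x + g (g x) + g (g (g x)) + g (g (g (g x))) = 0 := by
  apply ext4 <;> simp <;> ring

theorem g_cont : Continuous g := by
  refine continuous_pi fun i => ?_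
  fin_cases i <;> simp <;> fun_prop

theorem g_inj : Function.Injective g := by
  intro x y h
  rw [← g_five x, ← g_five y, h]

theorem gi_add (r : ℕ) (x y : V) : g^[r] (x + y) = g^[r] x + g^[r] y := by
  induction r generalizing x y with
  | zero => rfl
  | succ r ih => simp only [Function.iterate_succ_apply, g_add, ih]

theorem gi_smul (r : ℕ) (a : ℝ) (x : V) : g^[r] (a • x) = a • g^[r] x := by
  induction r generalizing x with
  | zero => rfl
  | succ r ih => simp only [Function.iterate_succ_apply, g_smul, ih]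

theorem gi_neg (r : ℕ) (x : V) : g^[r] (-x) = -g^[r] x := by
  have := gi_smul r (-1) x
  simpa using this

theorem gi_mod (r : ℕ) (x : V) : g^[r] x = g^[r % 5] x := by
  have h5 : ∀ (n : ℕ) (y : V), g^[5 * n] y = y := by
    intro n
    induction n with
    | zero => intro y; rfl
    | succ n ih =>
      intro y
      rw [mul_add, mul_one, Function.iterate_add_apply, ih]
      exact g_five y
  conv_lhs => rw [← Nat.mod_add_div r 5, Function.iterate_add_apply, h5]

/-- the small cap around the first basis vector -/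
def Cap (p : V) : Prop :=
  |p 0 - 1| < 1 / 100 ∧ |p 1| < 1 / 100 ∧ |p 2| < 1 / 100 ∧ |p 3| < 1 / 100

/-- radii -/
noncomputable def rad (j : ℕ) : ℝ := 1 / ((j : ℝ) + 1)

section Body

variable {I : Type} (p φ : I → V) (mu : ℕ → ℝ)

/-- basic body -/
def K0 : Set V := {x | ∀ i, dot (φ i) x ≤ 1 ∧
  ∀ j, dot (φ i) x + mu j * (qf (x - p i) - rad j) ≤ 1}

/-- symmetrised body -/
def K : Set V := {x | ∀ r : ℕ, g^[r] x ∈ K0 p φ mu ∧ -g^[r] x ∈ K0 p φ mu}

variable {p φ mu}

theorem dot_cont (a : V) : Continuous (dot a) := by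
  unfold dot; fun_prop

theorem qf_cont : Continuous qf := by
  unfold qf; fun_prop

theorem K0_closed : IsClosed (K0 p φ mu) := by
  simp only [K0, setOf_forall, setOf_and]
  refine isClosed_iInter fun i => IsClosed.inter (isClosed_le (dot_cont _) continuous_const)
    (isClosed_iInter fun j => isClosed_le ?_ continuous_const)
  exact (dot_cont _).add (continuous_const.mul
    ((qf_cont.comp (continuous_id.sub continuous_const)).sub continuous_const))

theorem K0_convex (hmu : ∀ j, 0 < mu j) : Convex ℝ (K0 p φ mu) := by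
  intro x hx y hy a b ha hb hab i
  obtain ⟨hx1, hx2⟩ := hx i
  obtain ⟨hy1, hy2⟩ := hy i
  have e : dot (φ i) (a • x + b • y) = a * dot (φ i) x + b * dot (φ i) y := by
    simp [dot]; ring
  refine ⟨by rw [e]; nlinarith, fun j => ?_⟩
  have hb' : b = 1 - a := by linarith
  have e2 : qf (a • x + b • y - p i) = a * qf (x - p i) + b * qf (y - p i) - a * b * qf (x - y) := by
    simp [qf, hb']; ring
  have h3 : 0 ≤ a * b * qf (x - y) := by unfold qf; positivity
  have h4 := mul_le_mul_of_nonneg_left (hx2 j) ha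
  have h5 := mul_le_mul_of_nonneg_left (hy2 j) hb
  have h6 := mul_nonneg (hmu j).le h3
  rw [e, e2]
  have : mu j * (a * qf (x - p i) + b * qf (y - p i) - a * b * qf (x - y) - rad j) =
      a * (mu j * (qf (x - p i) - rad j)) + b * (mu j * (qf (y - p i) - rad j)) -
        mu j * (a * b * qf (x - y)) := by
    rw [hb']; ring
  rw [this]; nlinarith

theorem qf_pos {x : V} (h : x ≠ 0) : 0 < qf x := by
  by_contra hc
  apply h
  unfold qf at hc
  apply ext4 <;> simp only [Pi.zero_apply] <;> nlinarith [sq_nonneg (x 0), sq_nonneg (x 1),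
    sq_nonneg (x 2), sq_nonneg (x 3)]

theorem qf_le (x : V) (R : ℝ) (h : ∀ k, |x k| ≤ R) : qf x ≤ 4 * R ^ 2 := by
  have a : ∀ k, x k ^ 2 ≤ R ^ 2 := fun k => by
    rw [← sq_abs]; exact pow_le_pow_left₀ (abs_nonneg _) (h k) 2
  unfold qf
  linarith [a 0, a 1, a 2, a 3]

theorem cap_abs {z : V} (h : Cap z) (k : Fin 4) : |z k| ≤ 2 := by
  obtain ⟨a, b, c, d⟩ := h
  rw [abs_lt] at a b c d
  fin_cases k <;> simp only [Fin.zero_eta, Fin.mk_one, Fin.reduceFinMk] <;> rw [abs_le] <;>
    constructor <;> linarith [a.1, a.2, b.1, b.2, c.1, c.2, d.1, d.2]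

theorem dot_le (a x : V) (A X : ℝ) (ha : ∀ k, |a k| ≤ A) (hx : ∀ k, |x k| ≤ X) :
    dot a x ≤ 4 * (A * X) := by
  have h : ∀ k, a k * x k ≤ A * X := fun k => by
    refine (le_abs_self _).trans ?_
    rw [abs_mul]
    exact mul_le_mul (ha k) (hx k) (abs_nonneg _) ((abs_nonneg _).trans (ha k))
  unfold dot
  linarith [h 0, h 1, h 2, h 3]

theorem K0_mid (hmu : ∀ j, 0 < mu j) (hmu1 : ∀ j, mu j ≤ 1 / 1000) (hp : ∀ i, Cap (p i))
    (hφ : ∀ i, Cap (φ i)) {x y : V} (hx : x ∈ K0 p φ mu) (hy : y ∈ K0 p φ mu) (hxy : x ≠ y) :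
    K0 p φ mu ∈ 𝓝 ((1 / 2 : ℝ) • (x + y)) := by
  set z : V := (1 / 2 : ℝ) • (x + y) with hz
  have hl : 0 < qf (x - y) := qf_pos (sub_ne_zero.2 hxy)
  set l : ℝ := qf (x - y) / 4 with hl'
  have hl0 : 0 < l := by positivity
  obtain ⟨j0, hj0⟩ := exists_nat_one_div_lt (show 0 < l / 2 by positivity)
  set η0 : ℝ := mu j0 * (l / 2) with hη0
  have hη0p : 0 < η0 := mul_pos (hmu j0) (by positivity)
  set R : ℝ := 4 * (‖z‖ + 2) ^ 2 with hR
  have hRp : 0 < R := by positivity
  have emid : ∀ i, dot (φ i) z = (dot (φ i) x + dot (φ i) y) / 2 := fun i => by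
    simp [hz, dot]; ring
  have eq : ∀ i, qf (z - p i) = (qf (x - p i) + qf (y - p i)) / 2 - l := fun i => by
    simp [hz, hl', qf]; ring
  have hzp : ∀ i k, |(z - p i) k| ≤ ‖z‖ + 2 := fun i k => by
    have a := norm_le_pi_norm z k
    have b := cap_abs (hp i) k
    rw [Real.norm_eq_abs] at a
    exact (abs_sub _ _).trans (by linarith)
  have hq0 : ∀ i, 0 ≤ qf (z - p i) := fun i => by unfold qf; positivity
  have s1 : ∀ i j, dot (φ i) z + mu j * (qf (z - p i) - rad j) ≤ 1 - mu j * l := fun i j => by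
    have a := (hx i).2 j
    have b := (hy i).2 j
    rw [emid, eq]; linarith
  have s0 : ∀ i, dot (φ i) z ≤ 1 - η0 := fun i => by
    have a := s1 i j0
    have b := mul_nonneg (hmu j0).le (hq0 i)
    have c : mu j0 * rad j0 ≤ mu j0 * (l / 2) :=
      mul_le_mul_of_nonneg_left (by unfold rad; exact hj0.le) (hmu j0).le
    rw [hη0]; nlinarith
  set η : ℝ := l * η0 / (R + l) with hη
  have hηp : 0 < η := by positivity
  have hηle : η ≤ η0 := by
    rw [hη, div_le_iff₀ (by positivity)]; nlinarith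
  have s2 : ∀ i j, dot (φ i) z + mu j * (qf (z - p i) - rad j) ≤ 1 - η := fun i j => by
    have a := s1 i j
    have b : qf (z - p i) ≤ R := qf_le _ _ (hzp i)
    have c : 0 < rad j := by unfold rad; positivity
    have d : dot (φ i) z + mu j * (qf (z - p i) - rad j) ≤ 1 - η0 + mu j * R := by
      have := s0 i
      have := mul_le_mul_of_nonneg_left (show qf (z - p i) - rad j ≤ R by linarith) (hmu j).le
      linarith
    have e : η * (R + l) = l * η0 := by rw [hη]; field_simp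
    have f : (dot (φ i) z + mu j * (qf (z - p i) - rad j) - (1 - η)) * (R + l) ≤ 0 := by
      nlinarith
    by_contra hc
    have := mul_pos (show 0 < dot (φ i) z + mu j * (qf (z - p i) - rad j) - (1 - η) by linarith)
      (show 0 < R + l by positivity)
    linarith
  set L : ℝ := 8 + 8 * (‖z‖ + 2) + 4 with hL
  have hLp : 0 < L := by positivity
  set ρ : ℝ := min 1 (η / L) with hρ
  have hρp : 0 < ρ := lt_min one_pos (by positivity)
  have hρ1 : ρ ≤ 1 := min_le_left _ _
  have hρL : ρ * L ≤ η := by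
    have := min_le_right 1 (η / L)
    rwa [← hρ, le_div_iff₀ hLp] at this
  refine Filter.mem_of_superset (Metric.closedBall_mem_nhds z hρp) fun z' hz' i => ?_
  have hd : ∀ k, |(z' - z) k| ≤ ρ := fun k => by
    have a := norm_le_pi_norm (z' - z) k
    rw [Metric.mem_closedBall, dist_eq_norm] at hz'
    rw [Real.norm_eq_abs] at a
    linarith
  have a1 : dot (φ i) (z' - z) ≤ 4 * (2 * ρ) := dot_le _ _ _ _ (cap_abs (hφ i)) hd
  have a2 : dot (z - p i) (z' - z) ≤ 4 * ((‖z‖ + 2) * ρ) := dot_le _ _ _ _ (hzp i) hd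
  have a3 : qf (z' - z) ≤ 4 * ρ ^ 2 := qf_le _ _ hd
  have e1 : dot (φ i) z' = dot (φ i) z + dot (φ i) (z' - z) := by simp [dot]; ring
  have e2 : qf (z' - p i) = qf (z - p i) + (2 * dot (z - p i) (z' - z) + qf (z' - z)) := by
    simp [dot, qf]; ring
  have hn := norm_nonneg z
  refine ⟨?_, fun j => ?_⟩
  · have := s0 i
    rw [e1]; nlinarith
  · have a := s2 i j
    have b : 2 * dot (z - p i) (z' - z) + qf (z' - z) ≤ 8 * ((‖z‖ + 2) * ρ) + 4 * ρ := by nlinarith
    have c : mu j * (2 * dot (z - p i) (z' - z) + qf (z' - z)) ≤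
        1 * (8 * ((‖z‖ + 2) * ρ) + 4 * ρ) := by
      refine (mul_le_mul_of_nonneg_left b (hmu j).le).trans ?_
      exact mul_le_mul_of_nonneg_right (by linarith [hmu1 j]) (by positivity)
    rw [e1, e2]; nlinarith

theorem K_closed : IsClosed (K p φ mu) := by
  simp only [K, setOf_forall, setOf_and]
  exact isClosed_iInter fun r => IsClosed.inter (K0_closed.preimage (g_cont.iterate r))
    (K0_closed.preimage (g_cont.iterate r).neg)

theorem K_convex (hmu : ∀ j, 0 < mu j) : Convex ℝ (K p φ mu) := by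
  intro x hx y hy a b ha hb hab r
  rw [gi_add, gi_smul, gi_smul]
  refine ⟨K0_convex hmu (hx r).1 (hy r).1 ha hb hab, ?_⟩
  have := K0_convex hmu (hx r).2 (hy r).2 ha hb hab
  rwa [smul_neg, smul_neg, ← neg_add] at this

theorem K_neg {x : V} (hx : x ∈ K p φ mu) : -x ∈ K p φ mu := by
  intro r
  rw [gi_neg, neg_neg]
  exact ⟨(hx r).2, (hx r).1⟩

theorem K_g {x : V} (hx : x ∈ K p φ mu) : g x ∈ K p φ mu := by
  intro r
  rw [← Function.iterate_succ_apply]
  exact hx _

theorem K_g_iff {x : V} : g x ∈ K p φ mu ↔ x ∈ K p φ mu :=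
  ⟨fun h => by rw [← g_five x]; exact K_g (K_g (K_g (K_g h))), K_g⟩

theorem K_mid (hmu : ∀ j, 0 < mu j) (hmu1 : ∀ j, mu j ≤ 1 / 1000) (hp : ∀ i, Cap (p i))
    (hφ : ∀ i, Cap (φ i)) {x y : V} (hx : x ∈ K p φ mu) (hy : y ∈ K p φ mu) (hxy : x ≠ y) :
    K p φ mu ∈ 𝓝 ((1 / 2 : ℝ) • (x + y)) := by
  have h : ∀ r ∈ Finset.range 5, ∀ᶠ z in 𝓝 ((1 / 2 : ℝ) • (x + y)),
      g^[r] z ∈ K0 p φ mu ∧ -g^[r] z ∈ K0 p φ mu := by
    intro r _
    have hne : g^[r] x ≠ g^[r] y := fun h => hxy (g_inj.iterate r h)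
    have a := K0_mid hmu hmu1 hp hφ (hx r).1 (hy r).1 hne
    have b := K0_mid hmu hmu1 hp hφ (hx r).2 (hy r).2 (fun h => hne (neg_injective h))
    rw [← gi_add, ← gi_smul] at a
    rw [← neg_add, smul_neg, ← gi_add, ← gi_smul] at b
    exact Filter.Eventually.and ((g_cont.iterate r).continuousAt.preimage_mem_nhds a)
      ((g_cont.iterate r).neg.continuousAt.preimage_mem_nhds b)
  filter_upwards [(Filter.eventually_all_finset _).2 h] with z hz r
  rw [gi_mod]
  exact hz _ (Finset.mem_range.2 (Nat.mod_lt _ (by norm_num)))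

theorem far_mem (hmu : ∀ j, 0 < mu j) (hmu1 : ∀ j, mu j ≤ 1 / 1000) (hp : ∀ i, Cap (p i))
    (hφ : ∀ i, Cap (φ i)) {z : V} (h0 : z 0 ≤ 3 / 5) (hz : ∀ k, |z k| ≤ 2) : z ∈ K0 p φ mu := by
  intro i
  have a : dot (φ i - ![1, 0, 0, 0]) z ≤ 4 * (1 / 100 * 2) := by
    refine dot_le _ _ _ _ (fun k => ?_) hz
    obtain ⟨a, b, c, d⟩ := hφ i
    fin_cases k <;> simp <;> linarith
  have e : dot (φ i) z = z 0 + dot (φ i - ![1, 0, 0, 0]) z := by simp [dot]; ring
  refine ⟨by linarith, fun j => ?_⟩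
  have b : qf (z - p i) ≤ 4 * 4 ^ 2 := qf_le _ _ fun k => by
    have := hz k
    have := cap_abs (hp i) k
    exact (abs_sub _ _).trans (by linarith)
  have c : 0 < rad j := by unfold rad; positivity
  have d : mu j * (qf (z - p i) - rad j) ≤ mu j * 64 :=
    mul_le_mul_of_nonneg_left (by linarith) (hmu j).le
  have := hmu1 j
  linarith

theorem p_mem (hmu : ∀ j, 0 < mu j) (hmu1 : ∀ j, mu j ≤ 1 / 1000) (hp : ∀ i, Cap (p i))
    (hφ : ∀ i, Cap (φ i)) (hin : ∀ i, p i ∈ K0 p φ mu) (i : I) : p i ∈ K p φ mu := by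
  intro r
  rw [gi_mod]
  obtain ⟨a, b, c, d⟩ := hp i
  rw [abs_lt] at a b c d
  obtain ⟨a1, a2⟩ := a
  obtain ⟨b1, b2⟩ := b
  obtain ⟨c1, c2⟩ := c
  obtain ⟨d1, d2⟩ := d
  have hr : r % 5 < 5 := Nat.mod_lt _ (by norm_num)
  interval_cases r % 5
  · refine ⟨hin i, far_mem hmu hmu1 hp hφ (by simp; linarith) fun k => ?_⟩
    simpa using cap_abs (hp i) k
  all_goals
    constructor <;> refine far_mem hmu hmu1 hp hφ (by simp; linarith) fun k => ?_ <;>
      fin_cases k <;> simp [abs_le] <;> constructor <;> linarith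

end Body

/-- A strictly convex `g`-invariant norm through prescribed points. -/
theorem exists_norm {I : Type} [Nonempty I] (p φ : I → V) (mu : ℕ → ℝ)
    (hmu : ∀ j, 0 < mu j) (hmu1 : ∀ j, mu j ≤ 1 / 1000) (hp : ∀ i, Cap (p i))
    (hφ : ∀ i, Cap (φ i)) (h1 : ∀ i, dot (φ i) (p i) = 1) (hin : ∀ i, p i ∈ K0 p φ mu) :
    ∃ N : V → ℝ, (∀ x, N x = 0 → x = 0) ∧ (∀ (a : ℝ) x, N (a • x) = |a| * N x) ∧
      (∀ x y, N (x + y) ≤ N x + N y) ∧ (∀ x y, N x = 1 → N y = 1 → x ≠ y → N (x + y) ≠ 2) ∧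
      (∀ x, N (g x) = N x) ∧ ∀ i, N (p i) = 1 := by
  obtain ⟨i0⟩ := ‹Nonempty I›
  have hpK := p_mem hmu hmu1 hp hφ hin
  have hnh : K p φ mu ∈ 𝓝 (0 : V) := by
    have hne : p i0 ≠ -p i0 := by
      intro h
      have a := congrFun h 0
      have b := (hp i0).1
      rw [abs_lt] at b
      simp only [Pi.neg_apply] at a
      linarith [b.1]
    simpa using K_mid hmu hmu1 hp hφ (hpK i0) (K_neg (hpK i0)) hne
  have habs : Absorbent ℝ (K p φ mu) := absorbent_nhds_zero hnh
  have hconv : Convex ℝ (K p φ mu) := K_convex hmu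
  have hbd : Bornology.IsVonNBounded ℝ (K p φ mu) := by
    rw [NormedSpace.isVonNBounded_iff]
    refine (Metric.isBounded_closedBall (x := p i0) (r := 2 / mu 0 + 2)).subset fun x hx => ?_
    have a := ((hx 0).1 i0).2 0
    have b := ((hx 0).2 i0).1
    have e : dot (φ i0) (-g^[0] x) = -dot (φ i0) (g^[0] x) := by simp [dot]; ring
    rw [e] at b
    simp only [Function.iterate_zero, id, rad, Nat.cast_zero, zero_add, div_one] at a b
    have hm := hmu 0
    have c : qf (x - p i0) ≤ 2 / mu 0 + 1 := by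
      have : qf (x - p i0) - 1 ≤ 2 / mu 0 := by
        rw [le_div_iff₀ hm]; linarith
      linarith
    rw [Metric.mem_closedBall, dist_eq_norm, pi_norm_le_iff_of_nonneg (by positivity)]
    intro k
    have d : (x - p i0) k ^ 2 ≤ qf (x - p i0) := by
      unfold qf
      fin_cases k <;> simp only [Fin.zero_eta, Fin.mk_one, Fin.reduceFinMk] <;>
        nlinarith [sq_nonneg ((x - p i0) 0), sq_nonneg ((x - p i0) 1), sq_nonneg ((x - p i0) 2),
          sq_nonneg ((x - p i0) 3)]
    rw [Real.norm_eq_abs]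
    have f := sq_nonneg (|(x - p i0) k| - 1)
    have f2 := sq_abs ((x - p i0) k)
    have : 0 < 2 / mu 0 := by positivity
    nlinarith
  have hbal : Balanced ℝ (K p φ mu) := by
    rw [balanced_iff_neg_mem hconv]
    exact fun x hx => K_neg hx
  refine ⟨gauge (K p φ mu), fun x h => (gauge_eq_zero habs hbd).1 h, fun a x => ?_,
    gauge_add_le hconv habs, ?_, ?_, ?_⟩
  · rw [gauge_smul hbal, Real.norm_eq_abs]
  · intro x y hx hy hxy h
    have hx' : x ∈ K p φ mu := by
      have := (gauge_le_one_iff_mem_closure hconv hnh).1 hx.le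
      rwa [K_closed.closure_eq] at this
    have hy' : y ∈ K p φ mu := by
      have := (gauge_le_one_iff_mem_closure hconv hnh).1 hy.le
      rwa [K_closed.closure_eq] at this
    have := interior_subset_gauge_lt_one _
      (mem_interior_iff_mem_nhds.2 (K_mid hmu hmu1 hp hφ hx' hy' hxy))
    simp only [mem_setOf_eq] at this
    rw [gauge_smul hbal, h] at this
    norm_num at this
  · intro x
    simp only [gauge_def', ← g_smul, K_g_iff]
  · intro i
    refine le_antisymm (gauge_le_one_of_mem (hpK i)) ?_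
    by_contra hc
    obtain ⟨b, hb, hb1, y, hy, hby⟩ := exists_lt_of_gauge_lt habs (not_le.1 hc)
    have a := ((hy 0).1 i).1
    have e := h1 i
    simp only at hby
    rw [← hby] at e
    have e2 : dot (φ i) (b • y) = b * dot (φ i) y := by simp [dot]; ring
    simp only [Function.iterate_zero, id] at a
    nlinarith

end Pool.Agent.H698Z.Wild
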