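import Mathlib
import Pool.Agent.H698Z.WildNorm

set_option autoImplicit false
set_option linter.unusedSectionVars false

namespace Pool.Agent.H698Z.Wild

open Set Filter Topology

abbrev Ch := ℕ → ℕ

def er (M : ℕ) (μ : Ch) : Ch := fun l => if μ l = M then 0 else μ l
def up (i : ℕ) (μ : Ch) : Ch := fun l => if i < l then μ l else 0
def tr (k : ℕ) (ν : Ch) : Ch := fun l => if k = 0 ∨ l < k then ν l else 0
def codeN (M : ℕ) (μ : Ch) : ℕ := ∑ l ∈ (Finset.range M).filter (fun l => μ l = M), 2 ^ l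
noncomputable def code (M : ℕ) (μ : Ch) : ℝ := codeN M μ

def w0 : V := ![1, 0, 0, 0]
def e1 : V := ![0, 1, 0, 0]
def Par (n t x : ℝ) : V := ![n * t - x * n ^ 2, 0, 0, n]
def dirv (x : ℝ) (v : V) : V := (1 - x ^ 4) • v + x ^ 3 • e1

def dd (σ : ℕ → ℝ) (i : ℕ) : ℝ := σ i ^ (3 * i + 10)
def cc (σ : ℕ → ℝ) (i : ℕ) : ℝ := 1 - σ i ^ 4
def WW (σ : ℕ → ℝ) (i : ℕ) : V := dd σ i • dirv (σ i) w0
def DD (σ : ℕ → ℝ) (i k : ℕ) : ℝ :=
  if i = 0 then 1 else dd σ i - dd σ k * cc σ i + dd σ k * σ k ^ 2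

structure St where
  σ : ℕ → ℝ
  SB : ℕ → Ch → V
  tB : ℕ → Ch → ℝ
  SF : ℕ → Ch → V
  v : Ch → V
  tF : Ch → ℝ
  Ω : ℕ → Ch → ℝ

abbrev Key := Bool × ℕ × ℕ × Ch

noncomputable def YB (s : St) (i : ℕ) (μ : Ch) : V :=
  if i = 0 then 0 else WW s.σ i + g (WW s.σ (μ i)) + s.SB i (up i μ)

noncomputable def YF (s : St) (k : ℕ) (ν : Ch) : V := s.SF k (tr k ν) - g (WW s.σ (ν k))

def vk (s : St) (b : Bool) (μ : Ch) : V := if b then w0 else s.v μ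

noncomputable def PP (s : St) (κ : Key) : V :=
  if κ.2.1 = 0 then vk s κ.1 κ.2.2.2 else
    if κ.1 then YB s κ.2.1 κ.2.2.2 - YB s κ.2.2.1 κ.2.2.2
    else YF s κ.2.1 κ.2.2.2 - YF s κ.2.2.1 κ.2.2.2

noncomputable def pt (s : St) (κ : Key) : V := (DD s.σ κ.2.1 κ.2.2.1)⁻¹ • PP s κ

def tk (s : St) (κ : Key) : ℝ :=
  if κ.1 then s.tB κ.2.1 (up κ.2.1 κ.2.2.2) else s.tF (tr κ.2.2.1 κ.2.2.2)

def Ωk (s : St) (κ : Key) : ℝ := if κ.1 then 1 else s.Ω κ.2.2.1 (tr κ.2.2.1 κ.2.2.2)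

noncomputable def Ak (s : St) (κ : Key) : ℝ := cc s.σ κ.2.1 * (1 - s.σ κ.2.2.1) / Ωk s κ

def Ck (s : St) (κ : Key) : ℝ := if κ.1 then s.σ (κ.2.2.2 κ.2.1) else s.σ (κ.2.2.2 κ.2.2.1)

noncomputable def Bk (s : St) (κ : Key) : ℝ :=
  if κ.2.1 = 0 then 0 else
    (1 - Ak s κ * (pt s κ 0 - tk s κ * pt s κ 3) - Ck s κ * pt s κ 2) / pt s κ 1

noncomputable def ph (s : St) (κ : Key) : V := ![Ak s κ, Bk s κ, Ck s κ, -Ak s κ * tk s κ]

noncomputable def nv (s : St) (M : ℕ) (x : ℝ) (ν : Ch) : V :=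
  s.v (er M ν) + x • Par (code M ν) (s.tF (er M ν)) x

noncomputable def ntF (s : St) (M : ℕ) (x : ℝ) (ν : Ch) : ℝ := s.tF (er M ν) - 2 * x * code M ν

noncomputable def nz (s : St) (M : ℕ) (x : ℝ) (ν : Ch) : V :=
  s.SF 0 (er M ν) - (x * M) • Par (code M ν) (s.tF (er M ν)) x

noncomputable def next (s : St) (M : ℕ) (x : ℝ) : St where
  σ := fun i => if i = M then x else s.σ i
  SB := fun i μ => s.SB i (er M μ) + x ^ (3 * i) • Par (code M μ) (s.tB i (er M μ)) x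
  tB := fun i μ => s.tB i (er M μ) - 2 * x * code M μ
  SF := fun k ν => if k = 0 then nz s M x ν else
    if k = M then nz s M x ν + x ^ (3 * M + 10) • dirv x (nv s M x ν) else
      s.SF k (er M ν) - (x * k) • Par (code M ν) (s.tF (er M ν)) x
  v := nv s M x
  tF := ntF s M x
  Ω := fun k ν => if k = 0 ∨ k = M then nv s M x ν 0 - ntF s M x ν * nv s M x ν 3
    else s.Ω k (er M ν)

def Base (m : ℕ) (μ : Ch) : Prop := μ 0 = 0 ∧ ∀ l, μ l ≠ 0 → l < μ l ∧ μ l ≤ m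

def Valid (m : ℕ) (κ : Key) : Prop :=
  Base m κ.2.2.2 ∧ κ.2.1 ≤ m ∧ (κ.2.2.1 = 0 ∨ (1 ≤ κ.2.1 ∧ κ.2.1 < κ.2.2.1 ∧ κ.2.2.1 ≤ m)) ∧
  (κ.1 = true → (κ.2.1 = 0 → κ.2.2.2 = 0) ∧ ∀ l, κ.2.2.2 l ≠ 0 → κ.2.1 ≤ l) ∧
  (κ.1 = false → (∀ l l', 1 ≤ l → l < l' → κ.2.2.2 l' ≠ 0 →
      κ.2.2.2 l ≠ 0 ∧ κ.2.2.2 l < κ.2.2.2 l') ∧
    (κ.2.2.1 ≠ 0 → ∀ l, κ.2.2.2 l ≠ 0 → l ≤ κ.2.2.1))

def par (M : ℕ) (κ : Key) : Key :=
  if κ.2.1 = M then (κ.1, 0, 0, er M κ.2.2.2)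
  else (κ.1, κ.2.1, if κ.2.2.1 = M then 0 else κ.2.2.1, er M κ.2.2.2)

structure Good (m : ℕ) (s : St) : Prop where
  σ0 : s.σ 0 = 0
  σb : ∀ i, 0 ≤ s.σ i ∧ s.σ i ≤ 1 / 2
  hSB : ∀ i, s.SB i 0 = 0
  htB : ∀ i, s.tB i 0 = 0
  hv : ∀ ν, s.v ν 1 = 0 ∧ s.v ν 2 = 0
  hΩ : ∀ ν, s.Ω 0 ν = s.v ν 0 - s.tF ν * s.v ν 3
  hD : ∀ κ, Valid m κ → 0 < DD s.σ κ.2.1 κ.2.2.1
  hp : ∀ κ, Valid m κ → Cap (pt s κ)
  hφ : ∀ κ, Valid m κ → Cap (ph s κ)
  h1 : ∀ κ, Valid m κ → κ.2.1 ≠ 0 → 0 < pt s κ 1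
  hΩk : ∀ κ, Valid m κ → 0 < Ωk s κ
  sep : ∀ κ κ', Valid m κ → Valid m κ' → κ ≠ κ' → dot (ph s κ) (pt s κ') < 1

theorem er_up (M i : ℕ) (μ : Ch) : er M (up i μ) = up i (er M μ) := by
  funext l; simp only [er, up]; split_ifs <;> simp_all

theorem er_tr (M k : ℕ) (μ : Ch) : er M (tr k μ) = tr k (er M μ) := by
  funext l; simp only [er, tr]; split_ifs <;> simp_all

theorem er_zero (M : ℕ) : er M 0 = 0 := by
  funext l; simp [er]

theorem up_zero (i : ℕ) : up i 0 = 0 := by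
  funext l; simp [up]

theorem tr_zero (ν : Ch) : tr 0 ν = ν := by
  funext l; simp [tr]

theorem code_eq_zero {M : ℕ} {μ : Ch} (h : ∀ l, μ l ≠ M) : code M μ = 0 := by
  unfold code codeN
  rw [Finset.filter_eq_empty_iff.2 fun l _ => h l]; simp

theorem er_eq_self {M : ℕ} {μ : Ch} (h : ∀ l, μ l ≠ M) : er M μ = μ := by
  funext l; simp [er, h l]

theorem Par_zero (t x : ℝ) : Par 0 t x = 0 := by
  apply ext4 <;> simp [Par]

theorem code_inj {M : ℕ} {μ μ' : Ch} (h : ∀ l, μ l = M → l < M) (h' : ∀ l, μ' l = M → l < M)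
    (he : er M μ = er M μ') (hc : code M μ = code M μ') : μ = μ' := by
  have h1 : codeN M μ = codeN M μ' := by unfold code at hc; exact_mod_cast hc
  have h2 := Finset.geomSum_injective (n := 2) le_rfl h1
  funext l
  have h3 : μ l = M ↔ μ' l = M := by
    have := Finset.ext_iff.1 h2 l
    simp only [Finset.mem_filter, Finset.mem_range] at this
    exact ⟨fun a => (this.1 ⟨h l a, a⟩).2, fun a => (this.2 ⟨h' l a, a⟩).2⟩
  have h4 := congrFun he l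
  simp only [er] at h4
  by_cases a : μ l = M
  · rw [a, h3.1 a]
  · rw [if_neg a, if_neg (fun b => a (h3.2 b))] at h4; exact h4

theorem base_finite (M : ℕ) : {μ : Ch | Base M μ}.Finite := by
  refine (Set.finite_range (fun f : Fin M → Fin (M + 1) =>
    (fun l => if h : l < M then (f ⟨l, h⟩ : ℕ) else 0 : Ch))).subset fun μ hμ => ?_
  have hb : ∀ l, μ l < M + 1 := fun l => by
    by_cases a : μ l = 0
    · omega
    · have := (hμ.2 l a).2; omega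
  refine ⟨fun l => ⟨μ l, hb l⟩, ?_⟩
  funext l
  by_cases a : l < M
  · simp [a]
  · simp only [a, dite_false]
    by_contra b
    have := hμ.2 l (fun c => b c.symm)
    omega

theorem valid_finite (M : ℕ) : {κ : Key | Valid M κ}.Finite := by
  refine ((Set.finite_univ (α := Bool)).prod ((Set.finite_Iic M).prod
    ((Set.finite_Iic M).prod (base_finite M)))).subset fun κ hκ => ?_
  obtain ⟨a, b, c, -⟩ := hκ
  refine ⟨trivial, b, ?_, a⟩
  simp only [mem_Iic]; omega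

theorem valid_mono {m : ℕ} {κ : Key} (h : Valid m κ) : Valid (m + 1) κ := by
  obtain ⟨⟨a0, a⟩, b, c, d, e⟩ := h
  exact ⟨⟨a0, fun l hl => by have := a l hl; omega⟩, by omega, by omega, d, e⟩

theorem valid_le {m m' : ℕ} (hm : m ≤ m') {κ : Key} (h : Valid m κ) : Valid m' κ := by
  induction hm with
  | refl => exact h
  | step _ ih => exact valid_mono ih

theorem base_ne {m : ℕ} {μ : Ch} (h : Base m μ) (l : ℕ) : μ l ≠ m + 1 := by
  intro a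
  have := (h.2 l (by omega)).2
  omega

theorem base_er {m : ℕ} {μ : Ch} (h : Base (m + 1) μ) : Base m (er (m + 1) μ) := by
  refine ⟨by simp [er, h.1], fun l hl => ?_⟩
  simp only [er] at hl ⊢
  split_ifs at hl ⊢ with a
  · exact absurd rfl hl
  · have := h.2 l hl; omega

theorem par_valid {m : ℕ} {κ : Key} (h : Valid (m + 1) κ) : Valid m (par (m + 1) κ) := by
  obtain ⟨b, i, k, μ⟩ := κ
  obtain ⟨a, hb, c, d, e⟩ := h
  simp only at a hb c d e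
  have hne : ∀ l, er (m + 1) μ l ≠ 0 → μ l ≠ 0 ∧ μ l ≠ m + 1 ∧ er (m + 1) μ l = μ l := by
    intro l hl
    simp only [er] at hl ⊢
    split_ifs at hl ⊢ with q
    · exact absurd rfl hl
    · exact ⟨hl, q, rfl⟩
  have hinc : b = false → ∀ l l', 1 ≤ l → l < l' → er (m + 1) μ l' ≠ 0 →
      er (m + 1) μ l ≠ 0 ∧ er (m + 1) μ l < er (m + 1) μ l' := by
    intro hb' l l' h1 h2 h3
    obtain ⟨q1, q2, q3⟩ := hne l' h3
    have r := (e hb').1 l l' h1 h2 q1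
    have r2 := (a.2 l' q1).2
    have : er (m + 1) μ l = μ l := by simp only [er]; rw [if_neg]; omega
    rw [this, q3]; exact r
  unfold par
  simp only
  split_ifs with h1 h2
  · refine ⟨base_er a, Nat.zero_le _, Or.inl rfl, fun hb' => ⟨fun _ => ?_, fun _ _ => Nat.zero_le _⟩,
      fun hb' => ⟨hinc hb', fun h => absurd rfl h⟩⟩
    funext l
    by_contra q
    obtain ⟨q1, -, -⟩ := hne l q
    have := (d hb').2 l q1
    have := a.2 l q1
    omega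
  · refine ⟨base_er a, by simp only; omega, Or.inl rfl, fun hb' => ⟨fun h0 => ?_, fun l hl => ?_⟩,
      fun hb' => ⟨hinc hb', fun h => absurd rfl h⟩⟩
    · simp only at h0; omega
    · exact (d hb').2 l (hne l hl).1
  · refine ⟨base_er a, by simp only; omega, by simp only; omega,
      fun hb' => ⟨fun h0 => ?_, fun l hl => ?_⟩,
      fun hb' => ⟨hinc hb', fun h l hl => (e hb').2 h l (hne l hl).1⟩⟩
    · simp only at h0 ⊢; rw [(d hb').1 h0, er_zero]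
    · exact (d hb').2 l (hne l hl).1

theorem dot_one {s : St} {κ : Key} (σ0 : s.σ 0 = 0) (htB : s.tB 0 0 = 0)
    (hv : ∀ ν, s.v ν 1 = 0 ∧ s.v ν 2 = 0) (hΩ : ∀ ν, s.Ω 0 ν = s.v ν 0 - s.tF ν * s.v ν 3)
    {m : ℕ} (h : Valid m κ) (h1 : κ.2.1 ≠ 0 → 0 < pt s κ 1) (hΩk : 0 < Ωk s κ) :
    dot (ph s κ) (pt s κ) = 1 := by
  by_cases hi : κ.2.1 = 0
  · obtain ⟨b, i, k, μ⟩ := κ
    obtain ⟨a, hb, c, d, e⟩ := h
    simp only at a hb c d e hi
    subst hi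
    have hk : k = 0 := by omega
    subst hk
    cases b
    · simp only [Ωk, tr_zero, Bool.false_eq_true, if_false, hΩ] at hΩk
      simp [dot, ph, pt, PP, DD, vk, Ak, Bk, Ck, tk, Ωk, cc, σ0, tr_zero, hv, hΩ]
      field_simp
      ring
    · rw [(d rfl).1 rfl]
      simp [dot, ph, pt, PP, DD, vk, Ak, Bk, Ck, tk, Ωk, cc, σ0, w0]
  · have := (h1 hi).ne'
    simp only [dot, ph, Bk, if_neg hi, Matrix.cons_val_zero, Matrix.cons_val_one,
      Matrix.cons_val]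
    field_simp
    ring

theorem Good.one {m : ℕ} {s : St} (G : Good m s) {κ : Key} (h : Valid m κ) :
    dot (ph s κ) (pt s κ) = 1 :=
  dot_one G.σ0 (G.htB 0) G.hv G.hΩ h (G.h1 κ h) (G.hΩk κ h)

end Pool.Agent.H698Z.Wild
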