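import Mathlib
import Pool.Agent.H698Z.WildDefs

set_option autoImplicit false
set_option linter.unusedSectionVars false

namespace Pool.Agent.H698Z.Wild

open Set Filter Topology

/-- the new point of the base sequence -/
def WM (M : ℕ) (x : ℝ) : V := x ^ (3 * M + 10) • dirv x w0

theorem WW_zero {σ : ℕ → ℝ} (h : σ 0 = 0) : WW σ 0 = 0 := by simp [WW, dd, h]

variable {s : St} {M : ℕ} {x : ℝ}

theorem σ_ne {j : ℕ} (h : j ≠ M) : (next s M x).σ j = s.σ j := if_neg h
theorem σ_eq : (next s M x).σ M = x := if_pos rfl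
theorem WW_ne {j : ℕ} (h : j ≠ M) : WW (next s M x).σ j = WW s.σ j := by
  simp only [WW, dd, σ_ne h]
theorem WW_eq : WW (next s M x).σ M = WM M x := by simp only [WW, dd, σ_eq, WM]
theorem dd_ne {j : ℕ} (h : j ≠ M) : dd (next s M x).σ j = dd s.σ j := by simp only [dd, σ_ne h]
theorem dd_eq : dd (next s M x).σ M = x ^ (3 * M + 10) := by simp only [dd, σ_eq]
theorem cc_ne {j : ℕ} (h : j ≠ M) : cc (next s M x).σ j = cc s.σ j := by simp only [cc, σ_ne h]
theorem cc_eq : cc (next s M x).σ M = 1 - x ^ 4 := by simp only [cc, σ_eq]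

theorem σ_er (σ0 : s.σ 0 = 0) (μ : Ch) (l : ℕ) :
    (next s M x).σ (μ l) = s.σ (er M μ l) + if μ l = M then x else 0 := by
  by_cases h : μ l = M
  · simp [er, h, σ_eq, σ0]
  · simp [er, h, σ_ne h]

theorem gWW_er (σ0 : s.σ 0 = 0) (μ : Ch) (l : ℕ) :
    g (WW (next s M x).σ (μ l)) = g (WW s.σ (er M μ l)) + if μ l = M then g (WM M x) else 0 := by
  by_cases h : μ l = M
  · simp [er, h, WW_eq, WW_zero σ0, g_zero]
  · simp [er, h, WW_ne h]

theorem YB_next (σ0 : s.σ 0 = 0) {i : ℕ} (h0 : i ≠ 0) (hM : i ≠ M) (μ : Ch) :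
    YB (next s M x) i μ = YB s i (er M μ) +
      x ^ (3 * i) • Par (code M (up i μ)) (s.tB i (up i (er M μ))) x +
      if μ i = M then g (WM M x) else 0 := by
  simp only [YB, if_neg h0, WW_ne hM, gWW_er σ0]
  simp only [next, er_up]
  abel

theorem YB_zero (μ : Ch) : YB s 0 μ = 0 := if_pos rfl

theorem base_M {μ : Ch} (h : Base M μ) {l : ℕ} (hl : M ≤ l) : μ l = 0 := by
  by_contra a
  have := h.2 l a
  omega

theorem YB_new (σ0 : s.σ 0 = 0) (hSB : s.SB M 0 = 0) (h0 : M ≠ 0) {μ : Ch} (h : Base M μ) :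
    YB (next s M x) M μ = WM M x := by
  have a : up M μ = 0 := by
    funext l; simp only [up]; split_ifs with q
    · exact base_M h q.le
    · rfl
  have b : code M 0 = 0 := code_eq_zero fun l => by simpa using h0.symm
  simp only [YB, if_neg h0, WW_eq, base_M h le_rfl, WW_ne h0.symm, WW_zero σ0, g_zero, a]
  simp [next, er_zero, hSB, b, Par_zero]

theorem YF_next (σ0 : s.σ 0 = 0) {k : ℕ} (hM : k ≠ M) (ν : Ch) :
    YF (next s M x) k ν = YF s k (er M ν) -
      (x * ((if k = 0 then M else k : ℕ) : ℝ)) •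
        Par (code M (tr k ν)) (s.tF (tr k (er M ν))) x -
      if ν k = M then g (WM M x) else 0 := by
  simp only [YF, gWW_er σ0]
  by_cases h : k = 0
  · subst h
    simp only [next, er_tr, nz, if_true]
    abel
  · simp only [next, er_tr, if_neg h, if_neg hM]
    abel

theorem tr_M {ν : Ch} (h : Base M ν) : tr M ν = ν := by
  funext l; simp only [tr]; split_ifs with q
  · rfl
  · exact (base_M h (by omega)).symm

theorem YF_new (h0 : M ≠ 0) {ν : Ch} (h : Base M ν) :
    YF (next s M x) M ν = YF (next s M x) 0 ν + x ^ (3 * M + 10) • dirv x (nv s M x ν) := by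
  simp only [YF, tr_M h, tr_zero, base_M h le_rfl, h.1]
  simp only [next, if_neg h0, if_true]
  abel

theorem DD_next {i k : ℕ} (hi : i ≠ M) (σ0 : s.σ 0 = 0) (h0 : i ≠ 0) :
    DD (next s M x).σ i k = DD s.σ i (if k = M then 0 else k) +
      if k = M then x ^ (3 * M + 10) * (x ^ 2 - cc s.σ i) else 0 := by
  by_cases h : k = M
  · subst h
    simp only [DD, if_neg h0, dd_ne hi, cc_ne hi, dd_eq, σ_eq, if_true]
    simp [dd, σ0]; ring
  · simp only [DD, if_neg h0, dd_ne hi, cc_ne hi, dd_ne h, σ_ne h, if_neg h, add_zero]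

theorem tend0 {α : Type} [TopologicalSpace α] {f : ℝ → α} {a : α} (hf : Continuous f)
    (h : f 0 = a) : Tendsto f (𝓝[>] 0) (𝓝 a) :=
  (hf.tendsto' 0 a h).mono_left nhdsWithin_le_nhds

theorem Par_cont (n t : ℝ) : Continuous fun x => Par n t x := by
  refine continuous_pi fun i => ?_
  fin_cases i <;> simp [Par] <;> fun_prop

theorem dirv_cont {v : ℝ → V} (hv : Continuous v) : Continuous fun x => dirv x (v x) := by
  unfold dirv; fun_prop

theorem WM_cont : Continuous (WM M) := by
  have := dirv_cont (v := fun _ => w0) continuous_const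
  unfold WM; fun_prop

theorem WM_zero : WM M 0 = 0 := by simp [WM]

theorem nv_cont (ν : Ch) : Continuous fun x => nv s M x ν := by
  have := Par_cont (code M ν) (s.tF (er M ν))
  unfold nv; fun_prop

theorem ntF_cont (ν : Ch) : Continuous fun x => ntF s M x ν := by
  unfold ntF; fun_prop

theorem ite_cont {α : Type} [TopologicalSpace α] (c : Prop) [Decidable c] {f h : ℝ → α}
    (hf : Continuous f) (hh : Continuous h) : Continuous fun x => if c then f x else h x := by
  split_ifs <;> assumption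

theorem YB_tend (σ0 : s.σ 0 = 0) {i : ℕ} (hM : i ≠ M) (μ : Ch) :
    Tendsto (fun x => YB (next s M x) i μ) (𝓝[>] 0) (𝓝 (YB s i (er M μ))) := by
  by_cases h0 : i = 0
  · subst h0; simp only [YB_zero]; exact tendsto_const_nhds
  simp only [YB_next σ0 h0 hM]
  refine tend0 ((continuous_const.add ((continuous_pow _).smul (Par_cont _ _))).add
    (ite_cont _ (g_cont.comp WM_cont) continuous_const)) ?_
  simp [h0, WM_zero, g_zero]

theorem YF_tend (σ0 : s.σ 0 = 0) {k : ℕ} (hM : k ≠ M) (ν : Ch) :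
    Tendsto (fun x => YF (next s M x) k ν) (𝓝[>] 0) (𝓝 (YF s k (er M ν))) := by
  simp only [YF_next σ0 hM]
  refine tend0 ((continuous_const.sub ((continuous_id.mul continuous_const).smul
    (Par_cont _ _))).sub (ite_cont _ (g_cont.comp WM_cont) continuous_const)) ?_
  simp [WM_zero, g_zero]

theorem vk_tend (b : Bool) (μ : Ch) :
    Tendsto (fun x => vk (next s M x) b μ) (𝓝[>] 0) (𝓝 (vk s b (er M μ))) := by
  cases b
  · exact tend0 (f := fun x => nv s M x μ) (nv_cont μ) (by simp [nv, vk])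
  · exact tendsto_const_nhds

variable {m : ℕ}

theorem PP_tend (G : Good m s) {κ : Key} (h : Valid (m + 1) κ) (hi : κ.2.1 ≠ m + 1) :
    Tendsto (fun x => PP (next s (m + 1) x) κ) (𝓝[>] 0) (𝓝 (PP s (par (m + 1) κ))) := by
  obtain ⟨b, i, k, μ⟩ := κ
  simp only at hi
  simp only [par, if_neg hi, PP]
  by_cases h0 : i = 0
  · simp only [if_pos h0]; exact vk_tend b μ
  simp only [if_neg h0]
  cases b
  · simp only [Bool.false_eq_true, if_false]
    refine (YF_tend G.σ0 hi μ).sub ?_
    by_cases hk : k = m + 1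
    · subst hk
      simp only [if_true, YF_new (Nat.succ_ne_zero m) h.1]
      have := (YF_tend (M := m + 1) G.σ0 (Nat.succ_ne_zero m).symm μ).add
        (tend0 (f := fun x => x ^ (3 * (m + 1) + 10) • dirv x (nv s (m + 1) x μ)) (a := 0)
          ((continuous_pow _).smul (dirv_cont (nv_cont μ))) (by simp))
      simpa using this
    · simp only [if_neg hk]; exact YF_tend G.σ0 hk μ
  · simp only [if_true]
    refine (YB_tend G.σ0 hi μ).sub ?_
    by_cases hk : k = m + 1
    · subst hk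
      simp only [if_true, YB_new G.σ0 (G.hSB _) (Nat.succ_ne_zero m) h.1, YB_zero]
      exact tend0 WM_cont WM_zero
    · simp only [if_neg hk]; exact YB_tend G.σ0 hk μ

theorem DD_tend (G : Good m s) {κ : Key} (hi : κ.2.1 ≠ m + 1) :
    Tendsto (fun x => DD (next s (m + 1) x).σ κ.2.1 κ.2.2.1) (𝓝[>] 0)
      (𝓝 (DD s.σ (par (m + 1) κ).2.1 (par (m + 1) κ).2.2.1)) := by
  obtain ⟨b, i, k, μ⟩ := κ
  simp only at hi
  simp only [par, if_neg hi]
  by_cases h0 : i = 0
  · simp only [DD, if_pos h0]; exact tendsto_const_nhds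
  simp only [DD_next hi G.σ0 h0]
  refine tend0 (continuous_const.add (ite_cont _ (by fun_prop) continuous_const)) ?_
  simp

theorem top_k {κ : Key} (h : Valid (m + 1) κ) (hi : κ.2.1 = m + 1) : κ.2.2.1 = 0 := by
  have := h.2.2.1; omega

theorem pt_new (G : Good m s) {κ : Key} (h : Valid (m + 1) κ) (hi : κ.2.1 = m + 1) {x : ℝ}
    (hx : 0 < x) : pt (next s (m + 1) x) κ = dirv x (vk (next s (m + 1) x) κ.1 κ.2.2.2) ∧
      DD (next s (m + 1) x).σ κ.2.1 κ.2.2.1 = x ^ (3 * (m + 1) + 10) := by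
  have hk := top_k h hi
  obtain ⟨b, i, k, μ⟩ := κ
  simp only at hi hk
  subst hi hk
  have hD : DD (next s (m + 1) x).σ (m + 1) 0 = x ^ (3 * (m + 1) + 10) := by
    simp only [DD, if_neg (Nat.succ_ne_zero m), dd_eq, dd_ne (Nat.succ_ne_zero m).symm]
    simp [dd, G.σ0]
  refine ⟨?_, hD⟩
  have hx' : x ^ (3 * (m + 1) + 10) ≠ 0 := by positivity
  simp only [pt, hD, PP, if_neg (Nat.succ_ne_zero m)]
  cases b
  · simp only [Bool.false_eq_true, if_false, YF_new (Nat.succ_ne_zero m) h.1, add_sub_cancel_left,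
      smul_smul, inv_mul_cancel₀ hx', one_smul, vk]
    rfl
  · simp only [if_true, YB_new G.σ0 (G.hSB _) (Nat.succ_ne_zero m) h.1, YB_zero, sub_zero, WM,
      smul_smul, inv_mul_cancel₀ hx', one_smul, vk]

theorem pt_dir (s : St) (b : Bool) (μ : Ch) : pt s (b, 0, 0, μ) = vk s b μ := by
  simp [pt, PP, DD]

theorem dirv_tend {v : ℝ → V} {a : V} (hv : Tendsto v (𝓝[>] 0) (𝓝 a)) :
    Tendsto (fun x => dirv x (v x)) (𝓝[>] 0) (𝓝 a) := by
  have a1 : Tendsto (fun x : ℝ => 1 - x ^ 4) (𝓝[>] 0) (𝓝 1) := tend0 (by fun_prop) (by simp)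
  have a2 : Tendsto (fun x : ℝ => x ^ 3 • e1) (𝓝[>] 0) (𝓝 0) := tend0 (by fun_prop) (by simp)
  simpa [dirv] using (a1.smul hv).add a2

theorem pt_tend (G : Good m s) {κ : Key} (h : Valid (m + 1) κ) :
    Tendsto (fun x => pt (next s (m + 1) x) κ) (𝓝[>] 0) (𝓝 (pt s (par (m + 1) κ))) := by
  by_cases hi : κ.2.1 = m + 1
  · have e : par (m + 1) κ = (κ.1, 0, 0, er (m + 1) κ.2.2.2) := if_pos hi
    rw [e, pt_dir]
    refine (dirv_tend (vk_tend κ.1 κ.2.2.2)).congr' ?_
    filter_upwards [self_mem_nhdsWithin] with x hx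
    exact (pt_new G h hi hx).1.symm
  · exact ((DD_tend G hi).inv₀ (G.hD _ (par_valid h)).ne').smul (PP_tend G h hi)

theorem par_top {b : Bool} {i k : ℕ} {μ : Ch} (h : i = M) :
    par M (b, i, k, μ) = (b, 0, 0, er M μ) := if_pos h

theorem par_k {b : Bool} {i k : ℕ} {μ : Ch} (h : i ≠ M) (hk : k = M) :
    par M (b, i, k, μ) = (b, i, 0, er M μ) := by
  simp only [par, if_neg h, if_pos hk]

theorem par_old {b : Bool} {i k : ℕ} {μ : Ch} (h : i ≠ M) (hk : k ≠ M) :
    par M (b, i, k, μ) = (b, i, k, er M μ) := by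
  simp only [par, if_neg h, if_neg hk]

theorem tk_next (G : Good m s) {κ : Key} (h : Valid (m + 1) κ) :
    tk (next s (m + 1) x) κ = tk s (par (m + 1) κ) - 2 * x *
      code (m + 1) (if κ.1 then up κ.2.1 κ.2.2.2 else tr κ.2.2.1 κ.2.2.2) := by
  have hk := top_k h
  have hpv := par_valid h
  obtain ⟨b, i, k, μ⟩ := κ
  simp only at hk
  by_cases h1 : i = m + 1
  · rw [par_top h1] at hpv ⊢
    cases b
    · simp only [tk, Bool.false_eq_true, if_false, next, ntF, hk h1, tr_zero]
    · have a : er (m + 1) μ = 0 := (hpv.2.2.2.1 rfl).1 rfl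
      simp only [tk, if_true, next, er_up, a, up_zero, G.htB]
  by_cases h2 : k = m + 1
  · rw [par_k h1 h2]
    cases b
    · subst h2
      simp only [tk, Bool.false_eq_true, if_false, next, ntF, tr_M h.1, tr_zero]
    · simp only [tk, if_true, next, er_up]
  · rw [par_old h1 h2]
    cases b
    · simp only [tk, Bool.false_eq_true, if_false, next, ntF, er_tr]
    · simp only [tk, if_true, next, er_up]

theorem tk_tend (G : Good m s) {κ : Key} (h : Valid (m + 1) κ) :
    Tendsto (fun x => tk (next s (m + 1) x) κ) (𝓝[>] 0) (𝓝 (tk s (par (m + 1) κ))) := by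
  simp only [tk_next G h]
  exact tend0 (by fun_prop) (by simp)

theorem Ωk_tend (G : Good m s) {κ : Key} (h : Valid (m + 1) κ) :
    Tendsto (fun x => Ωk (next s (m + 1) x) κ) (𝓝[>] 0) (𝓝 (Ωk s (par (m + 1) κ))) := by
  have hk := top_k h
  obtain ⟨b, i, k, μ⟩ := κ
  simp only at hk
  cases b
  · have main : Tendsto (fun x => nv s (m + 1) x μ 0 - ntF s (m + 1) x μ * nv s (m + 1) x μ 3)
        (𝓝[>] 0) (𝓝 (s.Ω 0 (er (m + 1) μ))) := by
      refine tend0 (((continuous_apply 0).comp (nv_cont μ)).sub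
        ((ntF_cont μ).mul ((continuous_apply 3).comp (nv_cont μ)))) ?_
      simp [nv, ntF, G.hΩ]
    simp only [Ωk, Bool.false_eq_true, if_false, next, par]
    by_cases h1 : i = m + 1
    · simp only [if_pos h1, hk h1, true_or, if_true, tr_zero, Bool.false_eq_true, if_false]
      exact main
    · simp only [if_neg h1, Bool.false_eq_true, if_false]
      by_cases h2 : k = m + 1
      · subst h2
        simp only [or_true, if_true, tr_M h.1, tr_zero]
        exact main
      · by_cases h3 : k = 0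
        · subst h3
          simp only [true_or, if_true, tr_zero, ite_self]
          exact main
        · simp only [h2, h3, or_self, if_false, er_tr]
          exact tendsto_const_nhds
  · have : (par (m + 1) (true, i, k, μ)).1 = true := by unfold par; split_ifs <;> rfl
    simp only [Ωk, if_true, this]
    exact tendsto_const_nhds

theorem Ak_tend (G : Good m s) {κ : Key} (h : Valid (m + 1) κ) :
    Tendsto (fun x => Ak (next s (m + 1) x) κ) (𝓝[>] 0) (𝓝 (Ak s (par (m + 1) κ))) := by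
  refine Tendsto.div (Tendsto.mul ?_ (tendsto_const_nhds.sub ?_)) (Ωk_tend G h)
    (G.hΩk _ (par_valid h)).ne'
  · unfold par
    split_ifs with h1
    · simp only [h1, cc_eq]
      exact tend0 (by fun_prop) (by simp [cc, G.σ0])
    · simp only [cc_ne h1]; exact tendsto_const_nhds
    · simp only [cc_ne h1]; exact tendsto_const_nhds
  · unfold par
    split_ifs with h1 h2
    · simp only [top_k h h1, σ_ne (Nat.succ_ne_zero m).symm]; exact tendsto_const_nhds
    · simp only [h2, σ_eq, G.σ0]; exact tend0 continuous_id rfl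
    · simp only [σ_ne h2]; exact tendsto_const_nhds

theorem Ck_next (G : Good m s) {κ : Key} (h : Valid (m + 1) κ) :
    Ck (next s (m + 1) x) κ = Ck s (par (m + 1) κ) +
      if κ.2.2.2 (if κ.1 then κ.2.1 else κ.2.2.1) = m + 1 then x else 0 := by
  have hk := top_k h
  have hb := base_M h.1 (le_refl (m + 1))
  have hb0 := h.1.1
  obtain ⟨b, i, k, μ⟩ := κ
  simp only at hk hb hb0
  by_cases h1 : i = m + 1
  · rw [par_top h1]
    cases b
    · simp only [Ck, Bool.false_eq_true, if_false, σ_er G.σ0, hk h1]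
    · simp only [Ck, if_true, σ_er G.σ0]
      simp [h1, er, hb, hb0]
  by_cases h2 : k = m + 1
  · rw [par_k h1 h2]
    cases b
    · simp only [Ck, Bool.false_eq_true, if_false, σ_er G.σ0]
      simp [h2, er, hb, hb0]
    · simp only [Ck, if_true, σ_er G.σ0]
  · rw [par_old h1 h2]
    cases b
    · simp only [Ck, Bool.false_eq_true, if_false, σ_er G.σ0]
    · simp only [Ck, if_true, σ_er G.σ0]

theorem Ck_tend (G : Good m s) {κ : Key} (h : Valid (m + 1) κ) :
    Tendsto (fun x => Ck (next s (m + 1) x) κ) (𝓝[>] 0) (𝓝 (Ck s (par (m + 1) κ))) := by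
  simp only [Ck_next G h]
  exact tend0 (continuous_const.add (ite_cont _ continuous_id continuous_const)) (by simp)

theorem nv_12 (G : Good m s) (ν : Ch) : nv s M x ν 1 = 0 ∧ nv s M x ν 2 = 0 := by
  simp [nv, Par, G.hv]

theorem vk_12 (G : Good m s) (b : Bool) (ν : Ch) :
    vk (next s M x) b ν 1 = 0 ∧ vk (next s M x) b ν 2 = 0 := by
  cases b
  · exact nv_12 G ν
  · simp [vk, w0]

/-- on keys ending at the limit point or at the new level, the scale is the one of the chain -/
theorem Ωk_chain {κ : Key} (h : Valid (m + 1) κ) (hk : κ.2.2.1 = 0 ∨ κ.2.2.1 = m + 1) :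
    Ωk (next s (m + 1) x) κ = vk (next s (m + 1) x) κ.1 κ.2.2.2 0 -
      tk (next s (m + 1) x) κ * vk (next s (m + 1) x) κ.1 κ.2.2.2 3 := by
  obtain ⟨b, i, k, μ⟩ := κ
  simp only at hk
  cases b
  · have : tr k μ = μ := by
      rcases hk with rfl | rfl
      · exact tr_zero μ
      · exact tr_M h.1
    simp only [Ωk, vk, tk, Bool.false_eq_true, if_false, this, next, if_pos hk]
  · simp [Ωk, vk, w0]

theorem Ωk_pos (G : Good m s) {κ : Key} (h : Valid (m + 1) κ) :
    ∀ᶠ x in 𝓝[>] (0 : ℝ), 0 < Ωk (next s (m + 1) x) κ :=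
  (Ωk_tend G h).eventually (lt_mem_nhds (G.hΩk _ (par_valid h)))

theorem Bk_tend (G : Good m s) {κ : Key} (h : Valid (m + 1) κ) :
    Tendsto (fun x => Bk (next s (m + 1) x) κ) (𝓝[>] 0) (𝓝 (Bk s (par (m + 1) κ))) := by
  by_cases hi : κ.2.1 = m + 1
  · have e : par (m + 1) κ = (κ.1, 0, 0, er (m + 1) κ.2.2.2) := if_pos hi
    have e0 : Bk s (par (m + 1) κ) = 0 := by rw [e]; simp [Bk]
    rw [e0]
    have a : Tendsto (fun x : ℝ => x * (2 - x ^ 4)) (𝓝[>] 0) (𝓝 0) := tend0 (by fun_prop) (by simp)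
    refine a.congr' ?_
    filter_upwards [self_mem_nhdsWithin, Ωk_pos G h] with x hx hΩ
    have hx' : (0 : ℝ) < x := hx
    have hk := top_k h hi
    have hc := Ωk_chain (s := s) (x := x) h (Or.inl hk)
    have h12 := vk_12 (M := m + 1) (x := x) G κ.1 κ.2.2.2
    have hA : Ak (next s (m + 1) x) κ = (1 - x ^ 4) / Ωk (next s (m + 1) x) κ := by
      simp only [Ak, hi, hk, cc_eq, σ_ne (Nat.succ_ne_zero m).symm, G.σ0, sub_zero, mul_one]
    simp only [Bk, if_neg (show κ.2.1 ≠ 0 by omega), (pt_new G h hi hx').1, hA]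
    simp only [dirv, e1, Pi.add_apply, Pi.smul_apply, smul_eq_mul, h12.1, h12.2,
      Matrix.cons_val_zero, Matrix.cons_val_one, Matrix.cons_val, mul_zero, add_zero, zero_add,
      mul_one, sub_zero]
    have : (1 - x ^ 4) * vk (next s (m + 1) x) κ.1 κ.2.2.2 0 - tk (next s (m + 1) x) κ *
        ((1 - x ^ 4) * vk (next s (m + 1) x) κ.1 κ.2.2.2 3) =
        (1 - x ^ 4) * Ωk (next s (m + 1) x) κ := by rw [hc]; ring
    rw [this]
    field_simp
    ring
  · have e : (par (m + 1) κ).2.1 = κ.2.1 := by simp only [par, if_neg hi]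
    by_cases h0 : κ.2.1 = 0
    · simp only [Bk, e, if_pos h0]; exact tendsto_const_nhds
    · simp only [Bk, e, if_neg h0]
      have hp := fun j => (continuous_apply j).continuousAt.tendsto.comp (pt_tend G h)
      exact Tendsto.div ((tendsto_const_nhds.sub ((Ak_tend G h).mul ((hp 0).sub
        ((tk_tend G h).mul (hp 3))))).sub ((Ck_tend G h).mul (hp 2))) (hp 1)
        (G.h1 _ (par_valid h) (by rw [e]; exact h0)).ne'

theorem ph_tend (G : Good m s) {κ : Key} (h : Valid (m + 1) κ) :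
    Tendsto (fun x => ph (next s (m + 1) x) κ) (𝓝[>] 0) (𝓝 (ph s (par (m + 1) κ))) := by
  refine tendsto_pi_nhds.2 fun j => ?_
  fin_cases j
  · exact Ak_tend G h
  · exact Bk_tend G h
  · exact Ck_tend G h
  · exact (Ak_tend G h).neg.mul (tk_tend G h)

end Pool.Agent.H698Z.Wild
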