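import Mathlib
import Pool.Agent.H698Z.WildConv

set_option autoImplicit false
set_option linter.unusedSectionVars false

namespace Pool.Agent.H698Z.Wild

open Set Filter Topology Asymptotics

theorem dot_add (a x y : V) : dot a (x + y) = dot a x + dot a y := by simp [dot]; ring
theorem dot_sub (a x y : V) : dot a (x - y) = dot a x - dot a y := by simp [dot]; ring
theorem dot_smul (a : V) (c : ℝ) (x : V) : dot a (c • x) = c * dot a x := by simp [dot]; ring
theorem dot_zero (a : V) : dot a 0 = 0 := by simp [dot]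

theorem dot_tend {α : Type} {l : Filter α} {a x : α → V} {a0 x0 : V} (ha : Tendsto a l (𝓝 a0))
    (hx : Tendsto x l (𝓝 x0)) : Tendsto (fun t => dot (a t) (x t)) l (𝓝 (dot a0 x0)) := by
  have c : Continuous fun z : V × V => dot z.1 z.2 := by unfold dot; fun_prop
  exact (c.tendsto (a0, x0)).comp (ha.prodMk_nhds hx)

/-- small of order higher than `b` -/
def Sm {E : Type} [NormedAddCommGroup E] (b : ℕ) (f : ℝ → E) : Prop :=
  f =o[𝓝[>] 0] fun x : ℝ => x ^ b

section Sm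
variable {E : Type} [NormedAddCommGroup E] [NormedSpace ℝ E] {b : ℕ} {f h : ℝ → E}

theorem Sm.add (hf : Sm b f) (hh : Sm b h) : Sm b fun x => f x + h x := IsLittleO.add hf hh
theorem Sm.sub (hf : Sm b f) (hh : Sm b h) : Sm b fun x => f x - h x := IsLittleO.sub hf hh
theorem Sm.zero : Sm b fun _ => (0 : E) := isLittleO_zero _ _
theorem Sm.ite (c : Prop) [Decidable c] (hf : Sm b f) : Sm b fun x => if c then f x else 0 := by
  split_ifs
  · exact hf
  · exact Sm.zero

theorem sm_pow {c : ℕ} (hc : b < c) {a : E} (hh : Tendsto h (𝓝[>] 0) (𝓝 a)) :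
    Sm b fun x => x ^ c • h x := by
  have a1 : (fun x : ℝ => x ^ c) =o[𝓝[>] 0] fun x => x ^ b :=
    (isLittleO_pow_pow hc).mono nhdsWithin_le_nhds
  have := a1.smul_isBigO (hh.isBigO_one ℝ)
  simpa [Sm] using this

theorem sm_cont {c : ℕ} (hc : b < c) (hh : Continuous h) : Sm b fun x => x ^ c • h x :=
  sm_pow hc (tend0 hh rfl)

end Sm

theorem sm_WM {b M : ℕ} (h : b < 3 * M + 10) : Sm b (WM M) :=
  sm_cont h (dirv_cont continuous_const)

theorem sm_gWM {b M : ℕ} (h : b < 3 * M + 10) : Sm b fun x => g (WM M x) := by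
  simp only [WM, g_smul]
  exact sm_cont h (g_cont.comp (dirv_cont continuous_const))

theorem parab {φ : ℝ → V} {φ0 : V} (hφ : Tendsto φ (𝓝[>] 0) (𝓝 φ0)) (h0 : 0 < φ0 0)
    {t n1 n2 β : ℝ} (hβ : 0 < β) (hn : n1 ≠ n2) (h3 : ∀ x, φ x 3 = -φ x 0 * (t - 2 * x * n1))
    {a : ℕ} {E : ℝ → V} {F : ℝ → ℝ} (hE : Sm (a + 1) E) (hF : Sm (a + 1) F) :
    ∀ᶠ x in 𝓝[>] (0 : ℝ), dot (φ x) ((β * x ^ a) • (Par n2 t x - Par n1 t x) + E x) < F x := by
  have e1 := dot_tend hφ hE.tendsto_inv_smul_nhds_zero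
  have e2 := hF.tendsto_inv_smul_nhds_zero
  have e3 : Tendsto (fun x => φ x 0) (𝓝[>] 0) (𝓝 (φ0 0)) :=
    (continuous_apply 0).continuousAt.tendsto.comp hφ
  have e4 := (((e3.const_mul (-β * (n2 - n1) ^ 2))).add e1).sub e2
  have hs : 0 < (n2 - n1) ^ 2 := by have := sub_ne_zero.2 hn.symm; positivity
  have e5 : -β * (n2 - n1) ^ 2 * φ0 0 + dot φ0 0 - 0 < 0 := by
    rw [dot_zero]; have := mul_pos (mul_pos hβ hs) h0; linarith
  filter_upwards [e4.eventually (gt_mem_nhds e5), self_mem_nhdsWithin] with x hx hx0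
  have hx0' : (0 : ℝ) < x := hx0
  have hp : 0 < x ^ (a + 1) := by positivity
  have k := mul_lt_mul_of_pos_left hx hp
  rw [dot_smul, smul_eq_mul] at k
  have q1 : x ^ (a + 1) * ((x ^ (a + 1))⁻¹ * dot (φ x) (E x)) = dot (φ x) (E x) := by field_simp
  have q2 : x ^ (a + 1) * ((x ^ (a + 1))⁻¹ * F x) = F x := by field_simp
  rw [mul_sub, mul_add, q1, q2, mul_zero] at k
  have q3 : dot (φ x) ((β * x ^ a) • (Par n2 t x - Par n1 t x)) =
      x ^ (a + 1) * (-β * (n2 - n1) ^ 2 * φ x 0) := by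
    rw [dot_smul]
    simp only [dot, Par, Pi.sub_apply, Matrix.cons_val_zero, Matrix.cons_val_one, Matrix.cons_val,
      h3]
    ring
  rw [dot_add, q3]; linarith

theorem dot_gdir (φ : V) (x : ℝ) : dot φ (g (dirv x w0)) =
    -φ 0 * x ^ 3 / 2 + φ 2 * (1 - x ^ 4 + x ^ 3 / 2) + φ 3 * x ^ 3 := by
  simp [dot, dirv, w0, e1]; ring

theorem dot_dirv (φ v : V) (x : ℝ) : dot φ (dirv x v) = (1 - x ^ 4) * dot φ v + x ^ 3 * φ 1 := by
  rw [dirv, dot_add, dot_smul, dot_smul]; simp [dot, e1]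

theorem G_neg {φ : V} (h : Cap φ) (h2 : φ 2 = 0) {x : ℝ} (hx : 0 < x) :
    dot φ (g (dirv x w0)) < 0 := by
  obtain ⟨a, -, -, d⟩ := h
  rw [abs_lt] at a d
  have : 0 < x ^ 3 := by positivity
  rw [dot_gdir, h2]; nlinarith

theorem G_pos {φ : V} (h : Cap φ) {x : ℝ} (h2 : φ 2 = x) (hx : 0 < x) (hx1 : x < 1 / 100) :
    0 < dot φ (g (dirv x w0)) := by
  obtain ⟨a, -, -, d⟩ := h
  rw [abs_lt] at a d
  have h3 : 0 < x ^ 3 := by positivity
  have h4 : x ^ 2 < 1 / 100 := by nlinarith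
  have h5 : x ^ 3 < x / 100 := by nlinarith
  have h6 : x ^ 4 < 1 / 100 := by nlinarith
  have h7 : x * x ^ 4 < x / 100 := by nlinarith
  have h8 : 0 < x * x ^ 3 := by positivity
  rw [dot_gdir, h2]; nlinarith

theorem H_neg {φ v : V} (h : Cap φ) {x c : ℝ} (hc : c ≤ 1) (hv : dot φ v = c) (hx : 0 < x)
    (hx1 : x < 1 / 100) : c - x ^ 2 - dot φ (dirv x v) < 0 := by
  obtain ⟨-, b, -, -⟩ := h
  rw [abs_lt] at b
  have h2 : 0 < x ^ 2 := by positivity
  have h3 : 0 < x ^ 3 := by positivity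
  have h4 : 0 < x ^ 4 := by positivity
  have h5 : x ^ 3 < x ^ 2 / 100 := by nlinarith
  have h6 : x ^ 4 < x ^ 2 / 100 := by nlinarith
  rw [dot_dirv, hv]; nlinarith

theorem H_pos {φ v : V} (h : Cap φ) {x c : ℝ} (hc0 : 15 / 16 ≤ c)
    (hv : dot φ v = c * (1 - x)) (hx : 0 < x)
    (hx1 : x < 1 / 100) : 0 < c - x ^ 2 - dot φ (dirv x v) := by
  obtain ⟨-, b, -, -⟩ := h
  rw [abs_lt] at b
  have h2 : x ^ 2 < x / 100 := by nlinarith
  have h3 : 0 < x ^ 3 := by positivity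
  have h5 : x ^ 3 < x / 100 := by nlinarith
  have h6 : 0 < x ^ 4 * (c * (1 - x)) := by
    have : 0 < 1 - x := by linarith
    have : 0 < c := by linarith
    positivity
  rw [dot_dirv, hv]; nlinarith

theorem grid {φ v : V} {x c d : ℝ} (h : Cap φ) (hx : 0 < x) (hx1 : x < 1 / 100) (hc0 : 15 / 16 ≤ c)
    (hc1 : c ≤ 1) (hd : 0 < d) {p1 p2 q1 q2 : Prop} [Decidable p1] [Decidable p2] [Decidable q1]
    [Decidable q2] (hp : ¬(p1 ↔ p2) → φ 2 = if p1 then x else 0)
    (hq : ¬(q1 ↔ q2) → dot φ v = c * (1 - if q1 then x else 0))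
    (hne : ¬(p1 ↔ p2) ∨ ¬(q1 ↔ q2)) :
    dot φ (((if p2 then g (d • dirv x w0) else 0) - (if q2 then d • dirv x v else 0)) -
      ((if p1 then g (d • dirv x w0) else 0) - (if q1 then d • dirv x v else 0))) <
      (if q2 then d * (x ^ 2 - c) else 0) - (if q1 then d * (x ^ 2 - c) else 0) := by
  have A : dot φ ((if p2 then g (d • dirv x w0) else 0) - (if p1 then g (d • dirv x w0) else 0))
      ≤ 0 ∧ (¬(p1 ↔ p2) → dot φ ((if p2 then g (d • dirv x w0) else 0) -
        (if p1 then g (d • dirv x w0) else 0)) < 0) := by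
    by_cases a : p1 <;> by_cases b : p2
    · simp [a, b, dot_zero]
    · have := mul_pos hd (G_pos h (by rw [hp (by tauto), if_pos a]) hx hx1)
      simp only [if_pos a, if_neg b, dot_sub, dot_zero, g_smul, dot_smul]
      exact ⟨by linarith, fun _ => by linarith⟩
    · have := mul_neg_of_pos_of_neg hd (G_neg h (by rw [hp (by tauto), if_neg a]) hx)
      simp only [if_neg a, if_pos b, dot_sub, dot_zero, g_smul, dot_smul]
      exact ⟨by linarith, fun _ => by linarith⟩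
    · simp [a, b, dot_zero]
  have B : dot φ ((if q1 then d • dirv x v else 0) - (if q2 then d • dirv x v else 0))
      ≤ (if q2 then d * (x ^ 2 - c) else 0) - (if q1 then d * (x ^ 2 - c) else 0) ∧
      (¬(q1 ↔ q2) → dot φ ((if q1 then d • dirv x v else 0) - (if q2 then d • dirv x v else 0))
      < (if q2 then d * (x ^ 2 - c) else 0) - (if q1 then d * (x ^ 2 - c) else 0)) := by
    by_cases a : q1 <;> by_cases b : q2
    · simp [a, b, dot_zero]
    · have := mul_pos hd (H_pos h hc0 (by rw [hq (by tauto), if_pos a]) hx hx1)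
      simp only [if_pos a, if_neg b, dot_sub, dot_zero, dot_smul]
      exact ⟨by linarith, fun _ => by linarith⟩
    · have := mul_neg_of_pos_of_neg hd
        (H_neg h hc1 (by rw [hq (by tauto), if_neg a, sub_zero, mul_one]) hx hx1)
      simp only [if_neg a, if_pos b, dot_sub, dot_zero, dot_smul]
      exact ⟨by linarith, fun _ => by linarith⟩
    · simp [a, b, dot_zero]
  simp only [dot_sub] at A B ⊢
  rcases hne with a | a
  · linarith [A.2 a, B.1]
  · linarith [A.1, B.2 a]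

theorem red {φ P1 P2 : V} {D1 D2 : ℝ} (h1 : 0 < D1) (h2 : 0 < D2)
    (ho : dot φ (D1⁻¹ • P1) = 1) (h : dot φ (P2 - P1) < D2 - D1) : dot φ (D2⁻¹ • P2) < 1 := by
  rw [dot_smul] at ho ⊢
  rw [dot_sub] at h
  have : dot φ P1 = D1 := by field_simp at ho; linarith
  rw [inv_mul_lt_iff₀ h2]; linarith

theorem cap_ev {α : Type} {l : Filter α} {f : α → V} {a : V} (h : Tendsto f l (𝓝 a)) (ha : Cap a) :
    ∀ᶠ t in l, Cap (f t) := by
  have o : IsOpen {p : V | Cap p} := by
    simp only [Cap, setOf_and]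
    refine IsOpen.inter ?_ (IsOpen.inter ?_ (IsOpen.inter ?_ ?_)) <;>
      exact isOpen_lt (by fun_prop) continuous_const
  exact h.eventually (o.mem_nhds ha)

theorem small_ev {ε : ℝ} (h : 0 < ε) : ∀ᶠ x in 𝓝[>] (0 : ℝ), 0 < x ∧ x < ε := by
  filter_upwards [Ioo_mem_nhdsGT h] with x hx using hx

end Pool.Agent.H698Z.Wild
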