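import Mathlib
import Pool.Agent.H698Z.WildPar

set_option autoImplicit false
set_option linter.unusedSectionVars false

namespace Pool.Agent.H698Z.Wild

open Set Filter Topology Asymptotics

variable {s : St} {m : ℕ}

theorem ev_D (G : Good m s) {κ : Key} (h : Valid (m + 1) κ) :
    ∀ᶠ x in 𝓝[>] (0 : ℝ), 0 < DD (next s (m + 1) x).σ κ.2.1 κ.2.2.1 := by
  by_cases hi : κ.2.1 = m + 1
  · filter_upwards [self_mem_nhdsWithin] with x hx
    have hx' : (0 : ℝ) < x := hx
    rw [(pt_new G h hi hx').2]; positivity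
  · exact (DD_tend G hi).eventually (lt_mem_nhds (G.hD _ (par_valid h)))

theorem ev_h1 (G : Good m s) {κ : Key} (h : Valid (m + 1) κ) :
    ∀ᶠ x in 𝓝[>] (0 : ℝ), κ.2.1 ≠ 0 → 0 < pt (next s (m + 1) x) κ 1 := by
  by_cases h0 : κ.2.1 = 0
  · exact Eventually.of_forall fun x a => absurd h0 a
  by_cases hi : κ.2.1 = m + 1
  · filter_upwards [self_mem_nhdsWithin] with x hx _
    have hx' : (0 : ℝ) < x := hx
    rw [(pt_new G h hi hx').1]
    simp only [dirv, e1, Pi.add_apply, Pi.smul_apply, smul_eq_mul, (vk_12 G _ _).1,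
      Matrix.cons_val_one, Matrix.cons_val_zero, mul_zero, zero_add, mul_one]
    positivity
  · have e : (par (m + 1) κ).2.1 = κ.2.1 := by simp only [par, if_neg hi]
    have := ((continuous_apply 1).continuousAt.tendsto.comp (pt_tend G h)).eventually
      (lt_mem_nhds (G.h1 _ (par_valid h) (by rw [e]; exact h0)))
    filter_upwards [this] with x hx _ using hx

theorem next_σ0 (G : Good m s) (x : ℝ) : (next s (m + 1) x).σ 0 = 0 := by
  rw [σ_ne (Nat.succ_ne_zero m).symm, G.σ0]

theorem code_zero : code (m + 1) 0 = 0 := code_eq_zero fun l => by simp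

theorem next_SB (G : Good m s) (x : ℝ) (i : ℕ) : (next s (m + 1) x).SB i 0 = 0 := by
  simp [next, er_zero, G.hSB, code_zero, Par_zero]

theorem next_tB (G : Good m s) (x : ℝ) (i : ℕ) : (next s (m + 1) x).tB i 0 = 0 := by
  simp [next, er_zero, G.htB, code_zero]

theorem next_Ω (x : ℝ) (ν : Ch) : (next s (m + 1) x).Ω 0 ν =
    (next s (m + 1) x).v ν 0 - (next s (m + 1) x).tF ν * (next s (m + 1) x).v ν 3 := by
  simp [next]

theorem ev_one (G : Good m s) {κ : Key} (h : Valid (m + 1) κ) :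
    ∀ᶠ x in 𝓝[>] (0 : ℝ), dot (ph (next s (m + 1) x) κ) (pt (next s (m + 1) x) κ) = 1 := by
  filter_upwards [ev_h1 G h, Ωk_pos G h] with x a b
  exact dot_one (next_σ0 G x) (next_tB G x 0) (fun ν => nv_12 G ν) (next_Ω x) h a b

theorem ev_capφ (G : Good m s) {κ : Key} (h : Valid (m + 1) κ) :
    ∀ᶠ x in 𝓝[>] (0 : ℝ), Cap (ph (next s (m + 1) x) κ) :=
  cap_ev (ph_tend G h) (G.hφ _ (par_valid h))

theorem ev_capp (G : Good m s) {κ : Key} (h : Valid (m + 1) κ) :
    ∀ᶠ x in 𝓝[>] (0 : ℝ), Cap (pt (next s (m + 1) x) κ) :=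
  cap_ev (pt_tend G h) (G.hp _ (par_valid h))

theorem ph0_pos (G : Good m s) {κ : Key} (h : Valid m κ) : 0 < ph s κ 0 := by
  have := (G.hφ κ h).1
  rw [abs_lt] at this; linarith

theorem ph3 (G : Good m s) {κ : Key} (h : Valid (m + 1) κ) (x : ℝ) :
    ph (next s (m + 1) x) κ 3 = -ph (next s (m + 1) x) κ 0 * (tk s (par (m + 1) κ) - 2 * x *
      code (m + 1) (if κ.1 then up κ.2.1 κ.2.2.2 else tr κ.2.2.1 κ.2.2.2)) := by
  rw [← tk_next G h]; rfl

theorem cc_bd (G : Good m s) (i : ℕ) : 15 / 16 ≤ cc s.σ i ∧ cc s.σ i ≤ 1 := by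
  obtain ⟨a, b⟩ := G.σb i
  have h1 : s.σ i ^ 4 ≤ (1 / 2) ^ 4 := pow_le_pow_left₀ a b 4
  have h2 : 0 ≤ s.σ i ^ 4 := by positivity
  unfold cc; constructor <;> linarith

/-- value of the functional on the chain direction -/
theorem dot_vk (G : Good m s) {κ : Key} (h : Valid (m + 1) κ)
    (hk : κ.2.2.1 = 0 ∨ κ.2.2.1 = m + 1) {x : ℝ} (hΩ : 0 < Ωk (next s (m + 1) x) κ) :
    dot (ph (next s (m + 1) x) κ) (vk (next s (m + 1) x) κ.1 κ.2.2.2) =
      cc (next s (m + 1) x).σ κ.2.1 * (1 - if κ.2.2.1 = m + 1 then x else 0) := by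
  have hc := Ωk_chain (s := s) (x := x) h hk
  have h12 := vk_12 (M := m + 1) (x := x) G κ.1 κ.2.2.2
  have hσ : (next s (m + 1) x).σ κ.2.2.1 = if κ.2.2.1 = m + 1 then x else 0 := by
    rcases hk with a | a
    · rw [a, next_σ0 G, if_neg (Nat.succ_ne_zero m).symm]
    · rw [a, σ_eq, if_pos rfl]
  have e : dot (ph (next s (m + 1) x) κ) (vk (next s (m + 1) x) κ.1 κ.2.2.2) =
      Ak (next s (m + 1) x) κ * Ωk (next s (m + 1) x) κ := by
    rw [hc]
    simp only [dot, ph, h12.1, h12.2, Matrix.cons_val_zero, Matrix.cons_val_one, Matrix.cons_val]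
    ring
  rw [e, Ak, hσ]; field_simp

/-- remainder of a backward key -/
noncomputable def RB (s : St) (M : ℕ) (x : ℝ) (k : ℕ) (μ : Ch) : V :=
  if k = 0 ∨ k = M then 0 else
    x ^ (3 * k) • Par (code M (up k μ)) (s.tB k (er M (up k μ))) x +
      if μ k = M then g (WM M x) else 0

theorem PP_B (G : Good m s) {i k : ℕ} {μ : Ch} (h : Valid (m + 1) (true, i, k, μ)) (h0 : i ≠ 0)
    (hi : i ≠ m + 1) (x : ℝ) :
    PP (next s (m + 1) x) (true, i, k, μ) = PP s (par (m + 1) (true, i, k, μ)) +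
      x ^ (3 * i) • Par (code (m + 1) (up i μ)) (tk s (par (m + 1) (true, i, k, μ))) x +
      ((if μ i = m + 1 then g (WM (m + 1) x) else 0) - if k = m + 1 then WM (m + 1) x else 0) -
      RB s (m + 1) x k μ := by
  by_cases hk : k = m + 1
  · rw [par_k hi hk]
    subst hk
    simp only [PP, if_neg h0, if_true, YB_next G.σ0 h0 hi,
      YB_new G.σ0 (G.hSB _) (Nat.succ_ne_zero m) h.1, YB_zero, tk, RB, or_true]
    abel
  · rw [par_old hi hk]
    by_cases hk0 : k = 0
    · subst hk0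
      simp only [PP, if_neg h0, if_true, YB_next G.σ0 h0 hi, YB_zero, tk, RB, true_or, if_neg hk]
      abel
    · have : ¬(k = 0 ∨ k = m + 1) := by tauto
      simp only [PP, if_neg h0, if_true, YB_next G.σ0 h0 hi, YB_next G.σ0 hk0 hk, tk, RB,
        if_neg this, if_neg hk, er_up]
      abel

theorem PP_F (G : Good m s) {i k : ℕ} {ν : Ch} (h : Valid (m + 1) (false, i, k, ν)) (h0 : i ≠ 0)
    (hi : i ≠ m + 1) (x : ℝ) :
    PP (next s (m + 1) x) (false, i, k, ν) = PP s (par (m + 1) (false, i, k, ν)) +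
      (x * ((if k = 0 then m + 1 else k : ℕ) : ℝ)) •
        Par (code (m + 1) (tr k ν)) (tk s (par (m + 1) (false, i, k, ν))) x +
      ((if ν k = m + 1 then g (WM (m + 1) x) else 0) -
        if k = m + 1 then x ^ (3 * (m + 1) + 10) • dirv x (nv s (m + 1) x ν) else 0) -
      ((x * (i : ℝ)) • Par (code (m + 1) (tr i ν)) (s.tF (er (m + 1) (tr i ν))) x +
        if ν i = m + 1 then g (WM (m + 1) x) else 0) := by
  by_cases hk : k = m + 1
  · rw [par_k hi hk]
    subst hk
    have a1 : ν (m + 1) ≠ m + 1 := by have := base_M (μ := ν) h.1 le_rfl; omega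
    have a2 : ν 0 ≠ m + 1 := by have : ν 0 = 0 := h.1.1; omega
    simp only [PP, if_neg h0, Bool.false_eq_true, if_false, if_true, YF_next G.σ0 hi,
      YF_new (Nat.succ_ne_zero m) h.1, YF_next G.σ0 (Nat.succ_ne_zero m).symm, tk,
      if_neg (Nat.succ_ne_zero m), tr_M h.1, tr_zero, if_neg a1, if_neg a2, er_tr]
    abel
  · rw [par_old hi hk]
    simp only [PP, if_neg h0, Bool.false_eq_true, if_false, YF_next G.σ0 hi, YF_next G.σ0 hk, tk,
      if_neg hk, er_tr]
    abel

theorem sm_RB {i k : ℕ} {μ : Ch} (h : Valid (m + 1) (true, i, k, μ)) :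
    Sm (3 * i + 1) fun x => RB s (m + 1) x k μ := by
  have h1 : i ≤ m + 1 := h.2.1
  have h2 : k = 0 ∨ 1 ≤ i ∧ i < k ∧ k ≤ m + 1 := h.2.2.1
  unfold RB
  split_ifs with a b
  · exact Sm.zero
  · exact (sm_cont (by omega) (Par_cont _ _)).add (sm_gWM (by omega))
  · exact (sm_cont (by omega) (Par_cont _ _)).add Sm.zero

theorem sm_DD {b : ℕ} (hb : b < 3 * (m + 1) + 10) (c : ℝ) (p q : Prop) [Decidable p] [Decidable q] :
    Sm b fun x : ℝ => (if p then x ^ (3 * (m + 1) + 10) * (x ^ 2 - c) else 0) -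
      (if q then x ^ (3 * (m + 1) + 10) * (x ^ 2 - c) else 0) := by
  have : Sm b fun x : ℝ => x ^ (3 * (m + 1) + 10) * (x ^ 2 - c) :=
    sm_cont (h := fun x : ℝ => x ^ 2 - c) hb (by fun_prop)
  exact (this.ite p).sub (this.ite q)

theorem base_lt {M : ℕ} {μ : Ch} (h : Base M μ) (h0 : M ≠ 0) (l : ℕ) (a : μ l = M) : l < M := by
  have := h.2 l (by omega); omega

theorem par_comp {M : ℕ} {b : Bool} {i k : ℕ} {μ : Ch} (h : i ≠ M) :
    par M (b, i, k, μ) = (b, i, if k = M then 0 else k, er M μ) := if_neg h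

theorem fib_B (G : Good m s) {i k1 k2 : ℕ} {μ1 μ2 : Ch} (h1 : Valid (m + 1) (true, i, k1, μ1))
    (h2 : Valid (m + 1) (true, i, k2, μ2)) (h0 : i ≠ 0) (hi : i ≠ m + 1)
    (hp : par (m + 1) (true, i, k1, μ1) = par (m + 1) (true, i, k2, μ2))
    (hne : ¬(k1 = k2 ∧ μ1 = μ2)) :
    ∀ᶠ x in 𝓝[>] (0 : ℝ), dot (ph (next s (m + 1) x) (true, i, k1, μ1))
      (PP (next s (m + 1) x) (true, i, k2, μ2) - PP (next s (m + 1) x) (true, i, k1, μ1)) <
      DD (next s (m + 1) x).σ i k2 - DD (next s (m + 1) x).σ i k1 := by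
  have hp' := hp
  rw [par_comp hi, par_comp hi] at hp'
  simp only [Prod.mk.injEq, true_and] at hp'
  obtain ⟨hk, he⟩ := hp'
  have hi1 : i ≤ m + 1 := h1.2.1
  have eD : ∀ x, DD (next s (m + 1) x).σ i k2 - DD (next s (m + 1) x).σ i k1 =
      (if k2 = m + 1 then x ^ (3 * (m + 1) + 10) * (x ^ 2 - cc s.σ i) else 0) -
      (if k1 = m + 1 then x ^ (3 * (m + 1) + 10) * (x ^ 2 - cc s.σ i) else 0) := by
    intro x
    rw [DD_next hi G.σ0 h0, DD_next hi G.σ0 h0, hk]; ring
  simp only [eD, PP_B G h1 h0 hi, PP_B G h2 h0 hi, hp]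
  by_cases hn : code (m + 1) (up i μ1) = code (m + 1) (up i μ2)
  · have hu : up i μ1 = up i μ2 := by
      refine code_inj (fun l a => ?_) (fun l a => ?_) (by rw [er_up, er_up, he]) hn
      · simp only [up] at a; split_ifs at a
        exact base_lt h1.1 (Nat.succ_ne_zero m) l a
      · simp only [up] at a; split_ifs at a
        exact base_lt h2.1 (Nat.succ_ne_zero m) l a
    have hgt : ∀ l, i < l → μ1 l = μ2 l := fun l hl => by
      have := congrFun hu l
      simpa only [up, if_pos hl] using this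
    have hR : ∀ x, RB s (m + 1) x k1 μ1 = RB s (m + 1) x k2 μ2 := by
      intro x
      by_cases a : k1 = 0 ∨ k1 = m + 1
      · have b : k2 = 0 ∨ k2 = m + 1 := by split_ifs at hk <;> omega
        simp only [RB, if_pos a, if_pos b]
      · have b : k1 = k2 := by split_ifs at hk <;> omega
        subst b
        have c : i < k1 := by have := h1.2.2.1; simp only at this; omega
        have d : up k1 μ1 = up k1 μ2 := by
          funext l; simp only [up]; split_ifs with q
          · exact hgt l (by omega)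
          · rfl
        simp only [RB, d, hgt k1 c]
    have hne' : ¬(μ1 i = m + 1 ↔ μ2 i = m + 1) ∨ ¬(k1 = m + 1 ↔ k2 = m + 1) := by
      by_contra a
      push Not at a
      apply hne
      refine ⟨by split_ifs at hk <;> omega, funext fun l => ?_⟩
      rcases lt_trichotomy l i with q | q | q
      · have b1 : μ1 l = 0 := by
          by_contra b; have := (h1.2.2.2.1 rfl).2 l b; simp only at this; omega
        have b2 : μ2 l = 0 := by
          by_contra b; have := (h2.2.2.2.1 rfl).2 l b; simp only at this; omega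
        rw [b1, b2]
      · subst q
        have := congrFun he l
        simp only [er] at this
        split_ifs at this <;> omega
      · exact hgt l q
    filter_upwards [ev_capφ G h1, small_ev (show (0 : ℝ) < 1 / 100 by norm_num), Ωk_pos G h1]
      with x hc hx hΩ
    have := grid (v := w0) (c := cc s.σ i) (d := x ^ (3 * (m + 1) + 10)) hc hx.1 hx.2
      (cc_bd G i).1 (cc_bd G i).2 (pow_pos hx.1 _) (p1 := μ1 i = m + 1) (p2 := μ2 i = m + 1)
      (q1 := k1 = m + 1) (q2 := k2 = m + 1) (fun a => ?_) (fun a => ?_) hne'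
    · rw [hR x, hn]
      convert this using 2
      simp only [WM]; abel
    · show (next s (m + 1) x).σ (μ1 i) = _
      rw [σ_er G.σ0]
      have : er (m + 1) μ1 i = 0 := by
        by_cases b : μ1 i = m + 1
        · simp [er, b]
        · rw [he]; simp [er, show μ2 i = m + 1 by tauto]
      rw [this, G.σ0, zero_add]
    · have := dot_vk G h1 (by simp only; split_ifs at hk <;> omega) hΩ
      rw [cc_ne hi] at this
      exact this
  · have := parab (ph_tend G h1) (ph0_pos G (par_valid h1)) (β := 1) one_pos hn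
      (t := tk s (par (m + 1) (true, i, k1, μ1))) (ph3 G h1) (a := 3 * i)
      (E := fun x => (((if μ2 i = m + 1 then g (WM (m + 1) x) else 0) -
        if k2 = m + 1 then WM (m + 1) x else 0) - RB s (m + 1) x k2 μ2) -
        (((if μ1 i = m + 1 then g (WM (m + 1) x) else 0) -
        if k1 = m + 1 then WM (m + 1) x else 0) - RB s (m + 1) x k1 μ1))
      (((((sm_gWM (by omega)).ite _).sub ((sm_WM (by omega)).ite _)).sub (sm_RB h2)).sub
        ((((sm_gWM (by omega)).ite _).sub ((sm_WM (by omega)).ite _)).sub (sm_RB h1)))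
      (sm_DD (m := m) (by omega) (cc s.σ i) (k2 = m + 1) (k1 = m + 1))
    filter_upwards [this] with x hx
    rw [hp] at hx
    convert hx using 2
    rw [one_mul, smul_sub]; abel

theorem code_ne {M : ℕ} {μ : Ch} {l : ℕ} (h : μ l = M) (hl : l < M) : code M μ ≠ 0 := by
  unfold code codeN
  have : 0 < ∑ l ∈ (Finset.range M).filter (fun l => μ l = M), 2 ^ l :=
    Finset.sum_pos (fun _ _ => by positivity) ⟨l, by simp [h, hl]⟩
  exact_mod_cast this.ne'

theorem code_ex {M : ℕ} {μ : Ch} (h : code M μ ≠ 0) : ∃ l, μ l = M := by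
  by_contra a
  push Not at a
  exact h (code_eq_zero a)

theorem mut_top {i k : ℕ} {ν : Ch} (h : Valid (m + 1) (false, i, k, ν)) {l l' : ℕ}
    (a : ν l = m + 1) (b : l < l') : ν l' = 0 := by
  by_contra c
  have h0 : ν 0 = 0 := h.1.1
  have l1 : 1 ≤ l := by
    by_contra d
    have : l = 0 := by omega
    subst this; omega
  have := ((h.2.2.2.2 rfl).1 l l' l1 b c).2
  have := (h.1.2 l' c).2
  simp only at *
  omega

theorem mut_le {i k k' : ℕ} {ν ν' : Ch} (h : Valid (m + 1) (false, i, k, ν))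
    (h' : Valid (m + 1) (false, i, k', ν')) (he : er (m + 1) ν = er (m + 1) ν') {l l' : ℕ}
    (a : ν l = m + 1) (b : ν' l' = m + 1) : l' ≤ l := by
  by_contra c
  have h0 : ν 0 = 0 := h.1.1
  have l1 : 1 ≤ l := by
    by_contra d
    have : l = 0 := by omega
    subst this; omega
  have d := (h'.2.2.2.2 rfl).1 l l' l1 (by omega) (by simp only; omega)
  have e := congrFun he l
  simp only [er, if_pos a] at e d
  split_ifs at e <;> omega

theorem keyF {i k k' : ℕ} {ν ν' : Ch} (h : Valid (m + 1) (false, i, k, ν))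
    (h' : Valid (m + 1) (false, i, k', ν')) (he : er (m + 1) ν = er (m + 1) ν') (h0 : i ≠ 0)
    (hi : i ≠ m + 1) (c : Prop) [Decidable c]
    (hc : c ↔ (code (m + 1) (tr i ν) ≠ 0 ∨ code (m + 1) (tr i ν') ≠ 0)) (x K : ℝ) :
    (x * K) • Par (code (m + 1) (tr k ν)) (tk s (par (m + 1) (false, i, k, ν))) x -
      (x * (i : ℝ)) • Par (code (m + 1) (tr i ν)) (s.tF (er (m + 1) (tr i ν))) x =
    ((K - if c then (i : ℝ) else 0) * x ^ 1) •
      Par (code (m + 1) (tr k ν)) (tk s (par (m + 1) (false, i, k, ν))) x := by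
  have hk : k = 0 ∨ 1 ≤ i ∧ i < k ∧ k ≤ m + 1 := h.2.2.1
  by_cases a : code (m + 1) (tr i ν) = 0
  · by_cases b : code (m + 1) (tr i ν') = 0
    · have : ¬c := by rw [hc]; tauto
      rw [a, Par_zero, if_neg this]; simp [mul_comm]
    · have d : code (m + 1) (tr k ν) = 0 := by
        by_contra d
        obtain ⟨l, hl⟩ := code_ex d
        obtain ⟨l', hl'⟩ := code_ex b
        simp only [tr] at hl hl'
        split_ifs at hl hl' with q1 q2
        have e1 := mut_le h h' he hl hl'
        have e2 := mut_le h' h he.symm hl' hl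
        have e3 : l = l' := by omega
        subst e3
        exact code_ne (l := l) (by simp only [tr, if_pos q2, hl])
          (base_lt h.1 (Nat.succ_ne_zero m) l hl) a
      rw [a, d, Par_zero, Par_zero]; simp
  · have hc' : c := hc.2 (Or.inl a)
    obtain ⟨l, hl⟩ := code_ex a
    simp only [tr] at hl
    split_ifs at hl with q
    have e : ∀ j, (j = 0 ∨ i ≤ j) → tr j ν = ν := fun j hj => by
      funext l'; simp only [tr]; split_ifs with r
      · rfl
      · exact (mut_top h hl (by omega)).symm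
    rw [par_comp hi]
    simp only [tk, Bool.false_eq_true, if_false, if_pos hc', ← er_tr]
    rw [e i (by omega), e k (by omega), e _ (by split_ifs <;> omega), ← sub_smul]
    congr 1; ring

theorem fib_F (G : Good m s) {i k1 k2 : ℕ} {ν1 ν2 : Ch} (h1 : Valid (m + 1) (false, i, k1, ν1))
    (h2 : Valid (m + 1) (false, i, k2, ν2)) (h0 : i ≠ 0) (hi : i ≠ m + 1)
    (hp : par (m + 1) (false, i, k1, ν1) = par (m + 1) (false, i, k2, ν2))
    (hne : ¬(k1 = k2 ∧ ν1 = ν2)) :
    ∀ᶠ x in 𝓝[>] (0 : ℝ), dot (ph (next s (m + 1) x) (false, i, k1, ν1))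
      (PP (next s (m + 1) x) (false, i, k2, ν2) - PP (next s (m + 1) x) (false, i, k1, ν1)) <
      DD (next s (m + 1) x).σ i k2 - DD (next s (m + 1) x).σ i k1 := by
  have hp' := hp
  rw [par_comp hi, par_comp hi] at hp'
  simp only [Prod.mk.injEq, true_and] at hp'
  obtain ⟨hk, he⟩ := hp'
  have hi1 : i ≤ m + 1 := h1.2.1
  have hk1 : k1 = 0 ∨ 1 ≤ i ∧ i < k1 ∧ k1 ≤ m + 1 := h1.2.2.1
  have hk2 : k2 = 0 ∨ 1 ≤ i ∧ i < k2 ∧ k2 ≤ m + 1 := h2.2.2.1
  have eD : ∀ x, DD (next s (m + 1) x).σ i k2 - DD (next s (m + 1) x).σ i k1 =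
      (if k2 = m + 1 then x ^ (3 * (m + 1) + 10) * (x ^ 2 - cc s.σ i) else 0) -
      (if k1 = m + 1 then x ^ (3 * (m + 1) + 10) * (x ^ 2 - cc s.σ i) else 0) := by
    intro x
    rw [DD_next hi G.σ0 h0, DD_next hi G.σ0 h0, hk]; ring
  have hK : (if k2 = 0 then m + 1 else k2) = (if k1 = 0 then m + 1 else k1) := by
    split_ifs at hk ⊢ <;> omega
  have top : ∀ {k : ℕ} {ν : Ch}, Base (m + 1) ν → (k = 0 ∨ k = m + 1) → tr k ν = ν := by
    intro k ν a b
    rcases b with rfl | rfl
    · exact tr_zero ν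
    · exact tr_M a
  have ht : tr k2 ν2 = tr k1 ν2 := by
    by_cases a : k1 = k2
    · rw [a]
    · rw [top h2.1 (by split_ifs at hk <;> omega), top h2.1 (by split_ifs at hk <;> omega)]
  simp only [eD, PP_F G h1 h0 hi, PP_F G h2 h0 hi, hp, hK]
  by_cases hn : code (m + 1) (tr k1 ν1) = code (m + 1) (tr k2 ν2)
  · have hu : tr k1 ν1 = tr k1 ν2 := by
      rw [ht] at hn
      refine code_inj (fun l a => ?_) (fun l a => ?_) (by rw [er_tr, er_tr, he]) hn
      · simp only [tr] at a; split_ifs at a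
        exact base_lt h1.1 (Nat.succ_ne_zero m) l a
      · simp only [tr] at a; split_ifs at a
        exact base_lt h2.1 (Nat.succ_ne_zero m) l a
    have hlt : ∀ l, (k1 = 0 ∨ l < k1) → ν1 l = ν2 l := fun l hl => by
      have := congrFun hu l
      simpa only [tr, if_pos hl] using this
    have hti : tr i ν1 = tr i ν2 := by
      funext l; simp only [tr]; split_ifs with q
      · exact hlt l (by omega)
      · rfl
    have hii : ν1 i = ν2 i := hlt i (by omega)
    have hne' : ¬(ν1 k1 = m + 1 ↔ ν2 k2 = m + 1) ∨ ¬(k1 = m + 1 ↔ k2 = m + 1) := by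
      by_contra a
      push Not at a
      apply hne
      have b : k1 = k2 := by split_ifs at hk <;> omega
      subst b
      refine ⟨rfl, funext fun l => ?_⟩
      by_cases q0 : k1 = 0
      · exact hlt l (Or.inl q0)
      rcases lt_trichotomy l k1 with q | q | q
      · exact hlt l (Or.inr q)
      · subst q
        have := congrFun he l
        simp only [er] at this
        split_ifs at this <;> omega
      · have b1 : ν1 l = 0 := by
          by_contra b; have := (h1.2.2.2.2 rfl).2 q0 l b; simp only at this; omega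
        have b2 : ν2 l = 0 := by
          by_contra b; have := (h2.2.2.2.2 rfl).2 q0 l b; simp only at this; omega
        rw [b1, b2]
    filter_upwards [ev_capφ G h1, small_ev (show (0 : ℝ) < 1 / 100 by norm_num), Ωk_pos G h1]
      with x hc hx hΩ
    have e2 : (if k2 = m + 1 then x ^ (3 * (m + 1) + 10) • dirv x (nv s (m + 1) x ν2) else 0) =
        (if k2 = m + 1 then x ^ (3 * (m + 1) + 10) • dirv x (nv s (m + 1) x ν1) else 0) := by
      by_cases a : k2 = m + 1
      · have b : k1 = 0 ∨ k1 = m + 1 := by split_ifs at hk <;> omega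
        rw [top (ν := ν1) h1.1 b, top (ν := ν2) h2.1 b] at hu
        rw [hu]
      · simp only [if_neg a]
    have := grid (v := nv s (m + 1) x ν1) (c := cc s.σ i) (d := x ^ (3 * (m + 1) + 10)) hc hx.1 hx.2
      (cc_bd G i).1 (cc_bd G i).2 (pow_pos hx.1 _) (p1 := ν1 k1 = m + 1) (p2 := ν2 k2 = m + 1)
      (q1 := k1 = m + 1) (q2 := k2 = m + 1) (fun a => ?_) (fun a => ?_) hne'
    · rw [hti, hii, hn, e2]
      convert this using 2
      simp only [WM]; abel
    · show (next s (m + 1) x).σ (ν1 k1) = _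
      rw [σ_er G.σ0]
      have : er (m + 1) ν1 k1 = 0 := by
        by_cases b : ν1 k1 = m + 1
        · simp [er, b]
        · have c : ν2 k2 = m + 1 := by tauto
          have c0 : ν2 0 = 0 := h2.1.1
          have c1 : ν2 (m + 1) = 0 := base_M h2.1 le_rfl
          have c2 : k2 ≠ 0 := by rintro rfl; omega
          have c3 : k2 ≠ m + 1 := by rintro rfl; omega
          have c4 : k1 = k2 := by split_ifs at hk <;> omega
          rw [he, c4]; simp [er, c]
      rw [this, G.σ0, zero_add]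
    · have := dot_vk G h1 (by simp only; split_ifs at hk <;> omega) hΩ
      rw [cc_ne hi] at this
      exact this
  · classical
    have hβ : (0 : ℝ) < ((if k1 = 0 then m + 1 else k1 : ℕ) : ℝ) -
        if (code (m + 1) (tr i ν1) ≠ 0 ∨ code (m + 1) (tr i ν2) ≠ 0) then (i : ℝ) else 0 := by
      have a : i < (if k1 = 0 then m + 1 else k1) := by split_ifs <;> omega
      have a' : (i : ℝ) < ((if k1 = 0 then m + 1 else k1 : ℕ) : ℝ) := by exact_mod_cast a
      have b : (0 : ℝ) ≤ i := Nat.cast_nonneg i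
      by_cases c : code (m + 1) (tr i ν1) ≠ 0 ∨ code (m + 1) (tr i ν2) ≠ 0
      · rw [if_pos c]; linarith
      · rw [if_neg c]; linarith
    have smn : ∀ ν : Ch, Sm (1 + 1) fun x : ℝ =>
        x ^ (3 * (m + 1) + 10) • dirv x (nv s (m + 1) x ν) := fun ν =>
      sm_cont (by omega) (dirv_cont (nv_cont ν))
    have := parab (ph_tend G h1) (ph0_pos G (par_valid h1)) hβ hn
      (t := tk s (par (m + 1) (false, i, k1, ν1))) (ph3 G h1) (a := 1)
      (E := fun x => (((if ν2 k2 = m + 1 then g (WM (m + 1) x) else 0) -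
        if k2 = m + 1 then x ^ (3 * (m + 1) + 10) • dirv x (nv s (m + 1) x ν2) else 0) -
        if ν2 i = m + 1 then g (WM (m + 1) x) else 0) -
        (((if ν1 k1 = m + 1 then g (WM (m + 1) x) else 0) -
        if k1 = m + 1 then x ^ (3 * (m + 1) + 10) • dirv x (nv s (m + 1) x ν1) else 0) -
        if ν1 i = m + 1 then g (WM (m + 1) x) else 0))
      (((((sm_gWM (by omega)).ite _).sub ((smn _).ite _)).sub ((sm_gWM (by omega)).ite _)).sub
        ((((sm_gWM (by omega)).ite _).sub ((smn _).ite _)).sub ((sm_gWM (by omega)).ite _)))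
      (sm_DD (m := m) (by omega) (cc s.σ i) (k2 = m + 1) (k1 = m + 1))
    filter_upwards [this] with x hx
    have a1 := keyF (s := s) h1 h2 he h0 hi _ Iff.rfl x ((if k1 = 0 then m + 1 else k1 : ℕ) : ℝ)
    have a2 := keyF (s := s) h2 h1 he.symm h0 hi
      (code (m + 1) (tr i ν1) ≠ 0 ∨ code (m + 1) (tr i ν2) ≠ 0) or_comm x
      ((if k1 = 0 then m + 1 else k1 : ℕ) : ℝ)
    rw [hp] at hx a1
    convert hx using 2
    rw [smul_sub, ← a1, ← a2]; abel

theorem fib_dir (G : Good m s) {b : Bool} {i1 i2 : ℕ} {μ1 μ2 : Ch}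
    (h1 : Valid (m + 1) (b, i1, 0, μ1)) (h2 : Valid (m + 1) (b, i2, 0, μ2))
    (hi1 : i1 = 0 ∨ i1 = m + 1) (hi2 : i2 = 0 ∨ i2 = m + 1)
    (he : er (m + 1) μ1 = er (m + 1) μ2) (hne : ¬(i1 = i2 ∧ μ1 = μ2)) :
    ∀ᶠ x in 𝓝[>] (0 : ℝ), dot (ph (next s (m + 1) x) (b, i1, 0, μ1))
      (pt (next s (m + 1) x) (b, i2, 0, μ2)) < 1 := by
  by_cases hμ : μ1 = μ2
  · subst hμ
    filter_upwards [Ωk_pos G h1, self_mem_nhdsWithin] with x hΩ hx
    have hx' : (0 : ℝ) < x := hx
    have hx4 : 0 < x ^ 4 := by positivity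
    have a := dot_vk G h1 (Or.inl rfl) hΩ
    simp only [if_neg (Nat.succ_ne_zero m).symm, sub_zero, mul_one] at a
    rcases hi1 with rfl | rfl
    · have : i2 = m + 1 := by
        rcases hi2 with c | c
        · exact absurd ⟨c.symm, rfl⟩ hne
        · exact c
      subst this
      rw [(pt_new G h2 rfl hx').1, dot_dirv, a]
      simp [ph, Bk, cc, next_σ0 G, hx4]
    · have : i2 = 0 := by
        rcases hi2 with c | c
        · exact c
        · exact absurd ⟨c.symm, rfl⟩ hne
      subst this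
      rw [pt_dir, a, cc_eq]; linarith
  have hb : b = false := by
    by_contra hb
    have hb' : b = true := by simpa using hb
    have z : ∀ {i : ℕ} {μ : Ch}, Valid (m + 1) (b, i, 0, μ) → (i = 0 ∨ i = m + 1) → μ = 0 := by
      intro i μ h hi
      rcases hi with a | a
      · exact (h.2.2.2.1 hb').1 a
      · funext l
        by_contra c
        have := (h.2.2.2.1 hb').2 l c
        have := h.1.2 l c
        simp only at *
        omega
    exact hμ ((z h1 hi1).trans (z h2 hi2).symm)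
  subst hb
  have hn : code (m + 1) (tr 0 μ1) ≠ code (m + 1) μ2 := by
    rw [tr_zero]
    exact fun a => hμ (code_inj (base_lt h1.1 (Nat.succ_ne_zero m))
      (base_lt h2.1 (Nat.succ_ne_zero m)) he a)
  have smn : ∀ ν : Ch, Sm (1 + 1) fun x : ℝ => x ^ 3 • (e1 - x • nv s (m + 1) x ν) := fun ν =>
    sm_cont (by omega) (continuous_const.sub (continuous_id.smul (nv_cont ν)))
  have ptf : ∀ {i : ℕ} {μ : Ch}, Valid (m + 1) (false, i, 0, μ) → (i = 0 ∨ i = m + 1) →
      ∀ x : ℝ, 0 < x → pt (next s (m + 1) x) (false, i, 0, μ) = nv s (m + 1) x μ +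
        if i = m + 1 then x ^ 3 • (e1 - x • nv s (m + 1) x μ) else 0 := by
    intro i μ h hi x hx
    rcases hi with rfl | rfl
    · rw [pt_dir, if_neg (Nat.succ_ne_zero m).symm, add_zero]; rfl
    · rw [(pt_new G h rfl hx).1, if_pos rfl]
      show dirv x (nv s (m + 1) x μ) = _
      unfold dirv
      module
  have ht : tk s (par (m + 1) (false, i1, 0, μ1)) = s.tF (er (m + 1) μ1) := by
    rcases hi1 with rfl | rfl
    · rw [par_old (Nat.succ_ne_zero m).symm (Nat.succ_ne_zero m).symm]; simp [tk, tr_zero]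
    · rw [par_top rfl]; simp [tk, tr_zero]
  have := parab (ph_tend G h1) (ph0_pos G (par_valid h1)) (β := 1) one_pos hn
    (t := tk s (par (m + 1) (false, i1, 0, μ1))) (ph3 G h1) (a := 1)
    (E := fun x => (if i2 = m + 1 then x ^ 3 • (e1 - x • nv s (m + 1) x μ2) else 0) -
      (if i1 = m + 1 then x ^ 3 • (e1 - x • nv s (m + 1) x μ1) else 0))
    (((smn _).ite _).sub ((smn _).ite _)) Sm.zero
  filter_upwards [this, ev_one G h1, self_mem_nhdsWithin] with x hx ho hx0
  have e : pt (next s (m + 1) x) (false, i2, 0, μ2) = pt (next s (m + 1) x) (false, i1, 0, μ1) +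
      ((1 * x ^ 1) • (Par (code (m + 1) μ2) (tk s (par (m + 1) (false, i1, 0, μ1))) x -
        Par (code (m + 1) (tr 0 μ1)) (tk s (par (m + 1) (false, i1, 0, μ1))) x) +
      ((if i2 = m + 1 then x ^ 3 • (e1 - x • nv s (m + 1) x μ2) else 0) -
      (if i1 = m + 1 then x ^ 3 • (e1 - x • nv s (m + 1) x μ1) else 0))) := by
    rw [ptf h1 hi1 x hx0, ptf h2 hi2 x hx0, ht, tr_zero, one_mul, pow_one]
    have n1 : nv s (m + 1) x μ1 = s.v (er (m + 1) μ1) +
      x • Par (code (m + 1) μ1) (s.tF (er (m + 1) μ1)) x := rfl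
    have n2 : nv s (m + 1) x μ2 = s.v (er (m + 1) μ1) +
      x • Par (code (m + 1) μ2) (s.tF (er (m + 1) μ1)) x := by rw [he]; rfl
    generalize (if i2 = m + 1 then x ^ 3 • (e1 - x • nv s (m + 1) x μ2) else 0) = u2
    generalize (if i1 = m + 1 then x ^ 3 • (e1 - x • nv s (m + 1) x μ1) else 0) = u1
    rw [n1, n2, smul_sub]; abel
  rw [e, dot_add, ho]; linarith

theorem ev_sep (G : Good m s) {κ κ' : Key} (h : Valid (m + 1) κ) (h' : Valid (m + 1) κ')
    (hne : κ ≠ κ') :
    ∀ᶠ x in 𝓝[>] (0 : ℝ), dot (ph (next s (m + 1) x) κ) (pt (next s (m + 1) x) κ') < 1 := by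
  by_cases hp : par (m + 1) κ = par (m + 1) κ'
  swap
  · exact (dot_tend (ph_tend G h) (pt_tend G h')).eventually
      (gt_mem_nhds (G.sep _ _ (par_valid h) (par_valid h') hp))
  obtain ⟨b, i, k, μ⟩ := κ
  obtain ⟨b', i', k', μ'⟩ := κ'
  have hk : k = 0 ∨ 1 ≤ i ∧ i < k ∧ k ≤ m + 1 := h.2.2.1
  have hk' : k' = 0 ∨ 1 ≤ i' ∧ i' < k' ∧ k' ≤ m + 1 := h'.2.2.1
  have e : b = b' ∧ (if i = m + 1 then 0 else i) = (if i' = m + 1 then 0 else i') ∧
      er (m + 1) μ = er (m + 1) μ' := by
    have a1 := congrArg (fun z : Key => z.1) hp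
    have a2 := congrArg (fun z : Key => z.2.1) hp
    have a3 := congrArg (fun z : Key => z.2.2.2) hp
    by_cases c : i = m + 1 <;> by_cases c' : i' = m + 1 <;>
      simp only [par, c, c', if_true, if_false] at a1 a2 a3 ⊢ <;> simp [a1, a2, a3]
  obtain ⟨rfl, e2, e3⟩ := e
  by_cases hd : i = 0 ∨ i = m + 1
  · have hd' : i' = 0 ∨ i' = m + 1 := by split_ifs at e2 <;> omega
    have k0 : k = 0 := by omega
    have k0' : k' = 0 := by omega
    subst k0 k0'
    exact fib_dir G h h' hd hd' e3 (fun a => hne (by rw [a.1, a.2]))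
  · have hi : i = i' := by split_ifs at e2 <;> omega
    subst hi
    have hne' : ¬(k = k' ∧ μ = μ') := fun a => hne (by rw [a.1, a.2])
    have main : ∀ᶠ x in 𝓝[>] (0 : ℝ), dot (ph (next s (m + 1) x) (b, i, k, μ))
        (PP (next s (m + 1) x) (b, i, k', μ') - PP (next s (m + 1) x) (b, i, k, μ)) <
        DD (next s (m + 1) x).σ i k' - DD (next s (m + 1) x).σ i k := by
      cases b
      · exact fib_F G h h' (by omega) (by omega) hp hne'
      · exact fib_B G h h' (by omega) (by omega) hp hne'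
    filter_upwards [main, ev_D G h, ev_D G h', ev_one G h] with x a1 a2 a3 a4
    exact red a2 a3 a4 a1

end Pool.Agent.H698Z.Wild
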