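import Mathlib
import Pool.Agent.H698Z.WildFib

set_option autoImplicit false
set_option linter.unusedSectionVars false

namespace Pool.Agent.H698Z.Wild

open Set Filter Topology Asymptotics

variable {s : St} {m : ℕ}

def Ball (m : ℕ) (s : St) (j : ℕ) (y : ℝ) : Prop :=
  ∀ κ κ', Valid m κ → Valid m κ' →
    dot (ph s κ) (pt s κ') + y * (qf (pt s κ' - pt s κ) - rad j) < 1

theorem ev_all {α : Type} {l : Filter α} {M : ℕ} {P : α → Key → Prop}
    (h : ∀ κ, Valid M κ → ∀ᶠ x in l, P x κ) : ∀ᶠ x in l, ∀ κ, Valid M κ → P x κ :=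
  (eventually_all_finite (valid_finite M)).2 h

theorem ev_all2 {α : Type} {l : Filter α} {M : ℕ} {P : α → Key → Key → Prop}
    (h : ∀ κ κ', Valid M κ → Valid M κ' → ∀ᶠ x in l, P x κ κ') :
    ∀ᶠ x in l, ∀ κ κ', Valid M κ → Valid M κ' → P x κ κ' := by
  have := ev_all (P := fun x κ => ∀ κ', Valid M κ' → P x κ κ')
    fun κ hκ => ev_all fun κ' hκ' => h κ κ' hκ hκ'
  filter_upwards [this] with x hx κ κ' a b using hx κ a κ' b

theorem ev_good (G : Good m s) : ∀ᶠ x in 𝓝[>] (0 : ℝ), Good (m + 1) (next s (m + 1) x) := by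
  have sep : ∀ᶠ x in 𝓝[>] (0 : ℝ), ∀ κ κ', Valid (m + 1) κ → Valid (m + 1) κ' → κ ≠ κ' →
      dot (ph (next s (m + 1) x) κ) (pt (next s (m + 1) x) κ') < 1 := by
    refine ev_all2 fun κ κ' a b => ?_
    by_cases c : κ = κ'
    · exact Eventually.of_forall fun x d => absurd c d
    · filter_upwards [ev_sep G a b c] with x hx _ using hx
  filter_upwards [sep, small_ev (show (0 : ℝ) < 1 / 2 by norm_num),
    ev_all fun κ h => ev_D G h, ev_all fun κ h => ev_capp G h, ev_all fun κ h => ev_capφ G h,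
    ev_all fun κ h => ev_h1 G h, ev_all fun κ h => Ωk_pos G h] with x a1 a2 a3 a4 a5 a6 a7
  refine ⟨next_σ0 G x, fun i => ?_, next_SB G x, next_tB G x, fun ν => nv_12 G ν, next_Ω x,
    a3, a4, a5, a6, a7, a1⟩
  by_cases c : i = m + 1
  · rw [c, σ_eq]; exact ⟨a2.1.le, a2.2.le⟩
  · rw [σ_ne c]; exact G.σb i

theorem ev_ball (G : Good m s) {j : ℕ} {y : ℝ} (B : Ball m s j y) :
    ∀ᶠ x in 𝓝[>] (0 : ℝ), Ball (m + 1) (next s (m + 1) x) j y := by
  refine ev_all2 fun κ κ' a b => ?_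
  have t := (dot_tend (ph_tend G a) (pt_tend G b)).add
    ((((qf_cont.tendsto _).comp ((pt_tend G b).sub (pt_tend G a))).sub_const (rad j)).const_mul y)
  exact t.eventually (gt_mem_nhds (B _ _ (par_valid a) (par_valid b)))

theorem choose_mu (G : Good m s) (j : ℕ) : ∃ y : ℝ, (0 < y ∧ y ≤ 1 / 1000) ∧ Ball m s j y := by
  have : ∀ᶠ y in 𝓝[>] (0 : ℝ), Ball m s j y := by
    refine ev_all2 fun κ κ' a b => ?_
    by_cases c : κ = κ'
    · subst c
      filter_upwards [self_mem_nhdsWithin] with y hy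
      have hy' : (0 : ℝ) < y := hy
      have r : 0 < rad j := by unfold rad; positivity
      have := mul_pos hy' r
      rw [G.one a, sub_self]
      simp only [qf, Pi.zero_apply]
      linarith
    · have t : Tendsto (fun y : ℝ => dot (ph s κ) (pt s κ') + y * (qf (pt s κ' - pt s κ) - rad j))
          (𝓝[>] 0) (𝓝 (dot (ph s κ) (pt s κ'))) := tend0 (by fun_prop) (by simp)
      exact t.eventually (gt_mem_nhds (G.sep _ _ a b c))
  obtain ⟨y, a, b⟩ := (this.and (small_ev (show (0 : ℝ) < 1 / 1000 by norm_num))).exists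
  exact ⟨y, ⟨b.1, b.2.le⟩, a⟩

def Inv (m : ℕ) (z : St × (ℕ → ℝ)) : Prop :=
  Good m z.1 ∧ (∀ j, 0 < z.2 j ∧ z.2 j ≤ 1 / 1000) ∧ ∀ j ≤ m, Ball m z.1 j (z.2 j)

theorem step {z : St × (ℕ → ℝ)} (h : Inv m z) : ∃ z' : St × (ℕ → ℝ), Inv (m + 1) z' ∧
    (∃ x, z'.1 = next z.1 (m + 1) x) ∧ ∀ j ≤ m, z'.2 j = z.2 j := by
  obtain ⟨G, hmu, B⟩ := h
  have e : ∀ᶠ x in 𝓝[>] (0 : ℝ), ∀ j ∈ Iic m, Ball (m + 1) (next z.1 (m + 1) x) j (z.2 j) :=
    (eventually_all_finite (finite_Iic m)).2 fun j hj => ev_ball G (B j hj)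
  obtain ⟨x, G', B'⟩ := ((ev_good G).and e).exists
  obtain ⟨y, hy, By⟩ := choose_mu G' (m + 1)
  refine ⟨(next z.1 (m + 1) x, fun j => if j = m + 1 then y else z.2 j), ⟨G', fun j => ?_,
    fun j hj => ?_⟩, ⟨x, rfl⟩, fun j hj => if_neg (by omega)⟩
  · simp only; split_ifs
    · exact hy
    · exact hmu j
  · simp only; split_ifs with c
    · rw [c]; exact By
    · exact B' j (by simp only [mem_Iic]; omega)

noncomputable def s0 : St where
  σ := fun _ => 0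
  SB := fun _ _ => 0
  tB := fun _ _ => 0
  SF := fun _ _ => 0
  v := fun _ => ![1 - (1 / 1000) ^ 2, 0, 0, 1 / 1000]
  tF := fun _ => -2 / 1000
  Ω := fun _ _ => 1 + (1 / 1000) ^ 2

theorem valid0 {κ : Key} (h : Valid 0 κ) : κ = (true, 0, 0, 0) ∨ κ = (false, 0, 0, 0) := by
  obtain ⟨b, i, k, μ⟩ := κ
  obtain ⟨a, hb, c, -⟩ := h
  simp only at a hb c
  have h1 : i = 0 := by omega
  have h2 : k = 0 := by omega
  have h3 : μ = 0 := funext fun l => base_M a (Nat.zero_le l)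
  subst h1 h2 h3
  cases b <;> simp

theorem good0 : Good 0 s0 := by
  have p1 : pt s0 (true, 0, 0, 0) = ![1, 0, 0, 0] := by rw [pt_dir]; rfl
  have p2 : pt s0 (false, 0, 0, 0) = ![1 - (1 / 1000) ^ 2, 0, 0, 1 / 1000] := by rw [pt_dir]; rfl
  have f1 : ph s0 (true, 0, 0, 0) = ![1, 0, 0, 0] := by
    apply ext4 <;> simp [ph, Ak, Bk, Ck, tk, Ωk, cc, s0]
  have f2 : ph s0 (false, 0, 0, 0) = ![1000000 / 1000001, 0, 0, 2000 / 1000001] := by
    apply ext4 <;> simp [ph, Ak, Bk, Ck, tk, Ωk, cc, s0] <;> norm_num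
  refine ⟨rfl, fun i => by simp [s0], fun _ => rfl, fun _ => rfl, fun ν => by simp [s0],
    fun ν => by simp [s0]; norm_num, fun κ h => ?_, fun κ h => ?_, fun κ h => ?_, fun κ h => ?_,
    fun κ h => ?_, fun κ κ' h h' hne => ?_⟩
  · rcases valid0 h with rfl | rfl <;> simp [DD]
  · rcases valid0 h with rfl | rfl
    · rw [p1]; simp [Cap]
    · rw [p2]; simp [Cap]; norm_num [abs_lt]
  · rcases valid0 h with rfl | rfl
    · rw [f1]; simp [Cap]
    · rw [f2]; simp [Cap]; norm_num [abs_lt]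
  · rcases valid0 h with rfl | rfl <;> simp
  · rcases valid0 h with rfl | rfl <;> simp [Ωk, s0]
    positivity
  · rcases valid0 h with rfl | rfl <;> rcases valid0 h' with rfl | rfl
    · exact absurd rfl hne
    · rw [f1, p2]; simp [dot]
    · rw [f2, p1]; simp [dot]; norm_num
    · exact absurd rfl hne

theorem exists_seq : ∃ Z : ℕ → St × (ℕ → ℝ), ∀ m, Inv m (Z m) ∧
    (∃ x, (Z (m + 1)).1 = next (Z m).1 (m + 1) x) ∧ ∀ j ≤ m, (Z (m + 1)).2 j = (Z m).2 j := by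
  obtain ⟨y, hy, By⟩ := choose_mu good0 0
  have i0 : Inv 0 (s0, fun _ => y) := ⟨good0, fun _ => hy, fun j hj => by
    have : j = 0 := by omega
    subst this; exact By⟩
  choose f hf using fun (m : ℕ) (z : St × (ℕ → ℝ)) (h : Inv m z) => step h
  let Z : ∀ m, {z // Inv m z} := fun m =>
    Nat.rec (motive := fun m => {z // Inv m z}) ⟨_, i0⟩
      (fun m z => ⟨f m z.1 z.2, (hf m z.1 z.2).1⟩) m
  exact ⟨fun m => (Z m).1, fun m => ⟨(Z m).2, (hf m (Z m).1 (Z m).2).2⟩⟩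

/-! stability -/

theorem stab_SB {μ : Ch} (h : ∀ l, μ l ≠ m + 1) (i : ℕ) (x : ℝ) :
    (next s (m + 1) x).SB i μ = s.SB i μ := by
  simp [next, er_eq_self h, code_eq_zero h, Par_zero]

theorem stab_SF {μ : Ch} (h : ∀ l, μ l ≠ m + 1) {k : ℕ} (hk : k ≠ m + 1) (x : ℝ) :
    (next s (m + 1) x).SF k μ = s.SF k μ := by
  by_cases a : k = 0
  · simp [next, nz, a, er_eq_self h, code_eq_zero h, Par_zero]
  · simp [next, a, hk, er_eq_self h, code_eq_zero h, Par_zero]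

theorem up_ne {μ : Ch} (h : ∀ l, μ l ≠ m + 1) (i l : ℕ) : up i μ l ≠ m + 1 := by
  simp only [up]; split_ifs
  · exact h l
  · omega

theorem tr_ne {μ : Ch} (h : ∀ l, μ l ≠ m + 1) (i l : ℕ) : tr i μ l ≠ m + 1 := by
  simp only [tr]; split_ifs
  · exact h l
  · omega

theorem stab_YB {μ : Ch} (h : ∀ l, μ l ≠ m + 1) {i : ℕ} (hi : i ≠ m + 1) (x : ℝ) :
    YB (next s (m + 1) x) i μ = YB s i μ := by
  simp only [YB, WW_ne hi, WW_ne (h i), stab_SB (up_ne h i)]

theorem stab_YF {μ : Ch} (h : ∀ l, μ l ≠ m + 1) {i : ℕ} (hi : i ≠ m + 1) (x : ℝ) :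
    YF (next s (m + 1) x) i μ = YF s i μ := by
  simp only [YF, WW_ne (h i), stab_SF (tr_ne h i) hi]

theorem stab_key (G : Good m s) {κ : Key} (h : Valid m κ) (x : ℝ) :
    pt (next s (m + 1) x) κ = pt s κ ∧ ph (next s (m + 1) x) κ = ph s κ := by
  have h' := valid_mono h
  have hμ := base_ne h.1
  have hi : κ.2.1 ≠ m + 1 := by have := h.2.1; omega
  have hk : κ.2.2.1 ≠ m + 1 := by have := h.2.2.1; omega
  have hpar : par (m + 1) κ = κ := by
    simp only [par, if_neg hi, if_neg hk, er_eq_self hμ]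
  have hv : ∀ ν : Ch, (∀ l, ν l ≠ m + 1) → nv s (m + 1) x ν = s.v ν := fun ν a => by
    simp [nv, er_eq_self a, code_eq_zero a, Par_zero]
  have hD : DD (next s (m + 1) x).σ κ.2.1 κ.2.2.1 = DD s.σ κ.2.1 κ.2.2.1 := by
    simp only [DD, dd_ne hi, dd_ne hk, cc_ne hi, σ_ne hk]
  have hP : PP (next s (m + 1) x) κ = PP s κ := by
    have : vk (next s (m + 1) x) κ.1 κ.2.2.2 = vk s κ.1 κ.2.2.2 := by
      unfold vk; split_ifs
      · rfl
      · exact hv _ hμ
    simp only [PP, this, stab_YB hμ hi, stab_YB hμ hk, stab_YF hμ hi, stab_YF hμ hk]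
  have hp : pt (next s (m + 1) x) κ = pt s κ := by simp only [pt, hD, hP]
  have ht : tk (next s (m + 1) x) κ = tk s κ := by
    rw [tk_next G h', hpar, code_eq_zero, mul_zero, sub_zero]
    split_ifs
    · exact up_ne hμ _
    · exact tr_ne hμ _
  have hC : Ck (next s (m + 1) x) κ = Ck s κ := by
    rw [Ck_next G h', hpar, if_neg (hμ _), add_zero]
  have hΩ : Ωk (next s (m + 1) x) κ = Ωk s κ := by
    unfold Ωk; split_ifs
    · rfl
    · have a := tr_ne hμ κ.2.2.1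
      by_cases c : κ.2.2.1 = 0
      · rw [c] at a ⊢
        rw [next_Ω, G.hΩ]
        show nv s (m + 1) x _ 0 - ntF s (m + 1) x _ * nv s (m + 1) x _ 3 = _
        rw [hv _ a]
        simp [ntF, er_eq_self a, code_eq_zero a]
      · have : ¬(κ.2.2.1 = 0 ∨ κ.2.2.1 = m + 1) := by tauto
        simp only [next, if_neg this, er_eq_self a]
  have hA : Ak (next s (m + 1) x) κ = Ak s κ := by simp only [Ak, hΩ, cc_ne hi, σ_ne hk]
  exact ⟨hp, by simp only [ph, Bk, hA, hC, ht, hp]⟩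

theorem stab_le {α : Type} {a : ℕ → α} {m0 : ℕ} (h : ∀ m, m0 ≤ m → a (m + 1) = a m) {m : ℕ}
    (hm : m0 ≤ m) : a m = a m0 := by
  induction hm with
  | refl => rfl
  | step hm ih => rw [← ih]; exact h _ hm

theorem stab_lim {α : Type} [TopologicalSpace α] [T2Space α] [Nonempty α] {a : ℕ → α} {m0 : ℕ}
    (h : ∀ m, m0 ≤ m → a (m + 1) = a m) : limUnder atTop a = a m0 := by
  refine Tendsto.limUnder_eq (tendsto_const_nhds.congr' ?_)
  filter_upwards [eventually_ge_atTop m0] with m hm using (stab_le h hm).symm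

/-- The norm with all prescribed distances. -/
theorem exists_wild : ∃ (N : V → ℝ) (s : St), (∀ x, N x = 0 → x = 0) ∧
    (∀ (a : ℝ) x, N (a • x) = |a| * N x) ∧ (∀ x y, N (x + y) ≤ N x + N y) ∧
    (∀ x y, N x = 1 → N y = 1 → x ≠ y → N (x + y) ≠ 2) ∧ (∀ x, N (g x) = N x) ∧
    s.σ 0 = 0 ∧ (∀ i, s.SB i 0 = 0) ∧
    ∀ m κ, Valid m κ → κ.2.1 ≠ 0 → 0 < DD s.σ κ.2.1 κ.2.2.1 ∧
      N (PP s κ) = DD s.σ κ.2.1 κ.2.2.1 := by
  obtain ⟨Z, hZ⟩ := exists_seq
  choose hI hX hmu using hZ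
  choose X hX using hX
  have G : ∀ m, Good m (Z m).1 := fun m => (hI m).1
  have skey : ∀ {m0 m : ℕ} {κ : Key}, Valid m0 κ → m0 ≤ m →
      pt (Z m).1 κ = pt (Z m0).1 κ ∧ ph (Z m).1 κ = ph (Z m0).1 κ := by
    intro m0 m κ h hm
    exact ⟨stab_le (a := fun m => pt (Z m).1 κ)
        (fun m a => by simp only [hX]; exact (stab_key (G m) (valid_le a h) _).1) hm,
      stab_le (a := fun m => ph (Z m).1 κ)
        (fun m a => by simp only [hX]; exact (stab_key (G m) (valid_le a h) _).2) hm⟩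
  have smu : ∀ {j m : ℕ}, j ≤ m → (Z m).2 j = (Z j).2 j := fun {j m} h =>
    stab_le (a := fun m => (Z m).2 j) (fun m a => hmu m j a) h
  have v0 : Valid 0 (true, 0, 0, 0) :=
    ⟨⟨rfl, fun l a => absurd rfl a⟩, le_rfl, Or.inl rfl,
      fun _ => ⟨fun _ => rfl, fun l a => absurd rfl a⟩, fun a => by simp at a⟩
  haveI : Nonempty {z : ℕ × Key // Valid z.1 z.2} := ⟨⟨(0, _), v0⟩⟩
  obtain ⟨N, n1, n2, n3, n4, n5, n6⟩ := exists_norm (I := {z : ℕ × Key // Valid z.1 z.2})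
    (fun z => pt (Z z.1.1).1 z.1.2) (fun z => ph (Z z.1.1).1 z.1.2) (fun j => (Z j).2 j)
    (fun j => ((hI j).2.1 j).1) (fun j => ((hI j).2.1 j).2) (fun z => (G _).hp _ z.2)
    (fun z => (G _).hφ _ z.2) (fun z => (G _).one z.2) (by
      rintro ⟨⟨m', κ'⟩, h'⟩ ⟨⟨m, κ⟩, h⟩
      simp only at h h' ⊢
      refine ⟨?_, fun j => ?_⟩
      · rw [← (skey h (le_max_left m m')).2, ← (skey h' (le_max_right m m')).1]
        by_cases c : κ = κ'
        · rw [c]; exact ((G _).one (valid_le (le_max_right m m') h')).le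
        · exact ((G _).sep _ _ (valid_le (le_max_left m m') h)
            (valid_le (le_max_right m m') h') c).le
      · have a1 : m ≤ m + m' + j := by omega
        have a2 : m' ≤ m + m' + j := by omega
        have a3 : j ≤ m + m' + j := by omega
        rw [← (skey h a1).2, ← (skey h a1).1, ← (skey h' a2).1, ← smu a3]
        exact ((hI _).2.2 j a3 _ _ (valid_le a1 h) (valid_le a2 h')).le)
  let sl : St := ⟨fun i => limUnder atTop fun m => (Z m).1.σ i,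
    fun i μ => limUnder atTop fun m => (Z m).1.SB i μ, fun _ _ => 0,
    fun i μ => limUnder atTop fun m => (Z m).1.SF i μ, fun _ => 0, fun _ => 0, fun _ _ => 0⟩
  have lσ : ∀ {m i : ℕ}, i ≤ m → sl.σ i = (Z m).1.σ i := fun {m i} h =>
    stab_lim (a := fun m => (Z m).1.σ i) fun m' a => by
      simp only [hX]; exact σ_ne (by omega)
  have lSB : ∀ {m : ℕ} (i : ℕ) {μ : Ch}, (∀ l, μ l ≤ m) → sl.SB i μ = (Z m).1.SB i μ :=
    fun {m} i {μ} h => stab_lim (a := fun m => (Z m).1.SB i μ) fun m' a => by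
      simp only [hX]; exact stab_SB (fun l => by have := h l; omega) _ _
  have lSF : ∀ {m i : ℕ} {μ : Ch}, i ≤ m → (∀ l, μ l ≤ m) → sl.SF i μ = (Z m).1.SF i μ :=
    fun {m i μ} hi h => stab_lim (a := fun m => (Z m).1.SF i μ) fun m' a => by
      simp only [hX]; exact stab_SF (fun l => by have := h l; omega) (by omega) _
  have lW : ∀ {m i : ℕ}, i ≤ m → WW sl.σ i = WW (Z m).1.σ i := fun {m i} h => by
    simp only [WW, dd, lσ h]
  refine ⟨N, sl, n1, n2, n3, n4, n5, by rw [lσ le_rfl, (G 0).σ0], fun i => by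
    rw [lSB (m := 0) i (μ := 0) fun _ => le_rfl, (G 0).hSB], fun m κ h h0 => ?_⟩
  have hi : κ.2.1 ≤ m := h.2.1
  have hk : κ.2.2.1 ≤ m := by have := h.2.2.1; omega
  have hμ : ∀ l, κ.2.2.2 l ≤ m := fun l => by have := h.1.2 l; omega
  have hu : ∀ i l, up i κ.2.2.2 l ≤ m := fun i l => by
    simp only [up]; split_ifs
    · exact hμ l
    · omega
  have ht : ∀ i l, tr i κ.2.2.2 l ≤ m := fun i l => by
    simp only [tr]; split_ifs
    · exact hμ l
    · omega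
  have eD : DD sl.σ κ.2.1 κ.2.2.1 = DD (Z m).1.σ κ.2.1 κ.2.2.1 := by
    simp only [DD, dd, cc, lσ hi, lσ hk]
  have eP : PP sl κ = PP (Z m).1 κ := by
    simp only [PP, if_neg h0, YB, YF, lW hi, lW hk, lW (hμ _), lSB _ (hu _), lSF hi (ht _),
      lSF hk (ht _)]
  have hD := (G m).hD κ h
  rw [eD, eP]
  refine ⟨hD, ?_⟩
  have a := n6 ⟨(m, κ), h⟩
  simp only [pt] at a
  rw [n2, abs_of_pos (inv_pos.2 hD)] at a
  field_simp at a
  exact a

end Pool.Agent.H698Z.Wild
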