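import Mathlib
import Pool.Agent.H698Z.WildStep

set_option autoImplicit false
set_option linter.unusedSectionVars false

namespace Pool.Agent.H698Z.Wild

open Set Filter Topology

noncomputable def gL : V →ₗ[ℝ] V := ⟨⟨g, g_add⟩, g_smul⟩

@[simp] theorem gL_apply (x : V) : gL x = g x := rfl

section Comb

variable {N : V → ℝ} {s : St} (n5 : ∀ x, N (g x) = N x) (n2 : ∀ (a : ℝ) x, N (a • x) = |a| * N x)
  (σ0 : s.σ 0 = 0) (hSB : ∀ i, s.SB i 0 = 0)
  (hK : ∀ m κ, Valid m κ → κ.2.1 ≠ 0 → 0 < DD s.σ κ.2.1 κ.2.2.1 ∧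
      N (PP s κ) = DD s.σ κ.2.1 κ.2.2.1)

include hK in
theorem dist_B {m : ℕ} {μ : Ch} (h : Base m μ) {i k : ℕ} (hi : 1 ≤ i) (hk : i < k) :
    0 < DD s.σ i k ∧ N (YB s i μ - YB s k μ) = DD s.σ i k := by
  have v : Valid (m + k) (true, i, k, fun l => if i ≤ l then μ l else 0) := by
    refine ⟨⟨by simp [h.1], fun l hl => ?_⟩, by simp only; omega, by simp only; omega,
      fun _ => ⟨fun a => by simp only at a; omega, fun l hl => ?_⟩, fun a => by simp at a⟩
    · simp only at hl ⊢
      split_ifs at hl ⊢ with q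
      · have := h.2 l hl; omega
      · exact absurd rfl hl
    · simp only at hl ⊢
      split_ifs at hl with q
      · exact q
      · exact absurd rfl hl
  have e : ∀ j, i ≤ j → YB s j (fun l => if i ≤ l then μ l else 0) = YB s j μ := by
    intro j hj
    have : up j (fun l => if i ≤ l then μ l else 0) = up j μ := by
      funext l; simp only [up]; split_ifs <;> first | rfl | omega
    simp only [YB, this, if_pos hj]
  have := hK _ _ v (by simp only; omega)
  simp only [PP, if_neg (show i ≠ 0 by omega), if_true, e i le_rfl, e k hk.le] at this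
  exact this

include σ0 hSB in
theorem YB_triv {k : ℕ} {μ : Ch} (hk : 1 ≤ k) (h : ∀ l, k ≤ l → μ l = 0) :
    YB s k μ = WW s.σ k := by
  have : up k μ = 0 := by
    funext l; simp only [up]; split_ifs with q
    · exact h l q.le
    · rfl
  simp only [YB, if_neg (show k ≠ 0 by omega), this, hSB, h k le_rfl, WW_zero σ0, g_zero, add_zero]

include σ0 hSB hK in
theorem dist_W {i k : ℕ} (hi : 1 ≤ i) (hk : i < k) :
    0 < DD s.σ i k ∧ N (WW s.σ i - WW s.σ k) = DD s.σ i k := by
  have := dist_B hK (m := 0) (μ := 0) ⟨rfl, fun l a => absurd rfl a⟩ hi hk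
  rwa [YB_triv σ0 hSB (μ := 0) hi (fun _ _ => rfl),
    YB_triv σ0 hSB (μ := 0) (by omega) (fun _ _ => rfl)] at this

variable {c : V → Fin 2}
  (hc : ∀ y : ℕ → V, (∀ i k, 1 ≤ i → i < k → N (y i - y k) = DD s.σ i k) →
    ∀ a, ¬∀ k, 1 ≤ k → c (y k) = a)

/-- every tail of every symmetric image of the sequence has both colours -/
def Claim (N : V → ℝ) (s : St) (c : V → Fin 2) (j : ℕ) : Prop :=
  ∀ (x : V) (h : V →ₗ[ℝ] V), (∀ z, N (h z) = N z) → ∀ a, ∃ k, j ≤ k ∧ c (x + h (WW s.σ k)) = a

theorem fin2 {a b : Fin 2} (h : a ≠ b + 1) : a = b := by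
  revert a b; decide

theorem fin2' {a b : Fin 2} (h : a ≠ b) : a = b + 1 := by
  revert a b; decide

include σ0 hSB hK hc in
theorem claim_one : Claim N s c 1 := by
  intro x h hh a
  have := hc (fun k => x + h (WW s.σ k)) (fun i k hi hk => by
    rw [add_sub_add_left_eq_sub, ← map_sub, hh, (dist_W σ0 hSB hK hi hk).2]) (a + 1)
  push Not at this
  obtain ⟨k, h1, h2⟩ := this
  exact ⟨k, h1, fin2 h2⟩

include n5 σ0 hSB hK hc in
theorem flip {j : ℕ} (hj : 1 ≤ j) (C : Claim N s c j) (x : V) (h : V →ₗ[ℝ] V)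
    (hh : ∀ z, N (h z) = N z) (a : Fin 2) (T : ∀ k, j + 1 ≤ k → c (x + h (WW s.σ k)) = a) :
    ∀ k, j + 1 ≤ k → c ((x + h (WW s.σ j)) + (h ∘ₗ gL) (WW s.σ k)) = a + 1 := by
  intro n hn
  by_contra hne
  have ha := fin2 hne
  have P : ∀ d l, l + d = j → 1 ≤ l → ∃ (μ : Ch) (M : ℕ), Base M μ ∧ (∀ l' < l, μ l' = 0) ∧
      ∀ k, l ≤ k → c (x + h (YB s k μ)) = a := by
    intro d
    induction d with
    | zero =>
      intro l hl _
      have : l = j := by omega
      subst this
      refine ⟨fun l' => if l' = l then n else 0, n, ⟨if_neg (by omega), fun l' a => ?_⟩,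
        fun l' a => if_neg (by omega), fun k hk => ?_⟩
      · simp only at a ⊢
        split_ifs at a ⊢
        · omega
        · exact absurd rfl a
      · rcases hk.eq_or_lt with rfl | q
        · have : up l (fun l' => if l' = l then n else 0) = 0 := by
            funext l'; simp only [up, Pi.zero_apply]; split_ifs <;> first | rfl | omega
          simp only [YB, if_neg (show l ≠ 0 by omega), this, hSB, if_true, add_zero, map_add]
          rw [← ha, ← add_assoc]; rfl
        · rw [YB_triv σ0 hSB (by omega) fun l' a => if_neg (by omega)]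
          exact T k q
    | succ d ih =>
      intro l hl l1
      obtain ⟨μ, M, hb, hz, hcol⟩ := ih (l + 1) (by omega) (by omega)
      obtain ⟨n', hn', hc'⟩ := C (x + h (WW s.σ l) + h (s.SB l (up l μ))) (h ∘ₗ gL)
        (fun z => by simp [hh, n5]) a
      refine ⟨fun l' => if l' = l then n' else μ l', M + n', ⟨?_, fun l' a => ?_⟩,
        fun l' a => ?_, fun k hk => ?_⟩
      · simp only [if_neg (show 0 ≠ l by omega), hb.1]
      · simp only at a ⊢
        split_ifs at a ⊢
        · omega
        · have := hb.2 l' a; omega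
      · simp only [if_neg (show l' ≠ l by omega)]; exact hz l' (by omega)
      · have e : up k (fun l' => if l' = l then n' else μ l') = up k μ := by
          funext l'; simp only [up]; split_ifs <;> first | rfl | omega
        rcases hk.eq_or_lt with rfl | q
        · simp only [YB, if_neg (show l ≠ 0 by omega), e, if_true, map_add]
          rw [← hc']
          congr 1
          simp only [LinearMap.comp_apply, gL_apply]
          abel
        · rw [← hcol k q]
          simp only [YB, e, if_neg (show k ≠ l by omega)]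
  obtain ⟨μ, M, hb, -, hcol⟩ := P (j - 1) 1 (by omega) le_rfl
  exact hc (fun k => x + h (YB s k μ)) (fun i k hi hk => by
    rw [add_sub_add_left_eq_sub, ← map_sub, hh, (dist_B hK hb hi hk).2]) a hcol

include n5 σ0 hSB hK hc in
theorem claim_all (j : ℕ) : Claim N s c (j + 1) := by
  induction j with
  | zero => exact claim_one σ0 hSB hK hc
  | succ j C =>
    intro x h hh a
    by_contra hne
    push Not at hne
    have T0 : ∀ k, j + 1 + 1 ≤ k → c (x + h (WW s.σ k)) = a + 1 := fun k hk => fin2' (hne k hk)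
    have iso : ∀ h : V →ₗ[ℝ] V, (∀ z, N (h z) = N z) → ∀ z, N ((h ∘ₗ gL) z) = N z :=
      fun h hh z => by simp [hh, n5]
    have F := flip n5 σ0 hSB hK hc (Nat.succ_le_succ (Nat.zero_le j)) C
    have T1 := F _ _ hh _ T0
    have T2 := F _ _ (iso _ hh) _ T1
    have T3 := F _ _ (iso _ (iso _ hh)) _ T2
    have T4 := F _ _ (iso _ (iso _ (iso _ hh))) _ T3
    have T5 := F _ _ (iso _ (iso _ (iso _ (iso _ hh)))) _ T4 _ le_rfl
    simp only [LinearMap.comp_apply, gL_apply, g_five] at T5
    have e := congrArg h (g_sum (WW s.σ (0 + 1 + j)))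
    simp only [map_add, map_zero] at e
    have e' : x + h (WW s.σ (j + 1)) + h (g (WW s.σ (j + 1))) + h (g (g (WW s.σ (j + 1)))) +
        h (g (g (g (WW s.σ (j + 1))))) + h (g (g (g (g (WW s.σ (j + 1)))))) = x := by
      rw [show 0 + 1 + j = j + 1 by omega] at e
      rw [add_assoc x, add_assoc x, add_assoc x, add_assoc x, e, add_zero]
    rw [e', T0 _ le_rfl] at T5
    revert T5
    generalize a = b
    revert b
    decide

include n5 n2 σ0 hSB hK hc in
theorem no_colouring : False := by
  have ch : ∀ (r : ℕ) (B : Ch), ∃ n, r + B (r - 1) + 1 ≤ n ∧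
      c (s.SF r (tr r B) - g (WW s.σ n)) = 0 := by
    intro r B
    obtain ⟨n, h1, h2⟩ := claim_all n5 σ0 hSB hK hc (r + B (r - 1)) (s.SF r (tr r B)) (-gL)
      (fun z => by
        have := n2 (-1) (g z)
        simp only [neg_smul, one_smul, abs_neg, abs_one, one_mul] at this
        simp [this, n5]) 0
    exact ⟨n, h1, by rw [← h2, sub_eq_add_neg]; rfl⟩
  choose nx h1 h2 using ch
  let A : ℕ → Ch := fun r => Nat.rec (motive := fun _ => Ch) 0
    (fun r B l => if l = r + 1 then nx (r + 1) B else B l) r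
  have A0 : A 0 = 0 := rfl
  have AS : ∀ r l, A (r + 1) l = if l = r + 1 then nx (r + 1) (A r) else A r l := fun _ _ => rfl
  have hz : ∀ k l, k < l → A k l = 0 := by
    intro k
    induction k with
    | zero => intro l _; rfl
    | succ k ih => intro l hl; rw [AS, if_neg (by omega)]; exact ih l (by omega)
  have hs : ∀ k l, l ≤ k → A k l = A l l := by
    intro k l hl
    exact stab_le (a := fun k => A k l) (fun m a => by simp only [AS]; exact if_neg (by omega)) hl
  have hm : ∀ r, r + 1 + A r r + 1 ≤ A (r + 1) (r + 1) := fun r => by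
    rw [AS, if_pos rfl]; exact h1 (r + 1) (A r)
  have mono : StrictMono fun l => A l l := strictMono_nat_of_lt_succ fun r => by
    have := hm r; omega
  have big : ∀ l, 1 ≤ l → l < A l l := fun l hl => by
    obtain ⟨r, rfl⟩ : ∃ r, l = r + 1 := ⟨l - 1, by omega⟩
    have := hm r; omega
  have le_of : ∀ k l, A k l ≠ 0 → 1 ≤ l ∧ l ≤ k := fun k l a => by
    refine ⟨?_, by by_contra b; exact a (hz k l (by omega))⟩
    by_contra b
    have : l = 0 := by omega
    subst this
    exact a (hs k 0 (Nat.zero_le k))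
  refine hc (fun k => YF s k (A k)) (fun i k hi hk => ?_) 0 fun k hk => ?_
  · have v : Valid (A k k) (false, i, k, A k) := by
      have bk := big k (by omega)
      refine ⟨⟨hs k 0 (Nat.zero_le k), fun l a => ?_⟩, by simp only; omega, by simp only; omega,
        fun a => by simp at a, fun _ => ⟨fun l l' l1 a b => ?_, fun _ l a => (le_of k l a).2⟩⟩
      · simp only at a ⊢
        obtain ⟨b1, b2⟩ := le_of k l a
        rw [hs k l b2]
        exact ⟨big l b1, mono.monotone b2⟩
      · simp only at b ⊢
        obtain ⟨b1, b2⟩ := le_of k l' b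
        rw [hs k l (by omega), hs k l' b2]
        have := big l l1
        exact ⟨by omega, mono a⟩
    have := (hK _ _ v (by simp only; omega)).2
    simp only [PP, if_neg (show i ≠ 0 by omega), Bool.false_eq_true, if_false] at this
    have e : tr i (A k) = tr i (A i) := by
      funext l; simp only [tr]; split_ifs with q
      · rw [hs k l (by omega), hs i l (by omega)]
      · rfl
    rw [← this]
    simp only [YF, e, hs k i hk.le]
  · obtain ⟨r, rfl⟩ : ∃ r, k = r + 1 := ⟨k - 1, by omega⟩
    have e : tr (r + 1) (A (r + 1)) = tr (r + 1) (A r) := by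
      funext l; unfold tr
      by_cases q : r + 1 = 0 ∨ l < r + 1
      · rw [if_pos q, if_pos q, AS, if_neg (by omega)]
      · rw [if_neg q, if_neg q]
    simp only [YF, e]
    rw [AS, if_pos rfl]
    exact h2 (r + 1) (A r)

end Comb

/-- A strictly convex norm on four-space and a sequence with a monochromatic copy in every
two-colouring. -/
theorem wild : ∃ (N : V → ℝ) (W : ℕ → V), (∀ x, N x = 0 → x = 0) ∧
    (∀ (a : ℝ) x, N (a • x) = |a| * N x) ∧ (∀ x y, N (x + y) ≤ N x + N y) ∧
    (∀ x y, N x = 1 → N y = 1 → x ≠ y → N (x + y) ≠ 2) ∧ Function.Injective W ∧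
    ∀ c : V → Fin 2, ∃ (y : ℕ → V) (a : Fin 2), (∀ i k, N (y i - y k) = N (W i - W k)) ∧
      ∀ k, c (y k) = a := by
  obtain ⟨N, s, n1, n2, n3, n4, n5, σ0, hSB, hK⟩ := exists_wild
  have n0 : N 0 = 0 := by simpa using n2 0 0
  have ns : ∀ x y, N (x - y) = N (y - x) := fun x y => by
    have := n2 (-1) (y - x)
    simpa using this
  refine ⟨N, fun k => WW s.σ (k + 1), n1, n2, n3, n4, ?_, fun c => ?_⟩
  · refine Function.Injective.of_lt_imp_ne fun i k hik a => ?_
    have := dist_W σ0 hSB hK (i := i + 1) (k := k + 1) (by omega) (by omega)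
    rw [a, sub_self, n0] at this
    linarith [this.1, this.2]
  · by_contra hne
    refine no_colouring n5 n2 σ0 hSB hK (c := c) fun y hy a ha => hne
      ⟨fun k => y (k + 1), a, fun i k => ?_, fun k => ha _ (by omega)⟩
    have main : ∀ i k, i < k → N (y (i + 1) - y (k + 1)) = N (WW s.σ (i + 1) - WW s.σ (k + 1)) :=
      fun i k h => by
        rw [hy _ _ (by omega) (by omega), (dist_W σ0 hSB hK (by omega) (by omega)).2]
    rcases lt_trichotomy i k with h | rfl | h
    · exact main i k h
    · simp only [sub_self]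
    · rw [ns, main k i h, ns]

end Pool.Agent.H698Z.Wild
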