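import Mathlib
import Pool.Agent.H698Z.WildComb

set_option autoImplicit false

namespace Pool.Agent.H698Z.Wild

/-- a copy of four-space carrying no norm yet -/
def Sp : Type := V

theorem wild_space4 : ∃ (E : Type) (_ : NormedAddCommGroup E) (_ : NormedSpace ℝ E)
    (_ : FiniteDimensional ℝ E) (_ : StrictConvexSpace ℝ E), Module.finrank ℝ E = 4 ∧
    ∃ W : ℕ → E, Function.Injective W ∧ ∀ c : E → Fin 2, ∃ (y : ℕ → E) (a : Fin 2),
      (∀ i k, dist (y i) (y k) = dist (W i) (W k)) ∧ ∀ k, c (y k) = a := by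
  obtain ⟨N, W, n1, n2, n3, n4, hW, hc⟩ := wild
  have n0 : N 0 = 0 := by simpa using n2 0 0
  have nn : ∀ x, N (-x) = N x := fun x => by simpa using n2 (-1) x
  letI a1 : AddCommGroup Sp := inferInstanceAs (AddCommGroup V)
  letI a2 : Module ℝ Sp := inferInstanceAs (Module ℝ V)
  let p : AddGroupNorm Sp :=
    { toFun := N
      map_zero' := n0
      add_le' := n3
      neg' := nn
      eq_zero_of_map_eq_zero' := n1 }
  letI a3 : NormedAddCommGroup Sp := AddGroupNorm.toNormedAddCommGroup p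
  letI a4 : NormedSpace ℝ Sp := ⟨fun a x => (n2 a x).le⟩
  have a5 : FiniteDimensional ℝ Sp := inferInstanceAs (Module.Finite ℝ V)
  have a6 : StrictConvexSpace ℝ Sp :=
    StrictConvexSpace.of_norm_add_ne_two fun x y hx hy hxy => n4 x y hx hy hxy
  have a7 : Module.finrank ℝ Sp = 4 := by
    show Module.finrank ℝ (Fin 4 → ℝ) = 4
    simp
  refine ⟨Sp, a3, a4, a5, a6, a7, W, hW, fun c => ?_⟩
  obtain ⟨y, a, hy, ha⟩ := hc c
  refine ⟨y, a, fun i k => ?_, ha⟩
  rw [dist_eq_norm, dist_eq_norm]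
  exact hy i k

theorem wild_space : ∃ (E : Type) (_ : NormedAddCommGroup E) (_ : NormedSpace ℝ E)
    (_ : FiniteDimensional ℝ E) (_ : StrictConvexSpace ℝ E), 2 ≤ Module.finrank ℝ E ∧
    ∃ W : ℕ → E, Function.Injective W ∧ ∀ c : E → Fin 2, ∃ (y : ℕ → E) (a : Fin 2),
      (∀ i k, dist (y i) (y k) = dist (W i) (W k)) ∧ ∀ k, c (y k) = a := by
  obtain ⟨E, i1, i2, i3, i4, hr, h⟩ := wild_space4
  exact ⟨E, i1, i2, i3, i4, by omega, h⟩

end Pool.Agent.H698Z.Wild
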